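import Mathlib

/-! Two continuous unitary representations of a compact group with the same character are
unitarily equivalent. -/

set_option autoImplicit false

namespace Pool.Agent.Helper189.CharEq

open MeasureTheory Matrix
open scoped ComplexOrder

section

variable {G : Type} [Group G] {N : ℕ}

abbrev M (N : ℕ) := Matrix (Fin N) (Fin N) ℂ

/-- intertwiners -/
def IsInt (ρ σ : G →* Matrix.unitaryGroup (Fin N) ℂ) (A : M N) : Prop :=
  ∀ g, A * (ρ g : M N) = (σ g : M N) * A

theorem coe_inv_eq (ρ : G →* Matrix.unitaryGroup (Fin N) ℂ) (g : G) :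
    ((ρ g⁻¹ : Matrix.unitaryGroup (Fin N) ℂ) : M N) = (ρ g : M N)ᴴ := by
  rw [map_inv]; rfl

theorem IsInt.adj {ρ σ : G →* Matrix.unitaryGroup (Fin N) ℂ} {A : M N} (h : IsInt ρ σ A) :
    IsInt σ ρ Aᴴ := by
  intro g
  have h1 := congrArg Matrix.conjTranspose (h g⁻¹)
  rw [conjTranspose_mul, conjTranspose_mul, coe_inv_eq, coe_inv_eq, conjTranspose_conjTranspose,
    conjTranspose_conjTranspose] at h1
  exact h1.symm

theorem IsInt.mul {ρ σ τ : G →* Matrix.unitaryGroup (Fin N) ℂ} {A B : M N}
    (hA : IsInt ρ σ A) (hB : IsInt τ ρ B) : IsInt τ σ (A * B) := by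
  intro g
  rw [Matrix.mul_assoc, hB g, ← Matrix.mul_assoc, hA g, Matrix.mul_assoc]

theorem IsInt.add {ρ σ : G →* Matrix.unitaryGroup (Fin N) ℂ} {A B : M N}
    (hA : IsInt ρ σ A) (hB : IsInt ρ σ B) : IsInt ρ σ (A + B) := by
  intro g
  rw [Matrix.add_mul, hA g, hB g, Matrix.mul_add]

theorem IsInt.sub {ρ σ : G →* Matrix.unitaryGroup (Fin N) ℂ} {A B : M N}
    (hA : IsInt ρ σ A) (hB : IsInt ρ σ B) : IsInt ρ σ (A - B) := by
  intro g
  rw [Matrix.sub_mul, hA g, hB g, Matrix.mul_sub]

theorem IsInt.smul {ρ σ : G →* Matrix.unitaryGroup (Fin N) ℂ} {A : M N} (c : ℂ)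
    (hA : IsInt ρ σ A) : IsInt ρ σ (c • A) := by
  intro g
  rw [Matrix.smul_mul, hA g, Matrix.mul_smul]

theorem isInt_one (ρ : G →* Matrix.unitaryGroup (Fin N) ℂ) : IsInt ρ ρ 1 := by
  intro g; rw [Matrix.one_mul, Matrix.mul_one]

/-- spectral projections of a nonzero `Aᴴ A` -/
theorem exists_proj (A : M N) (hA : A ≠ 0) :
    ∃ (E : M N) (l : ℝ), 0 < l ∧ Eᴴ = E ∧ E * E = E ∧ E ≠ 0 ∧ (Aᴴ * A) * E = (l : ℂ) • E ∧
      ∀ X : M N, (Aᴴ * A) * X = X * (Aᴴ * A) → E * X = X * E := by
  classical
  set H : M N := Aᴴ * A with hH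
  have hps : H.PosSemidef := Matrix.posSemidef_conjTranspose_mul_self A
  have hh : H.IsHermitian := hps.1
  have hH0 : H ≠ 0 := by
    intro h0
    exact hA (Matrix.conjTranspose_mul_self_eq_zero.mp h0)
  set u : M N := (hh.eigenvectorUnitary : M N) with hu
  have hspec : H = u * diagonal (fun i => (hh.eigenvalues i : ℂ)) * uᴴ := by
    have := hh.spectral_theorem
    rw [Unitary.conjStarAlgAut_apply] at this
    exact this
  have huu : uᴴ * u = 1 := by
    have := hh.eigenvectorUnitary.2
    rw [Matrix.mem_unitaryGroup_iff'] at this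
    exact this
  have huu' : u * uᴴ = 1 := by
    have := hh.eigenvectorUnitary.2
    rw [Matrix.mem_unitaryGroup_iff] at this
    exact this
  obtain ⟨i0, hi0⟩ : ∃ i, hh.eigenvalues i ≠ 0 := by
    by_contra hc
    push Not at hc
    apply hH0
    rw [hspec]
    have : (fun i => (hh.eigenvalues i : ℂ)) = fun _ => 0 := by
      funext i; rw [hc i]; simp
    rw [this]
    simp
  have hl0 : 0 < hh.eigenvalues i0 := lt_of_le_of_ne (hps.eigenvalues_nonneg i0) (Ne.symm hi0)
  set l := hh.eigenvalues i0 with hl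
  set e : Fin N → ℂ := fun i => if hh.eigenvalues i = l then 1 else 0 with he
  refine ⟨u * diagonal e * uᴴ, l, hl0, ?_, ?_, ?_, ?_, ?_⟩
  · rw [conjTranspose_mul, conjTranspose_mul, conjTranspose_conjTranspose, diagonal_conjTranspose,
      Matrix.mul_assoc]
    congr 3
    funext i
    by_cases h : hh.eigenvalues i = l <;> simp [he, h]
  · have : u * diagonal e * uᴴ * (u * diagonal e * uᴴ)
        = u * (diagonal e * (uᴴ * u) * diagonal e) * uᴴ := by
      simp only [Matrix.mul_assoc]
    rw [this, huu, Matrix.mul_one, diagonal_mul_diagonal]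
    congr 3
    funext i
    by_cases h : hh.eigenvalues i = l <;> simp [he, h]
  · intro h0
    have h1 : uᴴ * (u * diagonal e * uᴴ) * u = diagonal e := by
      have : uᴴ * (u * diagonal e * uᴴ) * u = (uᴴ * u) * diagonal e * (uᴴ * u) := by
        simp only [Matrix.mul_assoc]
      rw [this, huu, Matrix.one_mul, Matrix.mul_one]
    rw [h0, Matrix.mul_zero, Matrix.zero_mul] at h1
    have h2 := congrFun (congrFun h1 i0) i0
    rw [diagonal_apply_eq] at h2
    simp [he, hl] at h2
  · have : H * (u * diagonal e * uᴴ)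
        = u * (diagonal (fun i => (hh.eigenvalues i : ℂ)) * (uᴴ * u) * diagonal e) * uᴴ := by
      conv_lhs => rw [hspec]
      simp only [Matrix.mul_assoc]
    rw [this, huu, Matrix.mul_one, diagonal_mul_diagonal]
    have h3 : diagonal (fun i => (hh.eigenvalues i : ℂ) * e i) = (l : ℂ) • diagonal e := by
      rw [← diagonal_smul]
      congr 1
      funext i
      by_cases h : hh.eigenvalues i = l <;> simp [he, h]
    rw [h3, Matrix.mul_smul, Matrix.smul_mul]
  · intro X hX
    have h1 : diagonal (fun i => (hh.eigenvalues i : ℂ)) * (uᴴ * X * u)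
        = (uᴴ * X * u) * diagonal (fun i => (hh.eigenvalues i : ℂ)) := by
      have a1 : diagonal (fun i => (hh.eigenvalues i : ℂ)) = uᴴ * H * u := by
        symm
        refine (congrArg (fun Y => uᴴ * Y * u) hspec).trans ?_
        have : uᴴ * (u * diagonal (fun i => (hh.eigenvalues i : ℂ)) * uᴴ) * u
          = (uᴴ * u) * diagonal (fun i => (hh.eigenvalues i : ℂ)) * (uᴴ * u) := by
          simp only [Matrix.mul_assoc]
        exact this.trans (by rw [huu, Matrix.one_mul, Matrix.mul_one])
      rw [a1]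
      have a2 : uᴴ * H * u * (uᴴ * X * u) = uᴴ * (H * (u * uᴴ) * X) * u := by
        simp only [Matrix.mul_assoc]
      have a3 : uᴴ * X * u * (uᴴ * H * u) = uᴴ * (X * (u * uᴴ) * H) * u := by
        simp only [Matrix.mul_assoc]
      rw [a2, a3, huu', Matrix.mul_one, Matrix.mul_one, hX]
    have h2 : diagonal e * (uᴴ * X * u) = (uᴴ * X * u) * diagonal e := by
      ext i j
      have h3 := congrFun (congrFun h1 i) j
      rw [diagonal_mul, mul_diagonal] at h3
      rw [diagonal_mul, mul_diagonal]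
      by_cases h : (uᴴ * X * u) i j = 0
      · rw [h]; simp
      · have h4 : (hh.eigenvalues i : ℂ) = hh.eigenvalues j := by
          rw [mul_comm] at h3
          exact mul_left_cancel₀ h h3
        have h5 : hh.eigenvalues i = hh.eigenvalues j := by exact_mod_cast h4
        simp only [he, h5]
        rw [mul_comm]
    calc u * diagonal e * uᴴ * X = u * (diagonal e * (uᴴ * X * u)) * uᴴ := by
          have : u * (diagonal e * (uᴴ * X * u)) * uᴴ = u * diagonal e * uᴴ * X * (u * uᴴ) := by
            simp only [Matrix.mul_assoc]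
          rw [this, huu', Matrix.mul_one]
      _ = u * ((uᴴ * X * u) * diagonal e) * uᴴ := by rw [h2]
      _ = X * (u * diagonal e * uᴴ) := by
          have : u * ((uᴴ * X * u) * diagonal e) * uᴴ = (u * uᴴ) * X * (u * diagonal e * uᴴ) := by
            simp only [Matrix.mul_assoc]
          rw [this, huu', Matrix.one_mul]

/-- a nonzero intertwiner gives a nonzero partial isometry intertwiner -/
theorem exists_pi {ρ σ : G →* Matrix.unitaryGroup (Fin N) ℂ} {A P Q : M N} (hA : IsInt ρ σ A)
    (hA0 : A ≠ 0) (hP : Pᴴ = P) (hAP : A * P = A) (hQA : Q * A = A) :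
    ∃ W : M N, IsInt ρ σ W ∧ W * Wᴴ * W = W ∧ W ≠ 0 ∧ W * P = W ∧ Q * W = W := by
  obtain ⟨E, l, hl, hE1, hE2, hE0, hHE, hcomm⟩ := exists_proj A hA0
  have hl' : (l : ℂ) ≠ 0 := by exact_mod_cast hl.ne'
  have hHP : Aᴴ * A * P = Aᴴ * A := by rw [Matrix.mul_assoc, hAP]
  have hPH : P * (Aᴴ * A) = Aᴴ * A := by
    have := congrArg Matrix.conjTranspose hHP
    rw [conjTranspose_mul, hP, conjTranspose_mul, conjTranspose_conjTranspose] at this
    exact this
  have hPE : P * E = E := by
    have h1 : (l : ℂ) • (P * E) = (l : ℂ) • E := by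
      rw [← Matrix.mul_smul, ← hHE, ← Matrix.mul_assoc, hPH]
    exact smul_right_injective _ hl' h1
  have hEP : E * P = E := by
    have := congrArg Matrix.conjTranspose hPE
    rw [conjTranspose_mul, hP, hE1] at this
    exact this
  set c : ℂ := (((Real.sqrt l)⁻¹ : ℝ) : ℂ) with hc
  have hcc : star c * c * l = 1 := by
    have h1 : star c = c := by rw [hc]; simp
    rw [h1, hc]
    have h2 : ((Real.sqrt l)⁻¹ * (Real.sqrt l)⁻¹ * l : ℝ) = 1 := by
      rw [← mul_inv, Real.mul_self_sqrt hl.le, inv_mul_cancel₀ hl.ne']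
    exact_mod_cast h2
  have hc0 : c ≠ 0 := by
    intro h; rw [h] at hcc; simp at hcc
  have hWW : (c • (A * E))ᴴ * (c • (A * E)) = E := by
    rw [conjTranspose_smul, conjTranspose_mul, Matrix.smul_mul, Matrix.mul_smul, smul_smul, hE1]
    have h1 : E * Aᴴ * (A * E) = (l : ℂ) • E := by
      have : E * Aᴴ * (A * E) = E * (Aᴴ * A * E) := by simp only [Matrix.mul_assoc]
      rw [this, hHE, Matrix.mul_smul, hE2]
    rw [h1, smul_smul, hcc, one_smul]
  refine ⟨c • (A * E), ?_, ?_, ?_, ?_, ?_⟩
  · apply IsInt.smul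
    apply IsInt.mul hA
    intro g
    apply hcomm
    exact (IsInt.mul hA.adj hA) g
  · rw [Matrix.mul_assoc, hWW, Matrix.smul_mul, Matrix.mul_assoc, hE2]
  · intro h0
    rw [h0] at hWW
    simp at hWW
    exact hE0 hWW.symm
  · rw [Matrix.smul_mul, Matrix.mul_assoc, hEP]
  · rw [Matrix.mul_smul, ← Matrix.mul_assoc, hQA]

end

section haar

variable {G : Type} [Group G] [TopologicalSpace G] [IsTopologicalGroup G] [CompactSpace G]
  [T2Space G] {N : ℕ}

/-- a nonzero intertwiner from equality of characters -/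
theorem exists_int (ρ σ : G →* Matrix.unitaryGroup (Fin N) ℂ) (hρ : Continuous ρ)
    (hσ : Continuous σ) (P Q : M N) (hP : IsInt ρ ρ P) (hQ : IsInt σ σ Q) (hPP : P * P = P)
    (hPs : Pᴴ = P) (hQQ : Q * Q = Q) (hP0 : P ≠ 0)
    (htr : ∀ g, (P * (ρ g : M N)).trace = (Q * (σ g : M N)).trace) :
    ∃ A : M N, IsInt ρ σ A ∧ A ≠ 0 ∧ A * P = A ∧ Q * A = A := by
  classical
  let _ : MeasurableSpace G := borel G
  have _ : BorelSpace G := ⟨rfl⟩
  set μ : Measure G := Measure.haar with hμ
  have hρc : Continuous fun g : G => (ρ g : M N) := continuous_subtype_val.comp hρ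
  have hσc : Continuous fun g : G => (σ g : M N) := continuous_subtype_val.comp hσ
  have hint : ∀ f : G → ℂ, Continuous f → Integrable f μ := fun f hf =>
    hf.integrable_of_hasCompactSupport (HasCompactSupport.of_compactSpace f)
  -- the averaged matrix
  let F : M N → G → M N := fun X g => Q * (σ g : M N) * X * ((ρ g : M N)ᴴ * P)
  have hFc : ∀ X, Continuous (F X) := fun X =>
    (((continuous_const.matrix_mul hσc).matrix_mul continuous_const).matrix_mul
      (hρc.matrix_conjTranspose.matrix_mul continuous_const))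
  have hFij : ∀ X i j, Continuous fun g => F X g i j := fun X i j =>
    (continuous_apply j).comp ((continuous_apply i).comp (hFc X))
  let I : M N → M N := fun X => Matrix.of fun i j => ∫ g, F X g i j ∂μ
  have hIij : ∀ X i j, I X i j = ∫ g, F X g i j ∂μ := fun X i j => rfl
  have hleft : ∀ (X B : M N), B * I X = Matrix.of fun i j => ∫ g, (B * F X g) i j ∂μ := by
    intro X B
    ext i j
    rw [Matrix.mul_apply, Matrix.of_apply]
    simp only [Matrix.mul_apply, hIij]
    rw [integral_finsetSum _ fun l _ => hint _ ?_]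
    · refine Finset.sum_congr rfl fun l _ => ?_
      rw [integral_const_mul]
    · exact continuous_const.mul (hFij X _ _)
  have hright : ∀ (X B : M N), I X * B = Matrix.of fun i j => ∫ g, (F X g * B) i j ∂μ := by
    intro X B
    ext i j
    rw [Matrix.mul_apply, Matrix.of_apply]
    simp only [Matrix.mul_apply, hIij]
    rw [integral_finsetSum _ fun l _ => hint _ ?_]
    · refine Finset.sum_congr rfl fun l _ => ?_
      rw [integral_mul_const]
    · exact (hFij X _ _).mul continuous_const
  have hIint : ∀ X, IsInt ρ σ (I X) := by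
    intro X h
    rw [hleft, hright]
    ext i j
    rw [Matrix.of_apply, Matrix.of_apply]
    have h1 : ∀ g, (σ h : M N) * F X (h⁻¹ * g) = F X g * (ρ h : M N) := by
      intro g
      have e1 : (σ g : M N) = (σ h : M N) * (σ (h⁻¹ * g) : M N) := by
        have : σ g = σ h * σ (h⁻¹ * g) := by rw [← map_mul, mul_inv_cancel_left]
        rw [this]; rfl
      have e2 : (ρ (h⁻¹ * g) : M N) = (ρ h : M N)ᴴ * (ρ g : M N) := by
        rw [map_mul, ← coe_inv_eq]; rfl
      show (σ h : M N) * (Q * (σ (h⁻¹ * g) : M N) * X * ((ρ (h⁻¹ * g) : M N)ᴴ * P))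
        = Q * (σ g : M N) * X * ((ρ g : M N)ᴴ * P) * (ρ h : M N)
      rw [e1, e2, conjTranspose_mul, conjTranspose_conjTranspose]
      have e3 : (ρ h : M N) * P = P * (ρ h : M N) := (hP h).symm
      have e4 : Q * (σ h : M N) = (σ h : M N) * Q := hQ h
      calc (σ h : M N) * (Q * (σ (h⁻¹ * g) : M N) * X * ((ρ g : M N)ᴴ * (ρ h : M N) * P))
          = ((σ h : M N) * Q) * (σ (h⁻¹ * g) : M N) * X * ((ρ g : M N)ᴴ * ((ρ h : M N) * P)) := by
            simp only [Matrix.mul_assoc]
        _ = (Q * (σ h : M N)) * (σ (h⁻¹ * g) : M N) * X * ((ρ g : M N)ᴴ * (P * (ρ h : M N))) := by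
            rw [e3, e4]
        _ = _ := by simp only [Matrix.mul_assoc]
    have h2 : ∫ g, (F X g * (ρ h : M N)) i j ∂μ = ∫ g, ((σ h : M N) * F X (h⁻¹ * g)) i j ∂μ := by
      congr 1
      funext g
      rw [h1 g]
    rw [h2]
    exact integral_mul_left_eq_self (fun g => ((σ h : M N) * F X g) i j) h⁻¹
  by_contra hcon
  push Not at hcon
  have hI0 : ∀ X, I X = 0 := by
    intro X
    by_contra hne
    have h1 : I X * P = I X := by
      rw [hright]
      ext i j
      rw [Matrix.of_apply, hIij]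
      congr 1
      funext g
      show (Q * (σ g : M N) * X * ((ρ g : M N)ᴴ * P) * P) i j = _
      rw [Matrix.mul_assoc _ _ P, Matrix.mul_assoc _ P P, hPP]
    have h2 : Q * I X = I X := by
      rw [hleft]
      ext i j
      rw [Matrix.of_apply, hIij]
      congr 1
      funext g
      show (Q * (Q * (σ g : M N) * X * ((ρ g : M N)ᴴ * P))) i j
        = (Q * (σ g : M N) * X * ((ρ g : M N)ᴴ * P)) i j
      have : Q * (Q * (σ g : M N) * X * ((ρ g : M N)ᴴ * P))
          = (Q * Q) * (σ g : M N) * X * ((ρ g : M N)ᴴ * P) := by simp only [Matrix.mul_assoc]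
      rw [this, hQQ]
    exact hcon (I X) (hIint X) hne h1 h2
  -- the product of traces has zero integral
  have hsum : ∀ g, (Q * (σ g : M N)).trace * (((ρ g : M N)ᴴ * P).trace)
      = ∑ i, ∑ j, F (Matrix.single i j 1) g i j := by
    intro g
    have h1 : ∀ i j, F (Matrix.single i j 1) g i j
        = (Q * (σ g : M N)) i i * ((ρ g : M N)ᴴ * P) j j := by
      intro i j
      show (Q * (σ g : M N) * (Matrix.single i j 1 : M N) * ((ρ g : M N)ᴴ * P)) i j = _
      rw [Matrix.mul_apply, Finset.sum_eq_single j]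
      · rw [Matrix.mul_single_apply_same, mul_one]
      · intro b _ hb
        rw [Matrix.mul_single_apply_of_ne _ _ _ _ _ hb, zero_mul]
      · intro h; exact absurd (Finset.mem_univ _) h
    simp only [h1]
    rw [Matrix.trace, Matrix.trace, Finset.sum_mul_sum]
    rfl
  have hzero : ∫ g, (Q * (σ g : M N)).trace * (((ρ g : M N)ᴴ * P).trace) ∂μ = 0 := by
    simp only [hsum]
    rw [integral_finsetSum _ fun i _ => hint _ (continuous_finsetSum _ fun j _ => hFij _ _ _)]
    apply Finset.sum_eq_zero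
    intro i _
    rw [integral_finsetSum _ fun j _ => hint _ (hFij _ _ _)]
    apply Finset.sum_eq_zero
    intro j _
    have := congrFun (congrFun (hI0 (Matrix.single i j 1)) i) j
    rw [hIij] at this
    exact this
  have hsq : ∀ g, (Q * (σ g : M N)).trace * (((ρ g : M N)ᴴ * P).trace)
      = ((‖(P * (ρ g : M N)).trace‖ ^ 2 : ℝ) : ℂ) := by
    intro g
    have h1 : ((ρ g : M N)ᴴ * P).trace = star ((P * (ρ g : M N)).trace) := by
      rw [← Matrix.trace_conjTranspose, conjTranspose_mul, hPs]
    rw [h1, ← htr g, Complex.star_def, Complex.mul_conj, Complex.normSq_eq_norm_sq]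
  have hpos : 0 < ∫ g, ‖(P * (ρ g : M N)).trace‖ ^ 2 ∂μ := by
    have hc : Continuous fun g : G => ‖(P * (ρ g : M N)).trace‖ ^ 2 :=
      ((continuous_const.matrix_mul hρc).matrix_trace).norm.pow 2
    refine hc.integral_pos_of_hasCompactSupport_nonneg_nonzero
      (HasCompactSupport.of_compactSpace _) (fun g => by positivity) (x := 1) ?_
    have h1 : ((ρ 1 : Matrix.unitaryGroup (Fin N) ℂ) : M N) = 1 := by rw [map_one]; rfl
    rw [h1, Matrix.mul_one]
    intro h0
    apply hP0
    have h2 : P.trace = 0 := by simpa using h0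
    apply Matrix.trace_conjTranspose_mul_self_eq_zero_iff.mp
    rw [hPs, hPP, h2]
  simp only [hsq] at hzero
  have hz2 : ∫ g, ((‖(P * (ρ g : M N)).trace‖ ^ 2 : ℝ) : ℂ) ∂μ
      = ((∫ g, ‖(P * (ρ g : M N)).trace‖ ^ 2 ∂μ : ℝ) : ℂ) := integral_ofReal
  rw [hz2] at hzero
  have : (∫ g, ‖(P * (ρ g : M N)).trace‖ ^ 2 ∂μ) = 0 := by exact_mod_cast hzero
  exact absurd this hpos.ne'

/-- two continuous unitary representations of a compact group with the same character are
unitarily equivalent -/
theorem conj_of_char_eq (ρ σ : G →* Matrix.unitaryGroup (Fin N) ℂ) (hρ : Continuous ρ)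
    (hσ : Continuous σ) (htr : ∀ g, (ρ g : M N).trace = (σ g : M N).trace) :
    ∃ w : Matrix.unitaryGroup (Fin N) ℂ, ∀ g, σ g = w * ρ g * w⁻¹ := by
  classical
  let S : Set ℕ := {r | ∃ V : M N, IsInt ρ σ V ∧ V * Vᴴ * V = V ∧
    Module.finrank ℂ (LinearMap.ker V.mulVecLin) = r}
  have hS : S.Nonempty := ⟨_, 0, fun g => by rw [Matrix.zero_mul, Matrix.mul_zero], by simp, rfl⟩
  obtain ⟨V, hV, hVV, hr⟩ : sInf S ∈ S := Nat.sInf_mem hS
  set P : M N := 1 - Vᴴ * V with hPdef
  set Q : M N := 1 - V * Vᴴ with hQdef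
  have hVP : V * P = 0 := by rw [hPdef, Matrix.mul_sub, Matrix.mul_one, ← Matrix.mul_assoc, hVV, sub_self]
  have hQV : Q * V = 0 := by rw [hQdef, Matrix.sub_mul, Matrix.one_mul, hVV, sub_self]
  have hVQ : Vᴴ * Q = 0 := by
    have h1 : Qᴴ = Q := by
      rw [hQdef, conjTranspose_sub, conjTranspose_one, conjTranspose_mul, conjTranspose_conjTranspose]
    have := congrArg Matrix.conjTranspose hQV
    rw [conjTranspose_mul, h1, conjTranspose_zero] at this
    exact this
  by_cases hP0 : P = 0
  · have h1 : Vᴴ * V = 1 := by rw [hPdef, sub_eq_zero] at hP0; exact hP0.symm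
    have hmem : V ∈ Matrix.unitaryGroup (Fin N) ℂ := by
      rw [Matrix.mem_unitaryGroup_iff']; exact h1
    refine ⟨⟨V, hmem⟩, fun g => ?_⟩
    rw [eq_mul_inv_iff_mul_eq]
    apply Subtype.ext
    show (σ g : M N) * V = V * (ρ g : M N)
    exact (hV g).symm
  · exfalso
    have hPs : Pᴴ = P := by
      rw [hPdef, conjTranspose_sub, conjTranspose_one, conjTranspose_mul, conjTranspose_conjTranspose]
    have hPP : P * P = P := by
      conv_lhs => rw [hPdef, Matrix.sub_mul, Matrix.one_mul, ← hPdef, Matrix.mul_assoc, hVP,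
        Matrix.mul_zero, sub_zero]
    have hQQ : Q * Q = Q := by
      conv_lhs => rw [hQdef, Matrix.sub_mul, Matrix.one_mul, ← hQdef, Matrix.mul_assoc, hVQ,
        Matrix.mul_zero, sub_zero]
    have hPi : IsInt ρ ρ P := (isInt_one ρ).sub (hV.adj.mul hV)
    have hQi : IsInt σ σ Q := (isInt_one σ).sub (hV.mul hV.adj)
    obtain ⟨A, hA, hA0, hAP, hQA⟩ := exists_int ρ σ hρ hσ P Q hPi hQi hPP hPs hQQ hP0 (by
      intro g
      rw [hPdef, hQdef, Matrix.sub_mul, Matrix.sub_mul, Matrix.one_mul, Matrix.one_mul,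
        Matrix.trace_sub, Matrix.trace_sub, htr g]
      congr 1
      rw [Matrix.mul_assoc, hV g, ← Matrix.mul_assoc, Matrix.trace_mul_comm, ← Matrix.mul_assoc])
    obtain ⟨W, hW, hWW, hW0, hWP, hQW⟩ := exists_pi hA hA0 hPs hAP hQA
    have hPW : P * Wᴴ = Wᴴ := by
      have := congrArg Matrix.conjTranspose hWP
      rw [conjTranspose_mul, hPs] at this
      exact this
    have hVW : V * Wᴴ = 0 := by rw [← hPW, ← Matrix.mul_assoc, hVP, Matrix.zero_mul]
    have hVW' : Vᴴ * W = 0 := by rw [← hQW, ← Matrix.mul_assoc, hVQ, Matrix.zero_mul]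
    have hWV : W * Vᴴ = 0 := by
      have := congrArg Matrix.conjTranspose hVW
      rw [conjTranspose_mul, conjTranspose_conjTranspose, conjTranspose_zero] at this
      exact this
    have hWV' : Wᴴ * V = 0 := by
      have := congrArg Matrix.conjTranspose hVW'
      rw [conjTranspose_mul, conjTranspose_conjTranspose, conjTranspose_zero] at this
      exact this
    have hnew : (V + W) * (V + W)ᴴ * (V + W) = V + W := by
      have e1 : (V + W) * (V + W)ᴴ = V * Vᴴ + W * Wᴴ := by
        rw [conjTranspose_add, Matrix.mul_add, Matrix.add_mul, Matrix.add_mul, hVW, hWV]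
        simp
      rw [e1, Matrix.mul_add, Matrix.add_mul, Matrix.add_mul, hVV, hWW,
        Matrix.mul_assoc W, hWV', Matrix.mul_zero, Matrix.mul_assoc V, hVW', Matrix.mul_zero,
        add_zero, zero_add]
    have hmem : Module.finrank ℂ (LinearMap.ker (V + W).mulVecLin) ∈ S :=
      ⟨V + W, hV.add hW, hnew, rfl⟩
    have hle := Nat.sInf_le hmem
    have hlt : LinearMap.ker (V + W).mulVecLin < LinearMap.ker V.mulVecLin := by
      rw [SetLike.lt_iff_le_and_exists]
      constructor
      · intro x hx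
        rw [LinearMap.mem_ker, Matrix.mulVecLin_apply] at hx ⊢
        have h1 : V *ᵥ x = (V * Vᴴ * (V + W)) *ᵥ x := by
          rw [Matrix.mul_add, hVV, Matrix.mul_assoc V, hVW', Matrix.mul_zero, add_zero]
        rw [h1, ← Matrix.mulVec_mulVec, hx, Matrix.mulVec_zero]
      · by_contra hc
        push Not at hc
        apply hW0
        have h1 : W * (Wᴴ * W) = 0 := by
          apply Matrix.ext_of_mulVec_single
          intro i
          set y : Fin N → ℂ := (Wᴴ * W) *ᵥ Pi.single i 1 with hy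
          have hVy : y ∈ LinearMap.ker V.mulVecLin := by
            rw [LinearMap.mem_ker, Matrix.mulVecLin_apply, hy, Matrix.mulVec_mulVec,
              ← Matrix.mul_assoc, hVW, Matrix.zero_mul, Matrix.zero_mulVec]
          have h2 := hc y hVy
          rw [LinearMap.mem_ker, Matrix.mulVecLin_apply] at h2
          have h3 : V *ᵥ y = 0 := by
            rw [LinearMap.mem_ker, Matrix.mulVecLin_apply] at hVy; exact hVy
          rw [Matrix.add_mulVec, h3, zero_add, hy, Matrix.mulVec_mulVec] at h2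
          rw [h2, Matrix.zero_mulVec]
        rw [← hWW, Matrix.mul_assoc, h1]
    have := Submodule.finrank_lt_finrank_of_lt hlt
    omega

end haar

end Pool.Agent.Helper189.CharEq
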