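import Mathlib

/-! Congruence filtration in the unit group of a ring with a central element, and
faithful congruence representations of free groups. -/

namespace Pool.Agent.Helper189.Cong

open Matrix
open scoped commutatorElement

variable {A : Type*} [Ring A]

/-- Units congruent to 1 modulo `t ^ k`, where `t` is central. -/
def cong (t : A) (ht : ∀ a : A, t * a = a * t) (k : ℕ) : Subgroup Aˣ where
  carrier := {u | ∃ x : A, (u : A) = 1 + t ^ k * x}
  one_mem' := ⟨0, by simp⟩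
  mul_mem' := by
    rintro u v ⟨x, hx⟩ ⟨y, hy⟩
    refine ⟨x + y + x * (t ^ k * y), ?_⟩
    rw [Units.val_mul, hx, hy]
    noncomm_ring
  inv_mem' := by
    rintro u ⟨x, hx⟩
    refine ⟨-(x * ((u⁻¹ : Aˣ) : A)), ?_⟩
    have h1 : (u : A) * ((u⁻¹ : Aˣ) : A) = 1 := Units.mul_inv u
    rw [hx] at h1
    have h2 : ((u⁻¹ : Aˣ) : A) + t ^ k * x * ((u⁻¹ : Aˣ) : A) = 1 := by
      rw [← h1]; noncomm_ring
    calc ((u⁻¹ : Aˣ) : A) = (((u⁻¹ : Aˣ) : A) + t ^ k * x * ((u⁻¹ : Aˣ) : A))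
            - t ^ k * x * ((u⁻¹ : Aˣ) : A) := by noncomm_ring
      _ = 1 + t ^ k * -(x * ((u⁻¹ : Aˣ) : A)) := by rw [h2]; noncomm_ring

theorem mem_cong {t : A} {ht : ∀ a : A, t * a = a * t} {k : ℕ} {u : Aˣ} :
    u ∈ cong t ht k ↔ ∃ x : A, (u : A) = 1 + t ^ k * x := Iff.rfl

theorem pow_comm' {t : A} (ht : ∀ a : A, t * a = a * t) (k : ℕ) (a : A) :
    t ^ k * a = a * t ^ k := by
  have : Commute t a := ht a
  exact (this.pow_left k)

theorem commutator_mem {t : A} {ht : ∀ a : A, t * a = a * t} {i j : ℕ} {u v : Aˣ}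
    (hu : u ∈ cong t ht i) (hv : v ∈ cong t ht j) : ⁅u, v⁆ ∈ cong t ht (i + j) := by
  obtain ⟨x, hx⟩ := hu
  obtain ⟨y, hy⟩ := hv
  refine ⟨(x * y - y * x) * ((u⁻¹ : Aˣ) : A) * ((v⁻¹ : Aˣ) : A), ?_⟩
  have h1 : (u : A) * v - v * u = t ^ (i + j) * (x * y - y * x) := by
    rw [hx, hy]
    have e1 : x * t ^ j = t ^ j * x := (pow_comm' ht j x).symm
    have e2 : y * t ^ i = t ^ i * y := (pow_comm' ht i y).symm
    have e3 : t ^ j * t ^ i = t ^ i * t ^ j := by rw [← pow_add, ← pow_add, add_comm]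
    have e4 : t ^ (i + j) = t ^ i * t ^ j := pow_add _ _ _
    calc (1 + t ^ i * x) * (1 + t ^ j * y) - (1 + t ^ j * y) * (1 + t ^ i * x)
        = t ^ i * (x * t ^ j) * y - t ^ j * (y * t ^ i) * x := by noncomm_ring
      _ = t ^ (i + j) * (x * y - y * x) := by
          rw [e1, e2, e4, mul_sub]
          have : t ^ j * (t ^ i * y) * x = t ^ i * t ^ j * (y * x) := by
            rw [← mul_assoc, e3]; noncomm_ring
          rw [this]
          noncomm_ring
  have h2 : (u : A) * v * ((u⁻¹ : Aˣ) : A) * ((v⁻¹ : Aˣ) : A)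
      = 1 + (((u : A) * v - v * u)) * ((u⁻¹ : Aˣ) : A) * ((v⁻¹ : Aˣ) : A) := by
    have e : (v : A) * u * ((u⁻¹ : Aˣ) : A) * ((v⁻¹ : Aˣ) : A) = 1 := by
      rw [mul_assoc (v : A), Units.mul_inv, mul_one, Units.mul_inv]
    calc (u : A) * v * ((u⁻¹ : Aˣ) : A) * ((v⁻¹ : Aˣ) : A)
        = (v : A) * u * ((u⁻¹ : Aˣ) : A) * ((v⁻¹ : Aˣ) : A)
          + (((u : A) * v - v * u)) * ((u⁻¹ : Aˣ) : A) * ((v⁻¹ : Aˣ) : A) := by noncomm_ring
      _ = _ := by rw [e]
  rw [commutatorElement_def, Units.val_mul, Units.val_mul, Units.val_mul, h2, h1]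
  noncomm_ring

theorem cong_antitone {t : A} {ht : ∀ a : A, t * a = a * t} {i j : ℕ} (hij : i ≤ j) :
    cong t ht j ≤ cong t ht i := by
  rintro u ⟨x, hx⟩
  obtain ⟨c, rfl⟩ := Nat.exists_eq_add_of_le hij
  exact ⟨t ^ c * x, by rw [hx, pow_add, mul_assoc]⟩

instance cong_normal (t : A) (ht : ∀ a : A, t * a = a * t) (k : ℕ) : (cong t ht k).Normal where
  conj_mem := by
    rintro u ⟨x, hx⟩ g
    refine ⟨(g : A) * x * ((g⁻¹ : Aˣ) : A), ?_⟩
    rw [Units.val_mul, Units.val_mul, hx]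
    have e : (g : A) * t ^ k = t ^ k * g := (pow_comm' ht k g).symm
    calc (g : A) * (1 + t ^ k * x) * ((g⁻¹ : Aˣ) : A)
        = (g : A) * ((g⁻¹ : Aˣ) : A) + ((g : A) * t ^ k) * x * ((g⁻¹ : Aˣ) : A) := by noncomm_ring
      _ = 1 + t ^ k * ((g : A) * x * ((g⁻¹ : Aˣ) : A)) := by
          rw [e, Units.mul_inv]; noncomm_ring

/-- If a homomorphism lands in the first congruence subgroup, then the lower central series lands
in the higher ones. -/
theorem lcs_le {G : Type*} [Group G] {t : A} {ht : ∀ a : A, t * a = a * t} (f : G →* Aˣ)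
    (hf : ∀ g, f g ∈ cong t ht 1) (n : ℕ) :
    (⊤ : Subgroup G).lowerCentralSeries n ≤ (cong t ht (n + 1)).comap f := by
  induction n with
  | zero => intro g _; exact hf g
  | succ n ih =>
    rw [Subgroup.lowerCentralSeries_succ, Subgroup.commutator_le]
    intro a ha b _
    rw [Subgroup.mem_comap, map_commutatorElement]
    exact commutator_mem (ih ha) (hf b)

end Pool.Agent.Helper189.Cong
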