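import Mathlib

/-! A double of the free group of rank two, realised as a free-by-cyclic group. -/

namespace Pool.Agent.Helper189.DblP

open FreeGroup (of)

/-- The index set of the free basis of the kernel. -/
inductive S where
  | y0 : S
  | y1 : S
  | z (i : ℤ) : S
  | d (i : ℤ) : S

/-- The relator `a ^ 2 b a ^ (-1) b ^ (-1) a ^ (-1) b`. -/
def rel {G : Type*} [Group G] (a b : G) : G := a * a * b * a⁻¹ * b⁻¹ * a⁻¹ * b

theorem rel_map {G H : Type*} [Group G] [Group H] (f : G →* H) (a b : G) :
    f (rel a b) = rel (f a) (f b) := by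
  simp only [rel, map_mul, map_inv]

/-- The images of the basis under the automorphism. -/
def sig0 : S → FreeGroup S
  | S.y0 => of S.y1
  | S.y1 => of (S.d 0) * of (S.d 1) * of (S.z 2) * (of (S.d 1))⁻¹ * (of (S.z 1))⁻¹ *
      (of (S.d 0))⁻¹ * of (S.z 0) * (of S.y0)⁻¹ * of S.y1
  | S.z i => of (S.z (i + 1))
  | S.d i => of (S.d (i + 1))

/-- The images of the basis under the inverse of the automorphism. -/
def tau0 : S → FreeGroup S
  | S.y1 => of S.y0
  | S.y0 => of S.y0 * (of S.y1)⁻¹ * (of (S.d (-1)) * of (S.d 0) * of (S.z 1) * (of (S.d 0))⁻¹ *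
      (of (S.z 0))⁻¹ * (of (S.d (-1)))⁻¹ * of (S.z (-1)))
  | S.z i => of (S.z (i - 1))
  | S.d i => of (S.d (i - 1))

/-- The automorphism. -/
def sig : MulAut (FreeGroup S) :=
  MonoidHom.toMulEquiv (FreeGroup.lift sig0) (FreeGroup.lift tau0)
    (by
      ext s
      cases s with
      | y0 => simp [sig0, tau0]
      | y1 =>
        simp only [sig0, MonoidHom.comp_apply, FreeGroup.lift_apply_of, map_mul, map_inv,
          MonoidHom.id_apply]
        simp only [tau0]
        norm_num
        group
      | z i => simp [sig0, tau0]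
      | d i => simp [sig0, tau0])
    (by
      ext s
      cases s with
      | y0 =>
        simp only [tau0, MonoidHom.comp_apply, FreeGroup.lift_apply_of, map_mul, map_inv,
          MonoidHom.id_apply]
        simp only [sig0]
        norm_num
        group
      | y1 => simp [sig0, tau0]
      | z i => simp [sig0, tau0]
      | d i => simp [sig0, tau0])

theorem sig_of (s : S) : sig (of s) = sig0 s := by
  change FreeGroup.lift sig0 (of s) = _
  simp

/-- The action of the infinite cyclic group. -/
def act : Multiplicative ℤ →* MulAut (FreeGroup S) := zpowersHom (MulAut (FreeGroup S)) sig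

/-- The group: a free group extended by an infinite cyclic group. -/
abbrev P : Type := FreeGroup S ⋊[act] Multiplicative ℤ

/-- The four generators. -/
def px : P := SemidirectProduct.inr (Multiplicative.ofAdd 1)

def py : P := SemidirectProduct.inl (of S.y0)

def qx : P := SemidirectProduct.inl (of (S.d 0)) * px

def qy : P := SemidirectProduct.inl (of (S.z 0))

theorem conj_px (f : FreeGroup S) :
    px * SemidirectProduct.inl f * px⁻¹ = SemidirectProduct.inl (sig f) := by
  rw [px, ← map_inv, ← SemidirectProduct.inl_aut]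
  simp [act, zpowersHom_apply]

theorem conj_px_inv (f : FreeGroup S) :
    px * (SemidirectProduct.inl f)⁻¹ * px⁻¹ = SemidirectProduct.inl (sig f)⁻¹ := by
  rw [← map_inv, conj_px, map_inv]

theorem px_mul (f : FreeGroup S) :
    px * SemidirectProduct.inl f = SemidirectProduct.inl (sig f) * px := by
  rw [← conj_px]; group

theorem rel_eq : rel px py = rel qx qy := by
  have h1 : rel px py = (px * (px * py * px⁻¹) * px⁻¹) * (px * py⁻¹ * px⁻¹) * py := by
    simp only [rel]; group
  have h2 : rel qx qy = SemidirectProduct.inl (of (S.d 0)) *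
      (px * SemidirectProduct.inl (of (S.d 0)) * px⁻¹) *
      (px * (px * SemidirectProduct.inl (of (S.z 0)) * px⁻¹) * px⁻¹) *
      (px * (SemidirectProduct.inl (of (S.d 0)))⁻¹ * px⁻¹) *
      (px * (SemidirectProduct.inl (of (S.z 0)))⁻¹ * px⁻¹) *
      (SemidirectProduct.inl (of (S.d 0)))⁻¹ * SemidirectProduct.inl (of (S.z 0)) := by
    simp only [rel, qx, qy]; group
  rw [h1, h2, py]
  simp only [conj_px, conj_px_inv, sig_of, sig0, zero_add]
  norm_num

section Lift

variable {Q : Type*} [Group Q]

/-- The images of the basis. -/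
def f0 (a b a' b' : Q) : S → Q
  | S.y0 => b
  | S.y1 => a * b * a⁻¹
  | S.z i => a ^ i * b' * a ^ (-i)
  | S.d i => a ^ i * (a' * a⁻¹) * a ^ (-i)

theorem f0_sig (a b a' b' : Q) (h : rel a b = rel a' b') (f : FreeGroup S) :
    FreeGroup.lift (f0 a b a' b') (sig f) = a * FreeGroup.lift (f0 a b a' b') f * a⁻¹ := by
  have key : (FreeGroup.lift (f0 a b a' b')).comp sig.toMonoidHom =
      (MulAut.conj a).toMonoidHom.comp (FreeGroup.lift (f0 a b a' b')) := by
    ext s
    simp only [MonoidHom.comp_apply, MulEquiv.coe_toMonoidHom, sig_of, MulAut.conj_apply,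
      FreeGroup.lift_apply_of]
    cases s with
    | y0 => simp [sig0, f0]
    | y1 =>
      simp only [sig0, map_mul, map_inv, FreeGroup.lift_apply_of]
      simp only [f0]
      have e : rel a' b' * b⁻¹ * (a * b * a⁻¹) = a * (a * b * a⁻¹) * a⁻¹ := by
        rw [← h, rel]; group
      rw [← e, rel]
      group
    | z i =>
      simp only [sig0, FreeGroup.lift_apply_of]
      simp only [f0]
      rw [add_comm i 1, zpow_add, zpow_one, neg_add, add_comm (-1 : ℤ) (-i), zpow_add,
        zpow_neg_one]
      group
    | d i =>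
      simp only [sig0, FreeGroup.lift_apply_of]
      simp only [f0]
      rw [add_comm i 1, zpow_add, zpow_one, neg_add, add_comm (-1 : ℤ) (-i), zpow_add,
        zpow_neg_one]
      group
  exact DFunLike.congr_fun key f

/-- The universal property of the double. -/
def lift (a b a' b' : Q) (h : rel a b = rel a' b') : P →* Q :=
  SemidirectProduct.lift (FreeGroup.lift (f0 a b a' b')) (zpowersHom Q a) (by
    intro g
    induction g using Multiplicative.rec with | _ n =>
    have h1 : ∀ (k : ℕ) (f : FreeGroup S), FreeGroup.lift (f0 a b a' b') ((sig ^ k) f) =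
        a ^ k * FreeGroup.lift (f0 a b a' b') f * (a ^ k)⁻¹ := by
      intro k
      induction k with
      | zero => intro f; simp
      | succ k ih =>
        intro f
        rw [pow_succ', MulAut.mul_apply, f0_sig _ _ _ _ h, ih, pow_succ']
        group
    ext s
    simp only [MonoidHom.comp_apply, MulEquiv.coe_toMonoidHom, act, zpowersHom_apply,
      toAdd_ofAdd, MulAut.conj_apply]
    cases n with
    | ofNat k => simpa using h1 k (of s)
    | negSucc k =>
      have h2 := h1 (k + 1) ((sig ^ (Int.negSucc k)) (of s))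
      rw [← zpow_natCast sig, ← MulAut.mul_apply, ← zpow_add] at h2
      have e : ((k + 1 : ℕ) : ℤ) + Int.negSucc k = 0 := by
        rw [Int.negSucc_eq]; push_cast; ring
      rw [e, zpow_zero, MulAut.one_apply] at h2
      rw [h2, zpow_negSucc a]
      group)

variable (a b a' b' : Q) (h : rel a b = rel a' b')

theorem lift_px : lift a b a' b' h px = a := by
  simp [lift, px, zpowersHom_apply]

theorem lift_py : lift a b a' b' h py = b := by
  simp [lift, py, f0]

theorem lift_qx : lift a b a' b' h qx = a' := by
  rw [qx, map_mul, lift_px]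
  simp [lift, f0]

theorem lift_qy : lift a b a' b' h qy = b' := by
  simp [lift, qy, f0]

end Lift

theorem sig_zpow_z (i : ℤ) : ((px ^ i : P)) * qy * (px ^ i)⁻¹ = SemidirectProduct.inl (of (S.z i)) := by
  induction i using Int.induction_on with
  | zero => simp [qy]
  | succ i ih =>
    have e : px ^ ((i : ℤ) + 1) * qy * (px ^ ((i : ℤ) + 1))⁻¹
        = px * (px ^ (i : ℤ) * qy * (px ^ (i : ℤ))⁻¹) * px⁻¹ := by
      rw [add_comm, zpow_add, zpow_one]; group
    rw [e, ih, conj_px, sig_of, sig0]
  | pred i ih =>
    have e : px ^ (-(i : ℤ)) * qy * (px ^ (-(i : ℤ)))⁻¹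
        = px * (px ^ (-(i : ℤ) - 1) * qy * (px ^ (-(i : ℤ) - 1))⁻¹) * px⁻¹ := by
      have : -(i : ℤ) = 1 + (-(i : ℤ) - 1) := by ring
      conv_lhs => rw [this, zpow_add, zpow_one]
      group
    have h2 : px * SemidirectProduct.inl (of (S.z (-(i : ℤ) - 1))) * px⁻¹ =
        SemidirectProduct.inl (of (S.z (-(i : ℤ)))) := by
      rw [conj_px, sig_of, sig0]
      congr 3
      ring
    rw [ih, ← h2] at e
    exact (mul_left_cancel (mul_right_cancel e)).symm

theorem sig_zpow_d (i : ℤ) : ((px ^ i : P)) * (qx * px⁻¹) * (px ^ i)⁻¹ =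
    SemidirectProduct.inl (of (S.d i)) := by
  have h0 : qx * px⁻¹ = SemidirectProduct.inl (of (S.d 0)) := by rw [qx]; group
  rw [h0]
  induction i using Int.induction_on with
  | zero => simp
  | succ i ih =>
    have e : px ^ ((i : ℤ) + 1) * SemidirectProduct.inl (of (S.d 0)) * (px ^ ((i : ℤ) + 1))⁻¹
        = px * (px ^ (i : ℤ) * SemidirectProduct.inl (of (S.d 0)) * (px ^ (i : ℤ))⁻¹) * px⁻¹ := by
      rw [add_comm, zpow_add, zpow_one]; group
    rw [e, ih, conj_px, sig_of, sig0]
  | pred i ih =>
    have e : px ^ (-(i : ℤ)) * SemidirectProduct.inl (of (S.d 0)) * (px ^ (-(i : ℤ)))⁻¹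
        = px * (px ^ (-(i : ℤ) - 1) * SemidirectProduct.inl (of (S.d 0)) *
          (px ^ (-(i : ℤ) - 1))⁻¹) * px⁻¹ := by
      have : -(i : ℤ) = 1 + (-(i : ℤ) - 1) := by ring
      conv_lhs => rw [this, zpow_add, zpow_one]
      group
    have h2 : px * SemidirectProduct.inl (of (S.d (-(i : ℤ) - 1))) * px⁻¹ =
        SemidirectProduct.inl (of (S.d (-(i : ℤ)))) := by
      rw [conj_px, sig_of, sig0]
      congr 3
      ring
    rw [ih, ← h2] at e
    exact (mul_left_cancel (mul_right_cancel e)).symm

theorem closure_gens : Subgroup.closure {px, py, qx, qy} = (⊤ : Subgroup P) := by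
  rw [eq_top_iff]
  intro w _
  set C := Subgroup.closure ({px, py, qx, qy} : Set P) with hC
  have hpx : px ∈ C := Subgroup.subset_closure (by simp)
  have hpy : py ∈ C := Subgroup.subset_closure (by simp)
  have hqx : qx ∈ C := Subgroup.subset_closure (by simp)
  have hqy : qy ∈ C := Subgroup.subset_closure (by simp)
  have hl : ∀ f : FreeGroup S, SemidirectProduct.inl f ∈ C := by
    intro f
    have : f ∈ C.comap (SemidirectProduct.inl : FreeGroup S →* P) := by
      have h1 : Subgroup.closure (Set.range (of : S → FreeGroup S)) ≤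
          C.comap (SemidirectProduct.inl : FreeGroup S →* P) := by
        rw [Subgroup.closure_le]
        rintro _ ⟨s, rfl⟩
        change SemidirectProduct.inl (of s) ∈ C
        cases s with
        | y0 => exact hpy
        | y1 =>
          have : SemidirectProduct.inl (of S.y1) = px * py * px⁻¹ := by
            rw [py, conj_px, sig_of, sig0]
          rw [this]
          exact mul_mem (mul_mem hpx hpy) (inv_mem hpx)
        | z i =>
          rw [← sig_zpow_z]
          exact mul_mem (mul_mem (zpow_mem hpx i) hqy) (inv_mem (zpow_mem hpx i))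
        | d i =>
          rw [← sig_zpow_d]
          exact mul_mem (mul_mem (zpow_mem hpx i) (mul_mem hqx (inv_mem hpx)))
            (inv_mem (zpow_mem hpx i))
      rw [FreeGroup.closure_range_of] at h1
      exact h1 trivial
    exact this
  have hr : ∀ g : Multiplicative ℤ, SemidirectProduct.inr g ∈ C := by
    intro g
    induction g using Multiplicative.rec with | _ n =>
    have : (SemidirectProduct.inr (Multiplicative.ofAdd n) : P) = px ^ n := by
      rw [px, ← map_zpow]
      congr 1
      rw [← ofAdd_zsmul]; simp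
    rw [this]
    exact zpow_mem hpx n
  have := SemidirectProduct.inl_left_mul_inr_right w
  rw [← this]
  exact mul_mem (hl _) (hr _)

end Pool.Agent.Helper189.DblP
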