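import Mathlib
import Pool.Agent.Helper189.Cong

/-! A faithful representation of the free group on the integers by 2 by 2 matrices over the
polynomial ring, congruent to 1 modulo the variable. -/

namespace Pool.Agent.Helper189.FreeRep

open Matrix Polynomial
open scoped commutatorElement Pointwise
open Pool.Agent.Helper189.Cong

section Defs

variable {R : Type*} [CommRing R]

/-- Upper unipotent matrices. -/
def up (a : R) : (Matrix (Fin 2) (Fin 2) R)ˣ where
  val := !![1, a; 0, 1]
  inv := !![1, -a; 0, 1]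
  val_inv := by
    ext i j; fin_cases i <;> fin_cases j <;> simp
  inv_val := by
    ext i j; fin_cases i <;> fin_cases j <;> simp

/-- Lower unipotent matrices. -/
def lo (a : R) : (Matrix (Fin 2) (Fin 2) R)ˣ where
  val := !![1, 0; a, 1]
  inv := !![1, 0; -a, 1]
  val_inv := by
    ext i j; fin_cases i <;> fin_cases j <;> simp
  inv_val := by
    ext i j; fin_cases i <;> fin_cases j <;> simp

theorem lo_add (a b : R) : lo (a + b) = lo a * lo b := by
  ext i j; fin_cases i <;> fin_cases j <;> simp [lo]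

theorem lo_zero : lo (0 : R) = 1 := by
  ext i j; fin_cases i <;> fin_cases j <;> simp [lo]

theorem lo_neg (a : R) : lo (-a) = (lo a)⁻¹ := by
  rw [eq_inv_iff_mul_eq_one, ← lo_add, neg_add_cancel, lo_zero]

theorem lo_zpow (a : R) (n : ℤ) : lo a ^ n = lo ((n : R) * a) := by
  have hnat : ∀ k : ℕ, lo a ^ k = lo ((k : R) * a) := by
    intro k
    induction k with
    | zero => simp [lo_zero]
    | succ k ih => rw [pow_succ, ih, ← lo_add]; congr 1; push_cast; ring
  cases n with
  | ofNat k => simpa using hnat k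
  | negSucc k =>
    rw [zpow_negSucc, hnat, ← lo_neg]
    congr 1; push_cast; ring

/-- The matrices `U ^ i * L * U ^ (-i)`. -/
def gen (t : R) (i : ℤ) : (Matrix (Fin 2) (Fin 2) R)ˣ :=
  up ((i : R) * t) * lo t * (up ((i : R) * t))⁻¹

/-- The representation. -/
def rep (t : R) : FreeGroup ℤ →* (Matrix (Fin 2) (Fin 2) R)ˣ := FreeGroup.lift (gen t)

theorem gen_zpow (t : R) (i n : ℤ) :
    gen t i ^ n = up ((i : R) * t) * lo ((n : R) * t) * (up ((i : R) * t))⁻¹ := by
  rw [gen, conj_zpow, lo_zpow]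

theorem up_smul (a : R) (v : Fin 2 → R) : (up a) • v = ![v 0 + a * v 1, v 1] := by
  ext i
  fin_cases i <;> simp [up, Units.smul_def, Matrix.smul_eq_mulVec, Matrix.mulVec, dotProduct,
    Fin.sum_univ_two]

theorem up_inv_smul (a : R) (v : Fin 2 → R) : (up a)⁻¹ • v = ![v 0 - a * v 1, v 1] := by
  rw [inv_smul_eq_iff, up_smul]
  ext i
  fin_cases i <;> simp

theorem lo_smul (a : R) (v : Fin 2 → R) : (lo a) • v = ![v 0, a * v 0 + v 1] := by
  ext i
  fin_cases i <;> simp [lo, Units.smul_def, Matrix.smul_eq_mulVec, Matrix.mulVec, dotProduct,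
    Fin.sum_univ_two]

theorem gen_zpow_smul (t : R) (i n : ℤ) (v : Fin 2 → R) :
    gen t i ^ n • v =
      ![(v 0 - i * t * v 1) + i * t * (n * t * (v 0 - i * t * v 1) + v 1),
        n * t * (v 0 - i * t * v 1) + v 1] := by
  rw [gen_zpow, mul_smul, mul_smul, up_inv_smul, lo_smul, up_smul]
  simp

end Defs

/-- Ping-pong sets. -/
def pset (i : ℤ) : Set (Fin 2 → ℤ) := {v | |v 0 - 2 * i * v 1| < |v 1|}

theorem pset_nonempty (i : ℤ) : (pset i).Nonempty := ⟨![2 * i, 1], by simp [pset]⟩

theorem pset_disjoint {i j : ℤ} (hij : i ≠ j) : Disjoint (pset i) (pset j) := by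
  rw [Set.disjoint_left]
  intro v hi hj
  simp only [pset, Set.mem_ofPred_eq] at hi hj
  have h1 : |2 * (i - j) * v 1| < 2 * |v 1| := by
    have : 2 * (i - j) * v 1 = (v 0 - 2 * j * v 1) - (v 0 - 2 * i * v 1) := by ring
    rw [this]
    calc |(v 0 - 2 * j * v 1) - (v 0 - 2 * i * v 1)|
        ≤ |v 0 - 2 * j * v 1| + |v 0 - 2 * i * v 1| := abs_sub _ _
      _ < 2 * |v 1| := by linarith
  rw [abs_mul, abs_mul] at h1
  have h2 : (1 : ℤ) ≤ |i - j| := Int.one_le_abs (sub_ne_zero.mpr hij)
  have h3 : |(2 : ℤ)| = 2 := by norm_num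
  rw [h3] at h1
  nlinarith [abs_nonneg (v 1)]

theorem pset_map {i j n : ℤ} (hij : i ≠ j) (hn : n ≠ 0) :
    gen (2 : ℤ) i ^ n • pset j ⊆ pset i := by
  rintro _ ⟨v, hv, rfl⟩
  simp only [pset, Set.mem_ofPred_eq] at hv ⊢
  change |(gen (2 : ℤ) i ^ n • v) 0 - 2 * i * (gen (2 : ℤ) i ^ n • v) 1| <
    |(gen (2 : ℤ) i ^ n • v) 1|
  rw [gen_zpow_smul]
  simp only [Matrix.cons_val_zero, Matrix.cons_val_one, Int.cast_id]
  set y := v 1 with hy
  set x := v 0 - i * 2 * y with hx
  have e1 : x + i * 2 * (n * 2 * x + y) - 2 * i * (n * 2 * x + y) = x := by ring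
  rw [e1]
  -- |x| > |y|
  have h2 : (1 : ℤ) ≤ |i - j| := Int.one_le_abs (sub_ne_zero.mpr hij)
  have h3 : |y| < |x| := by
    have e : 2 * (i - j) * y = (v 0 - 2 * j * y) - x := by rw [hx]; ring
    have h4 : |2 * (i - j) * y| ≤ |v 0 - 2 * j * y| + |x| := by rw [e]; exact abs_sub _ _
    rw [abs_mul, abs_mul] at h4
    have h5 : |(2 : ℤ)| = 2 := by norm_num
    rw [h5] at h4
    nlinarith [abs_nonneg y]
  have h6 : |n * 2 * x| ≤ |n * 2 * x + y| + |y| := by
    have : n * 2 * x = (n * 2 * x + y) - y := by ring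
    calc |n * 2 * x| = |(n * 2 * x + y) - y| := by rw [← this]
      _ ≤ _ := abs_sub _ _
  have h7 : 2 * |x| ≤ |n * 2 * x| := by
    rw [abs_mul, abs_mul]
    have h8 : (1 : ℤ) ≤ |n| := Int.one_le_abs hn
    have h9 : |(2 : ℤ)| = 2 := by norm_num
    rw [h9]
    nlinarith [abs_nonneg x]
  linarith

open Monoid in
theorem rep_two_injective : Function.Injective (rep (2 : ℤ)) := by
  have key : rep (2 : ℤ) =
      (CoprodI.lift fun i : ℤ => FreeGroup.lift fun _ : Unit => gen (2 : ℤ) i).comp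
        (@freeGroupEquivCoprodI ℤ).toMonoidHom := by
    ext i
    simp [rep]
  rw [key, MonoidHom.coe_comp]
  refine Function.Injective.comp ?_ (MulEquiv.injective freeGroupEquivCoprodI)
  apply CoprodI.lift_injective_of_ping_pong _ _ pset pset_nonempty
  · intro i j hij
    exact pset_disjoint hij
  · intro i j hij
    refine FreeGroup.freeGroupUnitEquivInt.forall_congr_left.mpr ?_
    intro n hne1
    change FreeGroup.lift (fun _ => gen (2 : ℤ) i) (FreeGroup.of () ^ n) • pset j ⊆ pset i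
    simp only [map_zpow, FreeGroup.lift_apply_of]
    have hnne0 : n ≠ 0 := by
      rintro rfl
      apply hne1
      simp [FreeGroup.freeGroupUnitEquivInt]
    exact pset_map hij hnne0
  · right
    use 0
    rw [FreeGroup.freeGroupUnitEquivInt.cardinal_eq, Cardinal.mk_denumerable]
    exact Cardinal.natCast_le_aleph0

theorem map_up {R S : Type*} [CommRing R] [CommRing S] (f : R →+* S) (a : R) :
    Units.map (RingHom.toMonoidHom (RingHom.mapMatrix (m := Fin 2) f)) (up a)
      = up (f a) := by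
  ext i j; fin_cases i <;> fin_cases j <;> simp [up]

theorem map_lo {R S : Type*} [CommRing R] [CommRing S] (f : R →+* S) (a : R) :
    Units.map (RingHom.toMonoidHom (RingHom.mapMatrix (m := Fin 2) f)) (lo a)
      = lo (f a) := by
  ext i j; fin_cases i <;> fin_cases j <;> simp [lo]

theorem map_rep {R S : Type*} [CommRing R] [CommRing S] (f : R →+* S) (t : R) :
    (Units.map (RingHom.toMonoidHom (RingHom.mapMatrix (m := Fin 2) f))).comp (rep t)
      = rep (f t) := by
  apply FreeGroup.ext_hom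
  intro i
  simp only [MonoidHom.comp_apply, rep, FreeGroup.lift_apply_of, gen, map_mul, map_inv, map_up,
    map_lo, map_intCast]

theorem rep_X_injective : Function.Injective (rep (X : ℤ[X])) := by
  have h := rep_two_injective
  rw [show (2 : ℤ) = (Polynomial.evalRingHom (2 : ℤ)) X by simp, ← map_rep, MonoidHom.coe_comp] at h
  exact Function.Injective.of_comp h

/-- The scalar matrix of the variable. -/
noncomputable def T : Matrix (Fin 2) (Fin 2) ℤ[X] := Matrix.scalar (Fin 2) X

theorem T_comm (a : Matrix (Fin 2) (Fin 2) ℤ[X]) : T * a = a * T :=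
  (Matrix.scalar_commute X (fun _ => Commute.all _ _) a)

theorem T_pow_mul (k : ℕ) (a : Matrix (Fin 2) (Fin 2) ℤ[X]) : T ^ k * a = (X ^ k : ℤ[X]) • a := by
  rw [T, ← map_pow]
  simp [Matrix.scalar_apply, Matrix.smul_eq_diagonal_mul]

theorem up_mem (a : ℤ[X]) : up (a * X) ∈ cong T T_comm 1 := by
  refine ⟨!![0, a; 0, 0], ?_⟩
  rw [T_pow_mul]
  ext i j; fin_cases i <;> fin_cases j <;> simp [up, mul_comm]

theorem lo_mem (a : ℤ[X]) : lo (a * X) ∈ cong T T_comm 1 := by
  refine ⟨!![0, 0; a, 0], ?_⟩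
  rw [T_pow_mul]
  ext i j; fin_cases i <;> fin_cases j <;> simp [lo, mul_comm]

theorem rep_mem (g : FreeGroup ℤ) : rep (X : ℤ[X]) g ∈ cong T T_comm 1 := by
  have : (cong T T_comm 1).comap (rep (X : ℤ[X])) = ⊤ := by
    rw [eq_top_iff, ← FreeGroup.closure_range_of, Subgroup.closure_le]
    rintro _ ⟨i, rfl⟩
    simp only [SetLike.mem_coe, Subgroup.mem_comap, rep, FreeGroup.lift_apply_of, gen]
    refine mul_mem (mul_mem (up_mem _) ?_) (inv_mem (up_mem _))
    simpa using lo_mem 1
  have h : g ∈ (cong T T_comm 1).comap (rep (X : ℤ[X])) := by rw [this]; trivial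
  exact h

theorem eq_one_of_forall_mem {u : (Matrix (Fin 2) (Fin 2) ℤ[X])ˣ}
    (h : ∀ k, u ∈ cong T T_comm k) : u = 1 := by
  ext i j : 2
  have hz : (u : Matrix (Fin 2) (Fin 2) ℤ[X]) i j - (1 : Matrix (Fin 2) (Fin 2) ℤ[X]) i j = 0 := by
    set p := (u : Matrix (Fin 2) (Fin 2) ℤ[X]) i j - (1 : Matrix (Fin 2) (Fin 2) ℤ[X]) i j with hp
    have hd : ∀ k, (X ^ k : ℤ[X]) ∣ p := by
      intro k
      obtain ⟨x, hx⟩ := h k
      refine ⟨x i j, ?_⟩
      rw [hp, hx, T_pow_mul]
      simp
    ext n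
    have := (Polynomial.X_pow_dvd_iff.mp (hd (n + 1))) n (Nat.lt_succ_self n)
    simpa using this
  have := sub_eq_zero.mp hz
  rw [this]
  simp

/-- Free groups on the integers are residually nilpotent. -/
theorem lcs_bot_int {g : FreeGroup ℤ} (h : ∀ n, g ∈ (⊤ : Subgroup (FreeGroup ℤ)).lowerCentralSeries n) :
    g = 1 := by
  apply rep_X_injective
  rw [map_one]
  apply eq_one_of_forall_mem
  intro k
  exact cong_antitone (Nat.le_succ k) (lcs_le (rep (X : ℤ[X])) rep_mem k (h k))

/-- Free groups of countable rank are residually nilpotent. -/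
theorem lcs_bot {ι : Type*} [Countable ι] {g : FreeGroup ι}
    (h : ∀ n, g ∈ (⊤ : Subgroup (FreeGroup ι)).lowerCentralSeries n) : g = 1 := by
  obtain ⟨f, hf⟩ := exists_injective_nat ι
  have hinj : Function.Injective (fun i => (f i : ℤ)) := fun a b hab => hf (by simpa using hab)
  apply FreeGroup.map_injective hinj
  rw [map_one]
  apply lcs_bot_int
  intro n
  have := Subgroup.mem_map_of_mem (FreeGroup.map (fun i => (f i : ℤ))) (h n)
  rw [Subgroup.map_lowerCentralSeries] at this
  exact Subgroup.lowerCentralSeries_mono n le_top this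

end Pool.Agent.Helper189.FreeRep
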