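import Mathlib
import Pool.Agent.Helper189.FreeRep

/-! Facts on the derived series of a free group. -/

namespace Pool.Agent.Helper189.DerFree

open scoped commutatorElement

universe u

/-- The abelianization of a free group has no torsion. -/
theorem mem_commutator_of_pow_mem {G : Type u} [Group G] [IsFreeGroup G] {g : G} {k : ℕ}
    (hk : k ≠ 0) (h : g ^ k ∈ commutator G) : g ∈ commutator G := by
  let e := IsFreeGroup.toFreeGroup G
  let X := IsFreeGroup.Generators G
  let φ : G →* Multiplicative (X →₀ ℤ) :=
    (AddMonoidHom.toMultiplicative (FreeAbelianGroup.toFinsupp (X := X))).comp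
      ((Abelianization.of (G := FreeGroup X)).comp e.toMonoidHom)
  have hker : ∀ x : G, φ x = 1 → x ∈ commutator G := by
    intro x hx
    let a : FreeAbelianGroup X := Additive.ofMul (Abelianization.of (e x))
    have h1 : FreeAbelianGroup.equivFinsupp X a = 0 := hx
    have h2 : a = 0 := (FreeAbelianGroup.equivFinsupp X).injective (h1.trans (map_zero _).symm)
    have h3 : Abelianization.of (e x) = 1 := h2
    have h4 : e x ∈ commutator (FreeGroup X) := by
      rw [← Abelianization.ker_of, MonoidHom.mem_ker]; exact h3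
    have h5 : (commutator G).map e.toMonoidHom = commutator (FreeGroup X) := by
      rw [← derivedSeries_one, ← derivedSeries_one]
      exact map_derivedSeries_eq (f := e.toMonoidHom) e.surjective 1
    rw [← h5] at h4
    obtain ⟨y, hy, hye⟩ := h4
    have : y = x := e.injective hye
    rwa [← this]
  apply hker
  have h1 : φ (g ^ k) = 1 := by
    have : commutator G ≤ φ.ker := Abelianization.commutator_subset_ker φ
    exact this h
  rw [map_pow] at h1
  have h2 : (k : ℕ) • Multiplicative.toAdd (φ g) = 0 := h1
  have h3 : Multiplicative.toAdd (φ g) = 0 := by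
    ext x
    have := congrArg (fun f : X →₀ ℤ => f x) h2
    simpa [hk] using this
  exact h3

theorem derivedSeries_succ_eq_map {G : Type u} [Group G] (n : ℕ) :
    derivedSeries G (n + 1) = (commutator (derivedSeries G n)).map (derivedSeries G n).subtype := by
  rw [derivedSeries_succ, commutator_def, Subgroup.map_commutator, ← MonoidHom.range_eq_map,
    Subgroup.range_subtype]

/-- The quotients of a free group by the terms of the derived series have no torsion. -/
theorem mem_derivedSeries_of_pow_mem {G : Type u} [Group G] [IsFreeGroup G] {g : G} {k : ℕ}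
    (hk : k ≠ 0) (n : ℕ) (h : g ^ k ∈ derivedSeries G n) : g ∈ derivedSeries G n := by
  induction n with
  | zero => simp
  | succ n ih =>
    have h1 : g ^ k ∈ derivedSeries G n := derivedSeries_antitone G (Nat.le_succ n) h
    have h2 : g ∈ derivedSeries G n := ih h1
    rw [derivedSeries_succ_eq_map] at h ⊢
    obtain ⟨y, hy, hyg⟩ := h
    refine ⟨⟨g, h2⟩, ?_, rfl⟩
    have h3 : y = (⟨g, h2⟩ : derivedSeries G n) ^ k := Subtype.ext (by simpa using hyg)
    rw [h3] at hy
    exact mem_commutator_of_pow_mem hk hy

/-- Commuting elements of a free group are powers of a common element. -/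
theorem exists_root {G : Type u} [Group G] [IsFreeGroup G] {b c : G} (h : Commute b c) :
    ∃ r : G, ∃ i j : ℤ, b = r ^ i ∧ c = r ^ j := by
  let H : Subgroup G := Subgroup.closure {b, c}
  have hb : b ∈ H := Subgroup.subset_closure (by simp)
  have hc : c ∈ H := Subgroup.subset_closure (by simp)
  have hcomm : ∀ x ∈ ({b, c} : Set G), ∀ y ∈ ({b, c} : Set G), x * y = y * x := by
    rintro x (rfl | rfl) y (rfl | rfl)
    · rfl
    · exact h
    · exact h.symm
    · rfl
  have hH : ∀ x y : H, x * y = y * x := by
    intro x y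
    have := (Subgroup.isMulCommutative_closure hcomm).is_comm.comm x y
    exact this
  let Y := IsFreeGroup.Generators H
  let e : H ≃* FreeGroup Y := IsFreeGroup.toFreeGroup H
  have hsub : Subsingleton Y := by
    constructor
    intro x y
    by_contra hxy
    have h1 : (FreeGroup.of x : FreeGroup Y) * FreeGroup.of y
        = FreeGroup.of y * FreeGroup.of x := by
      apply e.symm.injective
      rw [map_mul, map_mul, hH]
    classical
    have h2 := congrArg FreeGroup.toWord h1
    simp only [FreeGroup.toWord_mul, FreeGroup.toWord_of] at h2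
    have h3 : FreeGroup.reduce ([(x, true)] ++ [(y, true)]) = [(x, true), (y, true)] := by
      simp [FreeGroup.reduce, hxy]
    have h4 : FreeGroup.reduce ([(y, true)] ++ [(x, true)]) = [(y, true), (x, true)] := by
      simp [FreeGroup.reduce]
    rw [h3, h4] at h2
    simp at h2
    exact hxy h2.1
  have hcyc : ∃ r : FreeGroup Y, ∀ z : FreeGroup Y, ∃ i : ℤ, z = r ^ i := by
    rcases isEmpty_or_nonempty Y with hY | ⟨⟨y⟩⟩
    · exact ⟨1, fun z => ⟨0, Subsingleton.elim _ _⟩⟩
    · refine ⟨FreeGroup.of y, fun z => ?_⟩
      have hz : z ∈ Subgroup.closure (Set.range (FreeGroup.of : Y → FreeGroup Y)) := by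
        rw [FreeGroup.closure_range_of]; trivial
      have hr : Set.range (FreeGroup.of : Y → FreeGroup Y) = {FreeGroup.of y} := by
        ext w
        constructor
        · rintro ⟨y', rfl⟩
          rw [Subsingleton.elim y' y]; rfl
        · rintro rfl
          exact ⟨y, rfl⟩
      rw [hr] at hz
      obtain ⟨i, hi⟩ := Subgroup.mem_closure_singleton.mp hz
      exact ⟨i, hi.symm⟩
  obtain ⟨r, hr⟩ := hcyc
  obtain ⟨i, hi⟩ := hr (e ⟨b, hb⟩)
  obtain ⟨j, hj⟩ := hr (e ⟨c, hc⟩)
  refine ⟨((e.symm r : H) : G), i, j, ?_, ?_⟩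
  · have : (⟨b, hb⟩ : H) = (e.symm r) ^ i := by
      apply e.injective; rw [hi, map_zpow, MulEquiv.apply_symm_apply]
    have h2 := congrArg (Subtype.val) this
    simpa using h2
  · have : (⟨c, hc⟩ : H) = (e.symm r) ^ j := by
      apply e.injective; rw [hj, map_zpow, MulEquiv.apply_symm_apply]
    have h2 := congrArg (Subtype.val) this
    simpa using h2

/-- Centralizers of elements outside a derived subgroup meet it trivially. -/
theorem eq_one_of_commute {G : Type u} [Group G] [IsFreeGroup G] {b c : G} (n : ℕ)
    (hb : b ∉ derivedSeries G n) (hc : c ∈ derivedSeries G n) (h : Commute b c) : c = 1 := by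
  obtain ⟨r, i, j, hbi, hcj⟩ := exists_root h
  by_cases hj : j = 0
  · rw [hcj, hj, zpow_zero]
  · exfalso
    apply hb
    have h1 : r ^ j.natAbs ∈ derivedSeries G n := by
      rcases Int.natAbs_eq j with h2 | h2
      · rw [← zpow_natCast, ← h2, ← hcj]; exact hc
      · have h3 : r ^ ((j.natAbs : ℤ)) = c⁻¹ := by
          rw [hcj, ← zpow_neg]; congr 1; omega
        rw [← zpow_natCast, h3]; exact inv_mem hc
    have h2 : r ∈ derivedSeries G n := mem_derivedSeries_of_pow_mem (by omega) n h1
    rw [hbi]
    exact zpow_mem h2 i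

theorem derivedSeries_ne_bot (n : ℕ) : derivedSeries (FreeGroup (Fin 2)) n ≠ ⊥ := by
  intro h
  have hs : Group.IsSolvable (FreeGroup (Fin 2)) := ⟨⟨n, h⟩⟩
  have hfree : ∀ σ : Equiv.Perm (Fin 5), ∀ τ : Equiv.Perm (Fin 5),
      Subgroup.closure {σ, τ} = ⊤ → False := by
    intro σ τ hst
    let f : FreeGroup (Fin 2) →* Equiv.Perm (Fin 5) := FreeGroup.lift ![σ, τ]
    have hf : Function.Surjective f := by
      rw [← MonoidHom.range_eq_top, eq_top_iff, ← hst, Subgroup.closure_le]
      rintro x (rfl | rfl)
      · exact ⟨FreeGroup.of 0, by simp [f]⟩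
      · exact ⟨FreeGroup.of 1, by simp [f]⟩
    exact Equiv.Perm.not_isSolvable_fin_5 (Group.isSolvable_of_surjective hf)
  refine hfree (finRotate 5) (Equiv.swap 0 1) ?_
  refine Equiv.Perm.closure_prime_cycle_swap (by norm_num) isCycle_finRotate
    support_finRotate ⟨0, 1, by decide, rfl⟩

theorem exists_ne_one_mem (n : ℕ) : ∃ b ∈ derivedSeries (FreeGroup (Fin 2)) n, b ≠ 1 := by
  by_contra hcon
  push Not at hcon
  apply derivedSeries_ne_bot n
  rw [eq_bot_iff]
  intro x hx
  exact hcon x hx

/-- Free groups of countable rank are residually soluble. -/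
theorem exists_notMem {ι : Type*} [Countable ι] {g : FreeGroup ι} (hg : g ≠ 1) :
    ∃ n, g ∉ derivedSeries (FreeGroup ι) n := by
  by_contra hcon
  push Not at hcon
  exact hg (FreeRep.lcs_bot (fun n => Subgroup.derived_le_lower_central n (hcon n)))

end Pool.Agent.Helper189.DerFree
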