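import Mathlib
import Pool.Agent.Helper189.DerFree
import Pool.Agent.Helper189.FreeRep
import Pool.Agent.Helper189.DblP

/-! Facts on the free group of rank two used for doubles. -/

namespace Pool.Agent.Helper189.DblF

open Matrix
open scoped commutatorElement
open Pool.Agent.Helper189.DerFree
open Pool.Agent.Helper189.DblP (rel rel_map)

/-- The free group of rank two. -/
abbrev F : Type := FreeGroup (Fin 2)

/-- The amalgamated element. -/
def u : F := rel (FreeGroup.of 0) (FreeGroup.of 1)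

/-- The exponent sum of the second generator. -/
def ey : F →* Multiplicative ℤ := FreeGroup.lift ![1, Multiplicative.ofAdd 1]

theorem ey_u : ey u = Multiplicative.ofAdd 1 := by
  rw [u, rel_map, rel]
  simp [ey]

theorem mem_zpowers_of_commute {g : F} (h : Commute g u) : g ∈ Subgroup.zpowers u := by
  obtain ⟨r, i, j, hi, hj⟩ := exists_root h
  have h1 : ey u = (ey r) ^ j := by rw [← map_zpow, ← hj]
  rw [ey_u] at h1
  have h2 : (1 : ℤ) = j * (ey r).toAdd := by
    have := congrArg Multiplicative.toAdd h1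
    simpa using this
  have h3 : j = 1 ∨ j = -1 := by
    have : j ∣ 1 := ⟨_, h2⟩
    exact Int.isUnit_iff.mp (isUnit_of_dvd_one this)
  rcases h3 with rfl | rfl
  · rw [zpow_one] at hj
    rw [hj, hi]
    exact ⟨i, rfl⟩
  · rw [hj, hi]
    exact ⟨-i, by simp⟩

/-- A free group in which all commutators commute is abelian. -/
theorem comm_of_metabelian {G : Type*} [Group G] [IsFreeGroup G]
    (h : ∀ a b c d : G, Commute ⁅a, b⁆ ⁅c, d⁆) (a b : G) : a * b = b * a := by
  classical
  let Y := IsFreeGroup.Generators G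
  let e : G ≃* FreeGroup Y := IsFreeGroup.toFreeGroup G
  have hsub : Subsingleton Y := by
    constructor
    intro x y
    by_contra hxy
    let f : G →* F := (FreeGroup.lift (fun z : Y => if z = x then (FreeGroup.of 0 : F)
      else FreeGroup.of 1)).comp e.toMonoidHom
    have hf : Function.Surjective f := by
      rw [← MonoidHom.range_eq_top, eq_top_iff, ← FreeGroup.closure_range_of (Fin 2),
        Subgroup.closure_le]
      rintro _ ⟨i, rfl⟩
      fin_cases i
      · exact ⟨e.symm (FreeGroup.of x), by simp [f]⟩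
      · exact ⟨e.symm (FreeGroup.of y), by simp [f, Ne.symm hxy]⟩
    apply derivedSeries_ne_bot 2
    rw [derivedSeries_succ, derivedSeries_succ, derivedSeries_zero]
    rw [Subgroup.commutator_eq_bot_iff_le_centralizer]
    rw [Subgroup.commutator_le]
    intro a _ b _
    rw [Subgroup.mem_centralizer_iff]
    intro k hk
    have h1 : ⁅(⊤ : Subgroup F), ⊤⁆ ≤ Subgroup.centralizer {⁅a, b⁆} := by
      rw [Subgroup.commutator_le]
      intro c _ d _
      rw [Subgroup.mem_centralizer_iff]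
      rintro _ rfl
      obtain ⟨a', rfl⟩ := hf a
      obtain ⟨b', rfl⟩ := hf b
      obtain ⟨c', rfl⟩ := hf c
      obtain ⟨d', rfl⟩ := hf d
      rw [← map_commutatorElement, ← map_commutatorElement, ← map_mul, ← map_mul]
      rw [(h a' b' c' d').eq]
    have h2 := h1 hk
    rw [Subgroup.mem_centralizer_iff] at h2
    exact (h2 _ rfl).symm
  have hc : ∀ x y : FreeGroup Y, x * y = y * x := by
    intro x y
    have hx : x ∈ Subgroup.closure (Set.range (FreeGroup.of : Y → FreeGroup Y)) := by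
      rw [FreeGroup.closure_range_of]; trivial
    have hy : y ∈ Subgroup.closure (Set.range (FreeGroup.of : Y → FreeGroup Y)) := by
      rw [FreeGroup.closure_range_of]; trivial
    have hcomm : ∀ x ∈ Set.range (FreeGroup.of : Y → FreeGroup Y),
        ∀ y ∈ Set.range (FreeGroup.of : Y → FreeGroup Y), x * y = y * x := by
      rintro _ ⟨x, rfl⟩ _ ⟨y, rfl⟩
      rw [Subsingleton.elim x y]
    have := (Subgroup.isMulCommutative_closure hcomm).is_comm.comm ⟨x, hx⟩ ⟨y, hy⟩
    exact congrArg Subtype.val this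
  apply e.injective
  rw [map_mul, map_mul, hc]

section Stab

variable {K : Type*} [Field K]

/-- The nilpotent matrix attached to a vector. -/
def nil (v : Fin 2 → K) : Matrix (Fin 2) (Fin 2) K :=
  !![v 0 * v 1, -(v 0 * v 0); v 1 * v 1, -(v 0 * v 1)]

theorem eq_one_add_nil {c : Matrix (Fin 2) (Fin 2) K} {v : Fin 2 → K} (hv : v ≠ 0)
    (hdet : c.det = 1) (hc : c *ᵥ v = v) : ∃ b : K, c = 1 + b • nil v := by
  have h0 := congrFun hc 0
  have h1 := congrFun hc 1
  rw [Matrix.det_fin_two] at hdet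
  simp only [Matrix.mulVec, dotProduct, Fin.sum_univ_two] at h0 h1
  by_cases hv0 : v 0 = 0
  · have hv1 : v 1 ≠ 0 := by
      intro h
      apply hv
      ext i
      fin_cases i
      · exact hv0
      · exact h
    rw [hv0] at h0 h1
    have e1 : c 0 1 = 0 := by
      have : c 0 1 * v 1 = 0 := by linear_combination h0
      exact (mul_eq_zero.mp this).resolve_right hv1
    have e2 : c 1 1 = 1 := by
      have : (c 1 1 - 1) * v 1 = 0 := by linear_combination h1
      exact sub_eq_zero.mp ((mul_eq_zero.mp this).resolve_right hv1)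
    have e3 : c 0 0 = 1 := by
      rw [e1, e2] at hdet
      linear_combination hdet
    refine ⟨c 1 0 / (v 1 * v 1), ?_⟩
    ext i j
    fin_cases i <;> fin_cases j
    · simp [nil, hv0, e3]
    · simp [nil, hv0, e1]
    · simp only [nil]
      simp
      field_simp
    · simp [nil, hv0, e2]
  · refine ⟨-(c 0 1) / (v 0 * v 0), ?_⟩
    have e1 : c 0 0 = 1 - c 0 1 * v 1 / v 0 := by
      field_simp
      linear_combination h0
    have e2 : c 1 1 = 1 + c 0 1 * v 1 / v 0 := by
      have h2 : c 1 0 * v 0 = v 1 - c 1 1 * v 1 := by linear_combination h1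
      have h3 : (c 0 0 * c 1 1 - c 0 1 * c 1 0) * v 0 = v 0 := by rw [hdet, one_mul]
      have h4 : c 0 0 * v 0 = v 0 - c 0 1 * v 1 := by linear_combination h0
      have h5 : (c 1 1 - 1) * v 0 = c 0 1 * v 1 := by
        linear_combination h3 - c 1 1 * h4 + c 0 1 * h2
      field_simp
      linear_combination h5
    have e3 : c 1 0 = -(c 0 1 * v 1 * v 1 / (v 0 * v 0)) := by
      have h2 : c 1 0 * v 0 = v 1 - c 1 1 * v 1 := by linear_combination h1
      rw [e2] at h2
      field_simp at h2 ⊢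
      linear_combination h2
    ext i j
    fin_cases i <;> fin_cases j
    · simp only [nil]
      simp
      rw [e1]
      field_simp
      ring
    · simp only [nil]
      simp
      field_simp
    · simp only [nil]
      simp
      rw [e3]
      field_simp
    · simp only [nil]
      simp
      rw [e2]
      field_simp

variable (ρ : F →* (Matrix (Fin 2) (Fin 2) K)ˣ)

/-- The stabilizer of the line spanned by a vector. -/
def stab (v : Fin 2 → K) : Subgroup F where
  carrier := {g | ∃ κ : K, κ ≠ 0 ∧ (ρ g : Matrix (Fin 2) (Fin 2) K) *ᵥ v = κ • v}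
  one_mem' := ⟨1, one_ne_zero, by simp⟩
  mul_mem' := by
    rintro g h ⟨a, ha, hg⟩ ⟨b, hb, hh⟩
    refine ⟨a * b, mul_ne_zero ha hb, ?_⟩
    rw [map_mul, Units.val_mul, ← Matrix.mulVec_mulVec, hh, Matrix.mulVec_smul, hg, smul_smul,
      mul_comm]
  inv_mem' := by
    rintro g ⟨a, ha, hg⟩
    refine ⟨a⁻¹, inv_ne_zero ha, ?_⟩
    have h1 : (((ρ g)⁻¹ : (Matrix (Fin 2) (Fin 2) K)ˣ) : Matrix (Fin 2) (Fin 2) K) *ᵥ
        ((ρ g : Matrix (Fin 2) (Fin 2) K) *ᵥ v) = v := by
      rw [Matrix.mulVec_mulVec, ← Units.val_mul, inv_mul_cancel, Units.val_one,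
        Matrix.one_mulVec]
    rw [hg, Matrix.mulVec_smul] at h1
    rw [map_inv]
    calc (((ρ g)⁻¹ : (Matrix (Fin 2) (Fin 2) K)ˣ) : Matrix (Fin 2) (Fin 2) K) *ᵥ v
        = a⁻¹ • (a • ((((ρ g)⁻¹ : (Matrix (Fin 2) (Fin 2) K)ˣ) :
            Matrix (Fin 2) (Fin 2) K) *ᵥ v)) := by rw [smul_smul, inv_mul_cancel₀ ha, one_smul]
      _ = a⁻¹ • v := by rw [h1]

theorem comm_fix {v : Fin 2 → K} {g h : F} (hg : g ∈ stab ρ v) (hh : h ∈ stab ρ v) :
    (ρ ⁅g, h⁆ : Matrix (Fin 2) (Fin 2) K) *ᵥ v = v := by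
  obtain ⟨a, ha, hga⟩ := hg
  obtain ⟨b, hb, hhb⟩ := hh
  have e : ρ ⁅g, h⁆ * ρ (h * g) = ρ (g * h) := by
    rw [← map_mul, commutatorElement_def]
    congr 1
    group
  have h1 : (ρ (h * g) : Matrix (Fin 2) (Fin 2) K) *ᵥ v = (a * b) • v := by
    rw [map_mul, Units.val_mul, ← Matrix.mulVec_mulVec, hga, Matrix.mulVec_smul, hhb, smul_smul]
  have h2 : (ρ (g * h) : Matrix (Fin 2) (Fin 2) K) *ᵥ v = (a * b) • v := by
    rw [map_mul, Units.val_mul, ← Matrix.mulVec_mulVec, hhb, Matrix.mulVec_smul, hga, smul_smul,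
      mul_comm]
  have h3 : (ρ ⁅g, h⁆ : Matrix (Fin 2) (Fin 2) K) *ᵥ
      ((ρ (h * g) : Matrix (Fin 2) (Fin 2) K) *ᵥ v) = (a * b) • v := by
    rw [Matrix.mulVec_mulVec, ← Units.val_mul, e, h2]
  rw [h1, Matrix.mulVec_smul] at h3
  have hab : a * b ≠ 0 := mul_ne_zero ha hb
  calc (ρ ⁅g, h⁆ : Matrix (Fin 2) (Fin 2) K) *ᵥ v
      = (a * b)⁻¹ • ((a * b) • ((ρ ⁅g, h⁆ : Matrix (Fin 2) (Fin 2) K) *ᵥ v)) := by
        rw [smul_smul, inv_mul_cancel₀ hab, one_smul]
    _ = v := by rw [h3, smul_smul, inv_mul_cancel₀ hab, one_smul]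

theorem mem_zpowers_of_stab (hinj : Function.Injective ρ)
    (hdet : ∀ g, (ρ g : Matrix (Fin 2) (Fin 2) K).det = 1) {v : Fin 2 → K} (hv : v ≠ 0)
    (hu : u ∈ stab ρ v) {g : F} (hg : g ∈ stab ρ v) : g ∈ Subgroup.zpowers u := by
  have key : ∀ a b c d : stab ρ v, Commute ⁅a, b⁆ ⁅c, d⁆ := by
    intro a b c d
    obtain ⟨k, hk⟩ := eq_one_add_nil hv (hdet _) (comm_fix ρ a.2 b.2)
    obtain ⟨l, hl⟩ := eq_one_add_nil hv (hdet _) (comm_fix ρ c.2 d.2)
    apply Subtype.ext
    change ⁅(a : F), (b : F)⁆ * ⁅(c : F), (d : F)⁆ = ⁅(c : F), (d : F)⁆ * ⁅(a : F), (b : F)⁆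
    apply hinj
    rw [map_mul ρ, map_mul ρ]
    apply Units.ext
    rw [Units.val_mul, Units.val_mul, hk, hl]
    simp only [add_mul, mul_add, one_mul, mul_one, smul_mul_assoc, mul_smul_comm]
    rw [smul_add, smul_add, smul_smul, smul_smul, mul_comm l k]
    abel
  have := comm_of_metabelian key ⟨g, hg⟩ ⟨u, hu⟩
  exact mem_zpowers_of_commute (congrArg Subtype.val this)

end Stab

end Pool.Agent.Helper189.DblF
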