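import Mathlib
import Pool.Agent.Helper189.DblF

/-! Representations of the double and non-vanishing of word matrices. -/

namespace Pool.Agent.Helper189.DblR

open Matrix
open Pool.Agent.Helper189.DblF
open Pool.Agent.Helper189.DblP (rel rel_map)

section Ring

variable {B : Type*} [CommRing B] (ρ : F →* (Matrix (Fin 2) (Fin 2) B)ˣ) (s : B)

/-- The matrix `1 + s u`. -/
def DD : Matrix (Fin 2) (Fin 2) B := 1 + s • (ρ u : Matrix (Fin 2) (Fin 2) B)

/-- The matrix `1 + s u⁻¹`. -/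
def AA : Matrix (Fin 2) (Fin 2) B :=
  1 + s • (((ρ u)⁻¹ : (Matrix (Fin 2) (Fin 2) B)ˣ) : Matrix (Fin 2) (Fin 2) B)

/-- The common factor. -/
def del : B := 1 + s * (ρ u : Matrix (Fin 2) (Fin 2) B).trace + s * s

/-- Word matrices. -/
def MM (g0 : F) : List (F × F) → Matrix (Fin 2) (Fin 2) B
  | [] => (ρ g0 : Matrix (Fin 2) (Fin 2) B)
  | p :: L => MM g0 L * DD ρ s * (ρ p.1 : Matrix (Fin 2) (Fin 2) B) * AA ρ s *
      (ρ p.2 : Matrix (Fin 2) (Fin 2) B)

variable {ρ}

theorem inv_eq_adjugate {m : (Matrix (Fin 2) (Fin 2) B)ˣ}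
    (hdet : (m : Matrix (Fin 2) (Fin 2) B).det = 1) :
    ((m⁻¹ : (Matrix (Fin 2) (Fin 2) B)ˣ) : Matrix (Fin 2) (Fin 2) B) =
      (m : Matrix (Fin 2) (Fin 2) B).adjugate := by
  have h1 : (m : Matrix (Fin 2) (Fin 2) B) * (m : Matrix (Fin 2) (Fin 2) B).adjugate = 1 := by
    rw [Matrix.mul_adjugate, hdet, one_smul]
  calc ((m⁻¹ : (Matrix (Fin 2) (Fin 2) B)ˣ) : Matrix (Fin 2) (Fin 2) B)
      = ((m⁻¹ : (Matrix (Fin 2) (Fin 2) B)ˣ) : Matrix (Fin 2) (Fin 2) B) *
        ((m : Matrix (Fin 2) (Fin 2) B) * (m : Matrix (Fin 2) (Fin 2) B).adjugate) := by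
          rw [h1, mul_one]
    _ = _ := by rw [← mul_assoc, ← Units.val_mul, inv_mul_cancel, Units.val_one, one_mul]

theorem AA_eq_adjugate (hdet : (ρ u : Matrix (Fin 2) (Fin 2) B).det = 1) :
    AA ρ s = (DD ρ s).adjugate := by
  rw [AA, DD, inv_eq_adjugate hdet, Matrix.adjugate_fin_two, Matrix.adjugate_fin_two]
  ext i j
  fin_cases i <;> fin_cases j <;> simp

theorem det_DD (hdet : (ρ u : Matrix (Fin 2) (Fin 2) B).det = 1) :
    (DD ρ s).det = del ρ s := by
  rw [Matrix.det_fin_two] at hdet ⊢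
  simp only [DD, del, Matrix.trace_fin_two, Matrix.add_apply, Matrix.smul_apply, smul_eq_mul,
    Matrix.one_apply]
  norm_num
  linear_combination s * s * hdet

theorem DD_mul_AA (hdet : (ρ u : Matrix (Fin 2) (Fin 2) B).det = 1) :
    DD ρ s * AA ρ s = del ρ s • 1 := by
  rw [AA_eq_adjugate s hdet, Matrix.mul_adjugate, det_DD s hdet]

theorem AA_mul_DD (hdet : (ρ u : Matrix (Fin 2) (Fin 2) B).det = 1) :
    AA ρ s * DD ρ s = del ρ s • 1 := by
  rw [AA_eq_adjugate s hdet, Matrix.adjugate_mul, det_DD s hdet]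

section Naturality

variable {B' : Type*} [CommRing B'] (f : B →+* B')

/-- Change of coefficients. -/
def push (ρ : F →* (Matrix (Fin 2) (Fin 2) B)ˣ) : F →* (Matrix (Fin 2) (Fin 2) B')ˣ :=
  (Units.map (f.mapMatrix : Matrix (Fin 2) (Fin 2) B →+* Matrix (Fin 2) (Fin 2) B').toMonoidHom).comp
    ρ

theorem push_val (g : F) : (push f ρ g : Matrix (Fin 2) (Fin 2) B') =
    (f.mapMatrix : Matrix (Fin 2) (Fin 2) B →+* Matrix (Fin 2) (Fin 2) B')
      (ρ g : Matrix (Fin 2) (Fin 2) B) := rfl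

theorem push_inv_val (g : F) :
    (((push f ρ g)⁻¹ : (Matrix (Fin 2) (Fin 2) B')ˣ) : Matrix (Fin 2) (Fin 2) B') =
    (f.mapMatrix : Matrix (Fin 2) (Fin 2) B →+* Matrix (Fin 2) (Fin 2) B')
      (((ρ g)⁻¹ : (Matrix (Fin 2) (Fin 2) B)ˣ) : Matrix (Fin 2) (Fin 2) B) := rfl

theorem push_MM (g0 : F) (L : List (F × F)) : MM (push f ρ) (f s) g0 L =
    (f.mapMatrix : Matrix (Fin 2) (Fin 2) B →+* Matrix (Fin 2) (Fin 2) B') (MM ρ s g0 L) := by
  have hD : DD (push f ρ) (f s) =
      (f.mapMatrix : Matrix (Fin 2) (Fin 2) B →+* Matrix (Fin 2) (Fin 2) B') (DD ρ s) := by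
    rw [DD, DD, push_val, map_add, map_one]
    congr 1
    ext i j
    simp
  have hA : AA (push f ρ) (f s) =
      (f.mapMatrix : Matrix (Fin 2) (Fin 2) B →+* Matrix (Fin 2) (Fin 2) B') (AA ρ s) := by
    rw [AA, AA, push_inv_val, map_add, map_one]
    congr 1
    ext i j
    simp
  induction L with
  | nil => rfl
  | cons p L ih =>
    rw [MM, MM, ih, hD, hA, push_val, push_val, map_mul, map_mul, map_mul, map_mul]

theorem push_del : del (push f ρ) (f s) = f (del ρ s) := by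
  rw [del, del, push_val, map_add, map_add, map_mul, map_mul, map_one]
  congr 3
  simp [Matrix.trace_fin_two]

end Naturality

end Ring

/-- Reduced lists. -/
def good : List (F × F) → Prop
  | [] => True
  | [p] => p.1 ∉ Subgroup.zpowers u
  | p :: q :: L => p.1 ∉ Subgroup.zpowers u ∧ q.2 ∉ Subgroup.zpowers u ∧ good (q :: L)

theorem good_cons {p : F × F} {L : List (F × F)} (h : good (p :: L)) :
    p.1 ∉ Subgroup.zpowers u ∧ good L := by
  cases L with
  | nil => exact ⟨h, trivial⟩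
  | cons q L => exact ⟨h.1, h.2.2⟩

theorem good_snd {h g h' g' : F} {L : List (F × F)} (hg : good ((h, g) :: L))
    (hh' : h' ∉ Subgroup.zpowers u) : good ((h', g') :: L) := by
  cases L with
  | nil => exact hh'
  | cons q L => exact ⟨hh', hg.2.1, hg.2.2⟩

section Field

variable {K : Type*} [Field K]

/-- The perpendicular vector. -/
def perp (v : Fin 2 → K) : Fin 2 → K := ![v 1, -(v 0)]

theorem perp_ne_zero {v : Fin 2 → K} (hv : v ≠ 0) : perp v ≠ 0 := by
  intro h
  apply hv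
  have h0 := congrFun h 0
  have h1 := congrFun h 1
  simp [perp] at h0 h1
  ext i
  fin_cases i
  · exact h1
  · exact h0

theorem eq_smul_perp {r w : Fin 2 → K} (hr : r ≠ 0) (h : r ⬝ᵥ w = 0) : ∃ κ : K, w = κ • perp r := by
  rw [dotProduct, Fin.sum_univ_two] at h
  by_cases h0 : r 0 = 0
  · have h1 : r 1 ≠ 0 := by
      intro h1
      apply hr
      ext i
      fin_cases i
      · exact h0
      · exact h1
    rw [h0] at h
    have h2 : w 1 = 0 := by
      have : r 1 * w 1 = 0 := by linear_combination h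
      exact (mul_eq_zero.mp this).resolve_left h1
    refine ⟨w 0 / r 1, ?_⟩
    ext i
    fin_cases i
    · simp [perp, h1]
    · simp [perp, h0, h2]
  · refine ⟨-(w 1) / r 0, ?_⟩
    ext i
    fin_cases i
    · simp [perp]
      field_simp
      linear_combination h
    · simp [perp, h0]

theorem rank_one {M : Matrix (Fin 2) (Fin 2) K} (hM : M ≠ 0) (hdet : M.det = 0) :
    ∃ c r : Fin 2 → K, c ≠ 0 ∧ r ≠ 0 ∧ M = vecMulVec c r := by
  rw [Matrix.det_fin_two] at hdet
  by_cases h00 : M 0 0 = 0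
  · by_cases h01 : M 0 1 = 0
    · refine ⟨![0, 1], ![M 1 0, M 1 1], ?_, ?_, ?_⟩
      · intro h
        have := congrFun h 1
        simp at this
      · intro h
        apply hM
        have h0 := congrFun h 0
        have h1 := congrFun h 1
        simp at h0 h1
        ext i j
        fin_cases i <;> fin_cases j <;> simp [h00, h01, h0, h1]
      · ext i j
        fin_cases i <;> fin_cases j <;> simp [h00, h01, vecMulVec_apply]
    · refine ⟨![1, M 1 1 / M 0 1], ![M 0 0, M 0 1], ?_, ?_, ?_⟩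
      · intro h
        have := congrFun h 0
        simp at this
      · intro h
        have := congrFun h 1
        simp at this
        exact h01 this
      · ext i j
        fin_cases i <;> fin_cases j
        · simp [vecMulVec_apply]
        · simp [vecMulVec_apply]
        · simp [vecMulVec_apply]
          field_simp
          linear_combination -hdet
        · simp [vecMulVec_apply]
          field_simp
  · refine ⟨![1, M 1 0 / M 0 0], ![M 0 0, M 0 1], ?_, ?_, ?_⟩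
    · intro h
      have := congrFun h 0
      simp at this
    · intro h
      have := congrFun h 0
      simp at this
      exact h00 this
    · ext i j
      fin_cases i <;> fin_cases j
      · simp [vecMulVec_apply]
      · simp [vecMulVec_apply]
      · simp [vecMulVec_apply]
        field_simp
      · simp [vecMulVec_apply]
        field_simp
        linear_combination hdet

theorem adjugate_vecMulVec (c r : Fin 2 → K) :
    (vecMulVec c r).adjugate = vecMulVec (perp r) (perp c) := by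
  rw [Matrix.adjugate_fin_two]
  ext i j
  fin_cases i <;> fin_cases j <;> simp [vecMulVec_apply, perp] <;> ring

theorem sandwich (a b c d : Fin 2 → K) (M : Matrix (Fin 2) (Fin 2) K) :
    vecMulVec a b * M * vecMulVec c d = (b ⬝ᵥ (M *ᵥ c)) • vecMulVec a d := by
  ext i j
  simp only [Matrix.mul_apply, Fin.sum_univ_two, vecMulVec_apply, mulVec, dotProduct,
    Matrix.smul_apply, smul_eq_mul]
  ring

theorem of_zero_notMem : (FreeGroup.of 0 : F) ∉ Subgroup.zpowers u := by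
  rintro ⟨k, hk⟩
  have h1 : ey (FreeGroup.of 0) = ey u ^ k := by rw [← map_zpow]; exact (congrArg ey hk).symm
  rw [ey_u] at h1
  have h2 : k = 0 := by
    have := congrArg Multiplicative.toAdd h1
    simpa [ey] using this.symm
  rw [h2] at hk
  exact FreeGroup.of_ne_one 0 (by simpa using hk.symm)

variable {ρ : F →* (Matrix (Fin 2) (Fin 2) K)ˣ} {s : K}

theorem DD_ne_zero (hinj : Function.Injective ρ) (hs : del ρ s = 0) : DD ρ s ≠ 0 := by
  intro h
  have hs0 : s ≠ 0 := by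
    rintro rfl
    simp [del] at hs
  rw [DD] at h
  have h1 : (ρ u : Matrix (Fin 2) (Fin 2) K) = (-s⁻¹) • 1 := by
    have : s • (ρ u : Matrix (Fin 2) (Fin 2) K) = -1 := by
      rw [eq_neg_iff_add_eq_zero, add_comm]; exact h
    calc (ρ u : Matrix (Fin 2) (Fin 2) K) = s⁻¹ • (s • (ρ u : Matrix (Fin 2) (Fin 2) K)) := by
          rw [smul_smul, inv_mul_cancel₀ hs0, one_smul]
      _ = _ := by rw [this]; simp
  apply of_zero_notMem
  apply mem_zpowers_of_commute
  apply hinj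
  rw [map_mul, map_mul]
  apply Units.ext
  rw [Units.val_mul, Units.val_mul, h1]
  simp

theorem key {c r : Fin 2 → K} (hc : c ≠ 0) (hr : r ≠ 0) (hinj : Function.Injective ρ)
    (hdet : ∀ g, (ρ g : Matrix (Fin 2) (Fin 2) K).det = 1) (hs : del ρ s = 0)
    (hD : DD ρ s = vecMulVec c r) :
    (∀ h, h ∉ Subgroup.zpowers u →
      r ⬝ᵥ ((ρ h : Matrix (Fin 2) (Fin 2) K) *ᵥ perp r) ≠ 0) ∧
    (∀ g, g ∉ Subgroup.zpowers u →
      perp c ⬝ᵥ ((ρ g : Matrix (Fin 2) (Fin 2) K) *ᵥ c) ≠ 0) := by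
  have hs0 : s ≠ 0 := by
    rintro rfl
    simp [del] at hs
  have hA : AA ρ s = vecMulVec (perp r) (perp c) := by
    rw [AA_eq_adjugate s (hdet u), hD, adjugate_vecMulVec]
  have hpp : ∀ v : Fin 2 → K, v ⬝ᵥ perp v = 0 := by
    intro v
    rw [dotProduct, Fin.sum_univ_two]
    simp [perp]
    ring
  have hpp' : ∀ v : Fin 2 → K, perp v ⬝ᵥ v = 0 := by
    intro v
    rw [dotProduct_comm, hpp]
  have hgen : ∀ (g : F) (v w : Fin 2 → K), v ≠ 0 →
      (ρ g : Matrix (Fin 2) (Fin 2) K) *ᵥ v = w → w ≠ 0 := by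
    intro g v w hv hw h0
    apply hv
    rw [h0] at hw
    calc v = (((ρ g)⁻¹ : (Matrix (Fin 2) (Fin 2) K)ˣ) : Matrix (Fin 2) (Fin 2) K) *ᵥ
        ((ρ g : Matrix (Fin 2) (Fin 2) K) *ᵥ v) := by
          rw [Matrix.mulVec_mulVec, ← Units.val_mul, inv_mul_cancel, Units.val_one,
            Matrix.one_mulVec]
      _ = 0 := by rw [hw, Matrix.mulVec_zero]
  have hur : u ∈ stab ρ (perp r) := by
    refine ⟨-s⁻¹, by simpa using hs0, ?_⟩
    have h1 : DD ρ s *ᵥ perp r = 0 := by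
      rw [hD, vecMulVec_mulVec, hpp]
      simp
    rw [DD, Matrix.add_mulVec, Matrix.one_mulVec, Matrix.smul_mulVec] at h1
    have h2 : s • ((ρ u : Matrix (Fin 2) (Fin 2) K) *ᵥ perp r) = -perp r := by
      rw [eq_neg_iff_add_eq_zero, add_comm]; exact h1
    calc (ρ u : Matrix (Fin 2) (Fin 2) K) *ᵥ perp r
        = s⁻¹ • (s • ((ρ u : Matrix (Fin 2) (Fin 2) K) *ᵥ perp r)) := by
          rw [smul_smul, inv_mul_cancel₀ hs0, one_smul]
      _ = _ := by rw [h2]; simp
  have huc : u ∈ stab ρ c := by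
    rw [← inv_mem_iff]
    refine ⟨-s⁻¹, by simpa using hs0, ?_⟩
    have h1 : AA ρ s *ᵥ c = 0 := by
      rw [hA, vecMulVec_mulVec, hpp']
      simp
    rw [AA, Matrix.add_mulVec, Matrix.one_mulVec, Matrix.smul_mulVec] at h1
    rw [map_inv]
    have h2 : s • ((((ρ u)⁻¹ : (Matrix (Fin 2) (Fin 2) K)ˣ) : Matrix (Fin 2) (Fin 2) K) *ᵥ c)
        = -c := by
      rw [eq_neg_iff_add_eq_zero, add_comm]; exact h1
    calc (((ρ u)⁻¹ : (Matrix (Fin 2) (Fin 2) K)ˣ) : Matrix (Fin 2) (Fin 2) K) *ᵥ c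
        = s⁻¹ • (s • ((((ρ u)⁻¹ : (Matrix (Fin 2) (Fin 2) K)ˣ) :
            Matrix (Fin 2) (Fin 2) K) *ᵥ c)) := by
          rw [smul_smul, inv_mul_cancel₀ hs0, one_smul]
      _ = _ := by rw [h2]; simp
  constructor
  · intro h hh h0
    apply hh
    obtain ⟨κ, hκ⟩ := eq_smul_perp hr h0
    refine mem_zpowers_of_stab ρ hinj hdet (perp_ne_zero hr) hur ⟨κ, ?_, hκ⟩
    rintro rfl
    exact hgen h _ _ (perp_ne_zero hr) hκ (by simp)
  · intro g hg h0
    apply hg
    obtain ⟨κ, hκ⟩ := eq_smul_perp (perp_ne_zero hc) h0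
    have hpc : perp (perp c) = -c := by
      ext i
      fin_cases i <;> simp [perp]
    rw [hpc] at hκ
    refine mem_zpowers_of_stab ρ hinj hdet hc huc ⟨-κ, ?_, ?_⟩
    · intro hk
      rw [neg_eq_zero] at hk
      rw [hk] at hκ
      exact hgen g _ _ hc hκ (by simp)
    · rw [hκ]; simp

theorem MM_ne_zero (hinj : Function.Injective ρ)
    (hdet : ∀ g, (ρ g : Matrix (Fin 2) (Fin 2) K).det = 1) (hs : del ρ s = 0) (g0 : F)
    {L : List (F × F)} (hL : L ≠ []) (hg : good L) : MM ρ s g0 L ≠ 0 := by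
  obtain ⟨c, r, hc, hr, hD⟩ := rank_one (DD_ne_zero hinj hs)
    (by rw [det_DD s (hdet u), hs])
  obtain ⟨k1, k2⟩ := key hc hr hinj hdet hs hD
  have hA : AA ρ s = vecMulVec (perp r) (perp c) := by
    rw [AA_eq_adjugate s (hdet u), hD, adjugate_vecMulVec]
  have hrow : ∀ (g : F) (v : Fin 2 → K), v ≠ 0 →
      v ᵥ* (ρ g : Matrix (Fin 2) (Fin 2) K) ≠ 0 := by
    intro g v hv h0
    apply hv
    calc v = (v ᵥ* (ρ g : Matrix (Fin 2) (Fin 2) K)) ᵥ*
        (((ρ g)⁻¹ : (Matrix (Fin 2) (Fin 2) K)ˣ) : Matrix (Fin 2) (Fin 2) K) := by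
          rw [Matrix.vecMul_vecMul, ← Units.val_mul, mul_inv_cancel, Units.val_one,
            Matrix.vecMul_one]
      _ = 0 := by rw [h0, Matrix.zero_vecMul]
  have hcol : ∀ (g : F) (v : Fin 2 → K), v ≠ 0 →
      (ρ g : Matrix (Fin 2) (Fin 2) K) *ᵥ v ≠ 0 := by
    intro g v hv h0
    apply hv
    calc v = (((ρ g)⁻¹ : (Matrix (Fin 2) (Fin 2) K)ˣ) : Matrix (Fin 2) (Fin 2) K) *ᵥ
        ((ρ g : Matrix (Fin 2) (Fin 2) K) *ᵥ v) := by
          rw [Matrix.mulVec_mulVec, ← Units.val_mul, inv_mul_cancel, Units.val_one,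
            Matrix.one_mulVec]
      _ = 0 := by rw [h0, Matrix.mulVec_zero]
  have main : ∀ L : List (F × F), ∀ p : F × F, good (p :: L) →
      ∃ w : Fin 2 → K, w ≠ 0 ∧
        MM ρ s g0 (p :: L) = vecMulVec w (perp c ᵥ* (ρ p.2 : Matrix (Fin 2) (Fin 2) K)) := by
    intro L
    induction L with
    | nil =>
      intro p hp
      refine ⟨(r ⬝ᵥ ((ρ p.1 : Matrix (Fin 2) (Fin 2) K) *ᵥ perp r)) •
        ((ρ g0 : Matrix (Fin 2) (Fin 2) K) *ᵥ c), ?_, ?_⟩
      · exact smul_ne_zero (k1 _ hp) (hcol g0 c hc)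
      · rw [MM, MM, hD, hA]
        have e : (ρ g0 : Matrix (Fin 2) (Fin 2) K) * vecMulVec c r *
            (ρ p.1 : Matrix (Fin 2) (Fin 2) K) * vecMulVec (perp r) (perp c) =
            (ρ g0 : Matrix (Fin 2) (Fin 2) K) * (vecMulVec c r *
            (ρ p.1 : Matrix (Fin 2) (Fin 2) K) * vecMulVec (perp r) (perp c)) := by
          simp only [mul_assoc]
        rw [e, sandwich, mul_smul_comm, smul_mul_assoc, mul_vecMulVec, vecMulVec_mul,
          smul_vecMulVec]
    | cons q L ih =>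
      intro p hp
      obtain ⟨w, hw, hM⟩ := ih q hp.2.2
      refine ⟨((perp c ⬝ᵥ ((ρ q.2 : Matrix (Fin 2) (Fin 2) K) *ᵥ c)) *
        (r ⬝ᵥ ((ρ p.1 : Matrix (Fin 2) (Fin 2) K) *ᵥ perp r))) • w, ?_, ?_⟩
      · exact smul_ne_zero (mul_ne_zero (k2 _ hp.2.1) (k1 _ hp.1)) hw
      · rw [MM, hM, hD, hA, ← vecMulVec_mul, sandwich, smul_mul_assoc, smul_mul_assoc, sandwich,
          smul_smul, smul_mul_assoc, vecMulVec_mul, smul_vecMulVec]
  cases L with
  | nil => exact absurd rfl hL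
  | cons p L =>
    obtain ⟨w, hw, hM⟩ := main L p hg
    rw [hM]
    intro h0
    have hv := hrow p.2 (perp c) (perp_ne_zero hc)
    obtain ⟨i, hi⟩ := Function.ne_iff.mp hw
    obtain ⟨j, hj⟩ := Function.ne_iff.mp hv
    have := congrFun (congrFun h0 i) j
    rw [vecMulVec_apply] at this
    rcases mul_eq_zero.mp this with h | h
    · exact hi h
    · exact hj h

end Field

end Pool.Agent.Helper189.DblR
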