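import Mathlib
import Pool.Agent.Helper189.Cong
import Pool.Agent.Helper189.FreeRep
import Pool.Agent.Helper189.DblR

/-! The double of the free group of rank two is residually nilpotent. -/

namespace Pool.Agent.Helper189.DblN

open Matrix
open Pool.Agent.Helper189.Cong Pool.Agent.Helper189.FreeRep
open Pool.Agent.Helper189.DblF Pool.Agent.Helper189.DblR
open Pool.Agent.Helper189.DblP (rel rel_map P px py qx qy lift_px lift_py lift_qx lift_qy rel_eq
  closure_gens)

section General

variable {B : Type*} [CommRing B] {B' : Type*} [CommRing B']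

/-- The congruence representation of the free group of rank two. -/
def ro (t : B) : F →* (Matrix (Fin 2) (Fin 2) B)ˣ :=
  (rep t).comp (FreeGroup.map (fun i : Fin 2 => ((i : ℕ) : ℤ)))

theorem push_ro (f : B →+* B') (t : B) : push f (ro t) = ro (f t) := by
  rw [push, ro, ← MonoidHom.comp_assoc, map_rep]
  rfl

theorem det_ro (t : B) (g : F) : (ro t g : Matrix (Fin 2) (Fin 2) B).det = 1 := by
  have h : (Matrix.detMonoidHom.comp (Units.coeHom (Matrix (Fin 2) (Fin 2) B))).comp (rep t)
      = 1 := by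
    apply FreeGroup.ext_hom
    intro i
    simp only [MonoidHom.comp_apply, rep, FreeGroup.lift_apply_of, gen, map_mul,
      MonoidHom.one_apply, Units.coeHom_apply, Matrix.coe_detMonoidHom]
    have h1 : (((up ((i : B) * t))⁻¹ : (Matrix (Fin 2) (Fin 2) B)ˣ) :
        Matrix (Fin 2) (Fin 2) B) = !![1, -((i : B) * t); 0, 1] := rfl
    have h2 : ((up ((i : B) * t) : (Matrix (Fin 2) (Fin 2) B)ˣ) :
        Matrix (Fin 2) (Fin 2) B) = !![1, ((i : B) * t); 0, 1] := rfl
    have h3 : ((lo t : (Matrix (Fin 2) (Fin 2) B)ˣ) :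
        Matrix (Fin 2) (Fin 2) B) = !![1, 0; t, 1] := rfl
    rw [h1, h2, h3]
    simp [Matrix.det_fin_two]
  exact DFunLike.congr_fun h _

variable {ρ : F →* (Matrix (Fin 2) (Fin 2) B)ˣ} {s : B}

/-- The conjugating unit. -/
def Du (hdet : (ρ u : Matrix (Fin 2) (Fin 2) B).det = 1) (δ : Bˣ) (hδ : (δ : B) = del ρ s) :
    (Matrix (Fin 2) (Fin 2) B)ˣ where
  val := DD ρ s
  inv := ((δ⁻¹ : Bˣ) : B) • AA ρ s
  val_inv := by rw [mul_smul_comm, DD_mul_AA s hdet, ← hδ, smul_smul, Units.inv_mul, one_smul]
  inv_val := by rw [smul_mul_assoc, AA_mul_DD s hdet, ← hδ, smul_smul, Units.inv_mul, one_smul]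

variable (hdet : (ρ u : Matrix (Fin 2) (Fin 2) B).det = 1) (δ : Bˣ) (hδ : (δ : B) = del ρ s)

theorem Du_comm : Du hdet δ hδ * ρ u = ρ u * Du hdet δ hδ := by
  apply Units.ext
  rw [Units.val_mul, Units.val_mul]
  change DD ρ s * _ = _ * DD ρ s
  rw [DD, add_mul, mul_add, one_mul, mul_one, smul_mul_assoc, mul_smul_comm]

/-- The representation of the double. -/
def repP : P →* (Matrix (Fin 2) (Fin 2) B)ˣ :=
  Pool.Agent.Helper189.DblP.lift (ρ (FreeGroup.of 0)) (ρ (FreeGroup.of 1))
    (Du hdet δ hδ * ρ (FreeGroup.of 0) * (Du hdet δ hδ)⁻¹)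
    (Du hdet δ hδ * ρ (FreeGroup.of 1) * (Du hdet δ hδ)⁻¹)
    (by
      have h1 : rel (ρ (FreeGroup.of 0)) (ρ (FreeGroup.of 1)) = ρ u := by
        rw [u, rel_map]
      have h2 : rel (Du hdet δ hδ * ρ (FreeGroup.of 0) * (Du hdet δ hδ)⁻¹)
          (Du hdet δ hδ * ρ (FreeGroup.of 1) * (Du hdet δ hδ)⁻¹) =
          Du hdet δ hδ * rel (ρ (FreeGroup.of 0)) (ρ (FreeGroup.of 1)) * (Du hdet δ hδ)⁻¹ := by
        simp only [rel]; group
      rw [h2, h1, Du_comm, mul_inv_cancel_right])

/-- The first copy. -/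
def iota : F →* P := FreeGroup.lift ![px, py]

/-- The second copy. -/
def iota' : F →* P := FreeGroup.lift ![qx, qy]

theorem iota_u : iota' u = iota u := by
  rw [u, rel_map, rel_map]
  simp [iota, iota', rel_eq]

theorem iota_zpowers {g : F} (hg : g ∈ Subgroup.zpowers u) : iota' g = iota g := by
  obtain ⟨k, rfl⟩ := hg
  change iota' (u ^ k) = iota (u ^ k)
  rw [map_zpow, map_zpow, iota_u]

theorem repP_iota (g : F) : repP hdet δ hδ (iota g) = ρ g := by
  have h : (repP hdet δ hδ).comp iota = ρ := by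
    apply FreeGroup.ext_hom
    intro i
    fin_cases i
    · simp [iota, repP, lift_px]
    · simp [iota, repP, lift_py]
  exact DFunLike.congr_fun h g

theorem repP_iota' (g : F) : repP hdet δ hδ (iota' g) = Du hdet δ hδ * ρ g * (Du hdet δ hδ)⁻¹ := by
  have h : (repP hdet δ hδ).comp iota' = (MulAut.conj (Du hdet δ hδ)).toMonoidHom.comp ρ := by
    apply FreeGroup.ext_hom
    intro i
    fin_cases i
    · simp [iota', repP, lift_qx]
    · simp [iota', repP, lift_qy]
  exact DFunLike.congr_fun h g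

/-- Values of words in the double. -/
def valP (g0 : F) : List (F × F) → P
  | [] => iota g0
  | p :: L => valP g0 L * iota' p.1 * iota p.2

theorem del_smul_valP (g0 : F) (L : List (F × F)) :
    (del ρ s) ^ L.length • (repP hdet δ hδ (valP g0 L) : Matrix (Fin 2) (Fin 2) B) =
      MM ρ s g0 L := by
  induction L with
  | nil => simp [valP, MM, repP_iota]
  | cons p L ih =>
    rw [MM, ← ih, valP, map_mul, map_mul, repP_iota, repP_iota', List.length_cons]
    simp only [Units.val_mul]
    have h1 : (((Du hdet δ hδ)⁻¹ : (Matrix (Fin 2) (Fin 2) B)ˣ) : Matrix (Fin 2) (Fin 2) B) =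
      ((δ⁻¹ : Bˣ) : B) • AA ρ s := rfl
    have h2 : ((Du hdet δ hδ : (Matrix (Fin 2) (Fin 2) B)ˣ) : Matrix (Fin 2) (Fin 2) B) =
      DD ρ s := rfl
    rw [h1, h2, pow_succ]
    simp only [mul_smul_comm, smul_mul_assoc, smul_smul]
    congr 1
    · rw [← hδ, mul_assoc, Units.mul_inv, mul_one]
    · simp only [mul_assoc]

theorem exists_valP (w : P) : ∃ (g0 : F) (L : List (F × F)), good L ∧ w = valP g0 L := by
  have hi : ∀ (g : F) (w : P), (∃ (g0 : F) (L : List (F × F)), good L ∧ w = valP g0 L) →
      ∃ (g0 : F) (L : List (F × F)), good L ∧ w * iota g = valP g0 L := by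
    rintro g _ ⟨g0, L, hL, rfl⟩
    cases L with
    | nil => exact ⟨g0 * g, [], trivial, by simp [valP]⟩
    | cons p L =>
      refine ⟨g0, (p.1, p.2 * g) :: L, good_snd (g := p.2) hL (good_cons hL).1, ?_⟩
      simp only [valP, map_mul, mul_assoc]
  have hi' : ∀ (h : F) (w : P), (∃ (g0 : F) (L : List (F × F)), good L ∧ w = valP g0 L) →
      ∃ (g0 : F) (L : List (F × F)), good L ∧ w * iota' h = valP g0 L := by
    rintro h w hw
    by_cases hh : h ∈ Subgroup.zpowers u
    · rw [iota_zpowers hh]
      exact hi h w hw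
    · obtain ⟨g0, L, hL, rfl⟩ := hw
      cases L with
      | nil => exact ⟨g0, [(h, 1)], hh, by simp [valP]⟩
      | cons p L =>
        by_cases hp : p.2 ∈ Subgroup.zpowers u
        · have e : valP g0 (p :: L) * iota' h = valP g0 L * iota' (p.1 * p.2 * h) := by
            simp only [valP, map_mul, ← iota_zpowers hp, mul_assoc]
          by_cases hq : p.1 * p.2 * h ∈ Subgroup.zpowers u
          · rw [e, iota_zpowers hq]
            exact hi _ _ ⟨g0, L, (good_cons hL).2, rfl⟩
          · refine ⟨g0, (p.1 * p.2 * h, 1) :: L, good_snd (g := p.2) (h := p.1) hL hq, ?_⟩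
            rw [e]
            simp [valP]
        · refine ⟨g0, (h, 1) :: p :: L, ⟨hh, hp, hL⟩, ?_⟩
          simp [valP]
  have hw : w ∈ Subgroup.closure ({px, py, qx, qy} : Set P) := by
    rw [closure_gens]; trivial
  have e1 : px = iota (FreeGroup.of 0) := by simp [iota]
  have e2 : py = iota (FreeGroup.of 1) := by simp [iota]
  have e3 : qx = iota' (FreeGroup.of 0) := by simp [iota']
  have e4 : qy = iota' (FreeGroup.of 1) := by simp [iota']
  induction hw using Subgroup.closure_induction_right with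
  | one => exact ⟨1, [], trivial, by simp [valP]⟩
  | mul_right w _ y hy ih =>
    rcases hy with rfl | rfl | rfl | rfl
    · rw [e1]; exact hi _ _ ih
    · rw [e2]; exact hi _ _ ih
    · rw [e3]; exact hi' _ _ ih
    · rw [e4]; exact hi' _ _ ih
  | mul_inv_cancel w _ y hy ih =>
    rcases hy with rfl | rfl | rfl | rfl
    · rw [e1, ← map_inv]; exact hi _ _ ih
    · rw [e2, ← map_inv]; exact hi _ _ ih
    · rw [e3, ← map_inv]; exact hi' _ _ ih
    · rw [e4, ← map_inv]; exact hi' _ _ ih

end General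

section Concrete

/-- The base ring: polynomials over the integers. -/
abbrev Z1 : Type := Polynomial ℤ

/-- Power series over the base ring. -/
abbrev Z2 : Type := PowerSeries Z1

/-- The congruence parameter. -/
noncomputable def tR : Z2 := PowerSeries.C (Polynomial.X : Z1)

theorem isUnit_del : IsUnit (del (ro tR) (PowerSeries.X : Z2)) := by
  rw [PowerSeries.isUnit_iff_constantCoeff]
  simp [del]

/-- The common factor as a unit. -/
noncomputable def dl : Z2ˣ := isUnit_del.unit

theorem dl_val : (dl : Z2) = del (ro tR) (PowerSeries.X : Z2) := rfl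

/-- The representation of the double over power series. -/
noncomputable def repR : P →* (Matrix (Fin 2) (Fin 2) Z2)ˣ :=
  repP (det_ro tR u) dl dl_val

theorem ro_two_injective : Function.Injective (ro (2 : ℂ)) := by
  have h : ro (2 : ℂ) = push (Int.castRingHom ℂ) (ro (2 : ℤ)) := by
    rw [push_ro]; simp
  rw [h, push, MonoidHom.coe_comp]
  refine Function.Injective.comp ?_ ?_
  · apply Units.map_injective
    intro a b hab
    ext i j
    have := congrFun (congrFun hab i) j
    simpa using this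
  · rw [ro, MonoidHom.coe_comp]
    refine rep_two_injective.comp (FreeGroup.map_injective ?_)
    intro i j hij
    have h1 : ((i : ℕ) : ℤ) = ((j : ℕ) : ℤ) := hij
    have : (i : ℕ) = (j : ℕ) := by exact_mod_cast h1
    exact Fin.ext this

theorem exists_root' (τ : ℂ) : ∃ s : ℂ, 1 + s * τ + s * s = 0 := by
  obtain ⟨z, hz⟩ := IsAlgClosed.exists_pow_nat_eq (τ ^ 2 - 4) (n := 2) (by norm_num)
  refine ⟨(-τ + z) / 2, ?_⟩
  field_simp
  linear_combination hz

theorem repR_injective : Function.Injective repR := by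
  rw [injective_iff_map_eq_one]
  intro w hw
  obtain ⟨g0, L, hL, rfl⟩ := exists_valP w
  have h1 := del_smul_valP (det_ro tR u) dl dl_val g0 L
  change _ • ((repR (valP g0 L) : (Matrix (Fin 2) (Fin 2) Z2)ˣ) : Matrix (Fin 2) (Fin 2) Z2) = _
    at h1
  rw [hw, Units.val_one] at h1
  -- descend to polynomials
  let c : Polynomial Z1 →+* Z2 := Polynomial.coeToPowerSeries.ringHom
  have hc : Function.Injective c := Polynomial.coe_injective Z1
  have hcC : c (Polynomial.C Polynomial.X) = tR := by
    simp [c, tR]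
  have hcX : c Polynomial.X = PowerSeries.X := by
    simp [c]
  have hro : ro tR = push c (ro (Polynomial.C Polynomial.X : Polynomial Z1)) := by
    rw [push_ro, hcC]
  have h2 : (del (ro (Polynomial.C Polynomial.X : Polynomial Z1)) Polynomial.X) ^ L.length •
      (1 : Matrix (Fin 2) (Fin 2) (Polynomial Z1)) =
      MM (ro (Polynomial.C Polynomial.X : Polynomial Z1)) Polynomial.X g0 L := by
    have hinj : Function.Injective
        (c.mapMatrix : Matrix (Fin 2) (Fin 2) (Polynomial Z1) →+* Matrix (Fin 2) (Fin 2) Z2) := by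
      intro a b hab
      refine Matrix.ext fun i j => ?_
      exact hc (congrFun (congrFun hab i) j)
    apply hinj
    rw [← push_MM, ← hro, hcX, ← h1, hro, ← hcX, push_del]
    refine Matrix.ext fun i j => ?_
    by_cases hij : i = j
    · simp [hij]
    · simp [hij]
  by_cases hn : L = []
  · subst hn
    have h3 : repR (iota g0) = 1 := hw
    have h4 : ro tR g0 = 1 := by
      rw [← repP_iota (det_ro tR u) dl dl_val]
      exact h3
    have h5 : ro (2 : ℂ) g0 = 1 := by
      have h6 : MM (ro (Polynomial.C Polynomial.X : Polynomial Z1)) Polynomial.X g0 [] = 1 := by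
        rw [← h2]; simp
      have h7 : push (Polynomial.eval₂RingHom (Polynomial.eval₂RingHom (Int.castRingHom ℂ) 2) 0)
          (ro (Polynomial.C Polynomial.X : Polynomial Z1)) = ro (2 : ℂ) := by
        rw [push_ro]; simp
      apply Units.ext
      rw [← h7, push_val]
      have h8 : (ro (Polynomial.C Polynomial.X : Polynomial Z1) g0 :
        Matrix (Fin 2) (Fin 2) (Polynomial Z1)) = 1 := h6
      rw [h8, map_one, Units.val_one]
    have : g0 = 1 := ro_two_injective (by rw [h5, map_one])
    rw [this]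
    simp [valP]
  · exfalso
    obtain ⟨s0, hs0⟩ := exists_root' (ro (2 : ℂ) u : Matrix (Fin 2) (Fin 2) ℂ).trace
    let e : Polynomial Z1 →+* ℂ :=
      Polynomial.eval₂RingHom (Polynomial.eval₂RingHom (Int.castRingHom ℂ) 2) s0
    have he : push e (ro (Polynomial.C Polynomial.X : Polynomial Z1)) = ro (2 : ℂ) := by
      rw [push_ro]; simp [e]
    have heX : e Polynomial.X = s0 := by simp [e]
    have h3 := congrArg (e.mapMatrix :
      Matrix (Fin 2) (Fin 2) (Polynomial Z1) →+* Matrix (Fin 2) (Fin 2) ℂ) h2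
    rw [← push_MM, he, heX] at h3
    have h4 : del (ro (2 : ℂ)) s0 = 0 := hs0
    apply MM_ne_zero ro_two_injective (det_ro 2) h4 g0 hn hL
    rw [← h3]
    have h5 : e (del (ro (Polynomial.C Polynomial.X : Polynomial Z1)) Polynomial.X) = 0 := by
      rw [← push_del, he, heX, h4]
    ext i j
    have hlen : L.length ≠ 0 := by
      intro h
      exact hn (List.length_eq_zero_iff.mp h)
    simp [h5, hlen]

/-- The scalar matrix of the congruence parameter. -/
noncomputable def TR : Matrix (Fin 2) (Fin 2) Z2 := Matrix.scalar (Fin 2) tR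

theorem TR_comm (a : Matrix (Fin 2) (Fin 2) Z2) : TR * a = a * TR :=
  (Matrix.scalar_commute tR (fun _ => Commute.all _ _) a)

theorem TR_pow_mul (k : ℕ) (a : Matrix (Fin 2) (Fin 2) Z2) : TR ^ k * a = (tR ^ k : Z2) • a := by
  rw [TR, ← map_pow]
  simp [Matrix.scalar_apply, Matrix.smul_eq_diagonal_mul]

theorem ro_mem (g : F) : ro tR g ∈ cong TR TR_comm 1 := by
  have h : ro tR = push (PowerSeries.C (R := Z1)) (ro (Polynomial.X : Z1)) := by
    rw [push_ro]; rfl
  obtain ⟨x, hx⟩ := rep_mem (FreeGroup.map (fun i : Fin 2 => ((i : ℕ) : ℤ)) g)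
  refine ⟨(PowerSeries.C (R := Z1)).mapMatrix x, ?_⟩
  rw [h, push_val, TR_pow_mul]
  change (PowerSeries.C (R := Z1)).mapMatrix ((rep Polynomial.X
    (FreeGroup.map (fun i : Fin 2 => ((i : ℕ) : ℤ)) g) : (Matrix (Fin 2) (Fin 2) Z1)ˣ) :
      Matrix (Fin 2) (Fin 2) Z1) = _
  rw [hx, T_pow_mul, map_add, map_one]
  congr 1
  ext i j
  simp [tR]

theorem repR_mem (w : P) : repR w ∈ cong TR TR_comm 1 := by
  have h : Subgroup.closure ({px, py, qx, qy} : Set P) ≤ (cong TR TR_comm 1).comap repR := by
    rw [Subgroup.closure_le]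
    have h1 : ∀ g : F, repR (iota g) ∈ cong TR TR_comm 1 := by
      intro g
      have : repR (iota g) = ro tR g := repP_iota _ _ _ g
      rw [this]; exact ro_mem g
    have h2 : ∀ g : F, repR (iota' g) ∈ cong TR TR_comm 1 := by
      intro g
      have : repR (iota' g) = _ := repP_iota' (det_ro tR u) dl dl_val g
      rw [this]
      exact Subgroup.Normal.conj_mem inferInstance _ (ro_mem g) _
    have e1 : px = iota (FreeGroup.of 0) := by simp [iota]
    have e2 : py = iota (FreeGroup.of 1) := by simp [iota]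
    have e3 : qx = iota' (FreeGroup.of 0) := by simp [iota']
    have e4 : qy = iota' (FreeGroup.of 1) := by simp [iota']
    rintro _ (rfl | rfl | rfl | rfl)
    · rw [e1]; exact h1 _
    · rw [e2]; exact h1 _
    · rw [e3]; exact h2 _
    · rw [e4]; exact h2 _
  rw [closure_gens] at h
  exact h trivial

theorem eq_one_of_forall_mem' {v : (Matrix (Fin 2) (Fin 2) Z2)ˣ}
    (h : ∀ k, v ∈ cong TR TR_comm k) : v = 1 := by
  apply Units.ext
  ext i j : 2
  set p := (v : Matrix (Fin 2) (Fin 2) Z2) i j - (1 : Matrix (Fin 2) (Fin 2) Z2) i j with hp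
  have hd : ∀ k, (tR ^ k : Z2) ∣ p := by
    intro k
    obtain ⟨x, hx⟩ := h k
    refine ⟨x i j, ?_⟩
    rw [hp, hx, TR_pow_mul]
    simp
  have hz : p = 0 := by
    ext n m
    obtain ⟨y, hy⟩ := hd (m + 1)
    have h1 : PowerSeries.coeff n p = (Polynomial.X ^ (m + 1) : Z1) * PowerSeries.coeff n y := by
      rw [hy, tR, ← map_pow, PowerSeries.coeff_C_mul]
    have h2 := (Polynomial.X_pow_dvd_iff.mp (Dvd.intro _ h1.symm)) m (Nat.lt_succ_self m)
    simpa using h2
  have := sub_eq_zero.mp hz
  rw [this]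
  simp

/-- The double is residually nilpotent. -/
theorem lcs_bot_P {w : P} (h : ∀ n, w ∈ (⊤ : Subgroup P).lowerCentralSeries n) : w = 1 := by
  apply repR_injective
  rw [map_one]
  apply eq_one_of_forall_mem'
  intro k
  exact cong_antitone (Nat.le_succ k) (lcs_le repR repR_mem k (h k))

end Concrete

end Pool.Agent.Helper189.DblN
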