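import Mathlib
import Pool.Agent.Helper189.DblP

/-! The lower central quotients of the double are those of a free group of rank three. -/

namespace Pool.Agent.Helper189.DblQ

open scoped commutatorElement
open Pool.Agent.Helper189.DblP (rel rel_map P px py qx qy lift_px lift_py lift_qx lift_qy rel_eq
  closure_gens)

section General

variable {G : Type*} [Group G]

theorem rel_mul_central (a y z : G) (hz : ∀ h, z * h = h * z) : rel a (y * z) = rel a y * z := by
  have h1 : z * a⁻¹ = a⁻¹ * z := hz _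
  have e : rel a (y * z) = a * a * y * (z * a⁻¹) * z⁻¹ * y⁻¹ * a⁻¹ * y * z := by
    simp only [rel, mul_inv_rev, mul_assoc]
  rw [e, h1, rel]
  simp only [mul_assoc, mul_inv_cancel_left]

theorem step (a y z : G) (k : ℕ) (hz : z ∈ (⊤ : Subgroup G).lowerCentralSeries k) :
    (rel a y * z)⁻¹ * rel a (y * z) ∈ (⊤ : Subgroup G).lowerCentralSeries (k + 1) := by
  rw [← QuotientGroup.eq]
  let π : G →* G ⧸ (⊤ : Subgroup G).lowerCentralSeries (k + 1) := QuotientGroup.mk' _
  change π (rel a y * z) = π (rel a (y * z))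
  rw [rel_map, map_mul, rel_map, map_mul, rel_mul_central]
  intro h
  obtain ⟨h, rfl⟩ := QuotientGroup.mk'_surjective _ h
  change π z * π h = π h * π z
  rw [← map_mul, ← map_mul]
  change ((z * h : G) : G ⧸ (⊤ : Subgroup G).lowerCentralSeries (k + 1)) = ((h * z : G) : _)
  rw [QuotientGroup.eq]
  have e : (z * h)⁻¹ * (h * z) = ⁅h⁻¹, z⁻¹⁆ := by
    rw [commutatorElement_def]; group
  rw [e, ← inv_mem_iff, commutatorElement_inv, Subgroup.lowerCentralSeries_succ]
  exact Subgroup.commutator_mem_commutator (inv_mem hz) trivial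

theorem lcs_anti {m n : ℕ} (h : m ≤ n) : (⊤ : Subgroup G).lowerCentralSeries n ≤
    (⊤ : Subgroup G).lowerCentralSeries m := Subgroup.lowerCentralSeries_antitone _ h

theorem exists_sol (a g : G) (k : ℕ) :
    ∃ y, (rel a y)⁻¹ * g ∈ (⊤ : Subgroup G).lowerCentralSeries k := by
  induction k with
  | zero => exact ⟨1, by simp⟩
  | succ k ih =>
    obtain ⟨y, hy⟩ := ih
    refine ⟨y * ((rel a y)⁻¹ * g), ?_⟩
    have h := step a y _ k hy
    rw [mul_inv_cancel_left] at h
    rw [← inv_mem_iff]
    have e : ((rel a (y * ((rel a y)⁻¹ * g)))⁻¹ * g)⁻¹ =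
        g⁻¹ * rel a (y * ((rel a y)⁻¹ * g)) := by group
    rw [e]
    exact h

theorem uniq_sol (a y y' : G) (n : ℕ)
    (h : (rel a y)⁻¹ * rel a y' ∈ (⊤ : Subgroup G).lowerCentralSeries n) :
    y⁻¹ * y' ∈ (⊤ : Subgroup G).lowerCentralSeries n := by
  have key : ∀ k ≤ n, y⁻¹ * y' ∈ (⊤ : Subgroup G).lowerCentralSeries k := by
    intro k
    induction k with
    | zero => intro _; simp
    | succ k ih =>
      intro hk
      have hz := ih (by omega)
      have h1 := step a y _ k hz
      rw [mul_inv_cancel_left] at h1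
      have h2 := lcs_anti hk h
      have e : y⁻¹ * y' = (rel a y)⁻¹ * rel a y' * ((rel a y * (y⁻¹ * y'))⁻¹ * rel a y')⁻¹ := by
        group
      rw [e]
      exact mul_mem h2 (inv_mem h1)
  exact key n le_rfl

end General

/-- The free group of rank three. -/
abbrev F3 : Type := FreeGroup (Fin 3)

/-- The map from the free group of rank three. -/
def alpha : F3 →* P := FreeGroup.lift ![px, py, qx]

theorem quotient_iso (n : ℕ) : Nonempty
    ((P ⧸ (⊤ : Subgroup P).lowerCentralSeries n) ≃* (F3 ⧸ (⊤ : Subgroup F3).lowerCentralSeries n)) := by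
  obtain ⟨y, hy⟩ := exists_sol (FreeGroup.of 2 : F3) (rel (FreeGroup.of 0) (FreeGroup.of 1)) n
  let π : F3 →* F3 ⧸ (⊤ : Subgroup F3).lowerCentralSeries n := QuotientGroup.mk' _
  let ψ : P →* P ⧸ (⊤ : Subgroup P).lowerCentralSeries n := QuotientGroup.mk' _
  have hrel : rel (π (FreeGroup.of 0)) (π (FreeGroup.of 1)) = rel (π (FreeGroup.of 2)) (π y) := by
    rw [← rel_map, ← rel_map]
    exact (QuotientGroup.eq.mpr hy).symm
  let β : P →* F3 ⧸ (⊤ : Subgroup F3).lowerCentralSeries n :=
    Pool.Agent.Helper189.DblP.lift _ _ _ _ hrel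
  have hβ0 : β px = π (FreeGroup.of 0) := lift_px _ _ _ _ hrel
  have hβ1 : β py = π (FreeGroup.of 1) := lift_py _ _ _ _ hrel
  have hβ2 : β qx = π (FreeGroup.of 2) := lift_qx _ _ _ _ hrel
  have hβ3 : β qy = π y := lift_qy _ _ _ _ hrel
  have hA : (⊤ : Subgroup F3).lowerCentralSeries n ≤ (ψ.comp alpha).ker := by
    intro g hg
    have h1 : alpha g ∈ (⊤ : Subgroup P).lowerCentralSeries n := by
      have := Subgroup.mem_map_of_mem alpha hg
      rw [Subgroup.map_lowerCentralSeries] at this
      exact Subgroup.lowerCentralSeries_mono n le_top this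
    exact (QuotientGroup.eq_one_iff _).mpr h1
  have hB : (⊤ : Subgroup P).lowerCentralSeries n ≤ β.ker := by
    intro g hg
    have h1 : β g ∈ (⊤ : Subgroup (F3 ⧸ (⊤ : Subgroup F3).lowerCentralSeries n)).lowerCentralSeries
        n := by
      have := Subgroup.mem_map_of_mem β hg
      rw [Subgroup.map_lowerCentralSeries] at this
      exact Subgroup.lowerCentralSeries_mono n le_top this
    have h2 : (⊤ : Subgroup (F3 ⧸ (⊤ : Subgroup F3).lowerCentralSeries n)).lowerCentralSeries n =
        ⊥ := by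
      have h3 : ((⊤ : Subgroup F3).lowerCentralSeries n).map π = ⊥ := by
        rw [Subgroup.map_eq_bot_iff, QuotientGroup.ker_mk']
      rw [Subgroup.map_lowerCentralSeries, Subgroup.map_top_of_surjective _
        (QuotientGroup.mk'_surjective _)] at h3
      exact h3
    rw [h2, Subgroup.mem_bot] at h1
    exact h1
  let A : (F3 ⧸ (⊤ : Subgroup F3).lowerCentralSeries n) →* P ⧸ (⊤ : Subgroup P).lowerCentralSeries n :=
    QuotientGroup.lift _ (ψ.comp alpha) hA
  let Bm : (P ⧸ (⊤ : Subgroup P).lowerCentralSeries n) →* F3 ⧸ (⊤ : Subgroup F3).lowerCentralSeries n :=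
    QuotientGroup.lift _ β hB
  have hAπ : ∀ g, A (π g) = ψ (alpha g) := fun g => rfl
  have hBψ : ∀ g, Bm (ψ g) = β g := fun g => rfl
  have ha0 : alpha (FreeGroup.of 0) = px := by simp [alpha]
  have ha1 : alpha (FreeGroup.of 1) = py := by simp [alpha]
  have ha2 : alpha (FreeGroup.of 2) = qx := by simp [alpha]
  refine ⟨MonoidHom.toMulEquiv Bm A ?_ ?_⟩
  · -- A ∘ Bm = id
    apply QuotientGroup.monoidHom_ext
    have hcl : Set.EqOn ((A.comp Bm).comp ψ) ((MonoidHom.id _).comp ψ)
        ({px, py, qx, qy} : Set P) := by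
      rintro _ (rfl | rfl | rfl | rfl)
      · change A (Bm (ψ px)) = ψ px
        rw [hBψ, hβ0, hAπ, ha0]
      · change A (Bm (ψ py)) = ψ py
        rw [hBψ, hβ1, hAπ, ha1]
      · change A (Bm (ψ qx)) = ψ qx
        rw [hBψ, hβ2, hAπ, ha2]
      · change A (Bm (ψ qy)) = ψ qy
        rw [hBψ, hβ3, hAπ]
        apply QuotientGroup.eq.mpr
        apply uniq_sol qx
        rw [← rel_eq]
        have h1 : alpha ((rel (FreeGroup.of 2) y)⁻¹ * rel (FreeGroup.of 0) (FreeGroup.of 1)) ∈
            (⊤ : Subgroup P).lowerCentralSeries n := by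
          have := Subgroup.mem_map_of_mem alpha hy
          rw [Subgroup.map_lowerCentralSeries] at this
          exact Subgroup.lowerCentralSeries_mono n le_top this
        rw [map_mul, map_inv, rel_map, rel_map, ha0, ha1, ha2] at h1
        exact h1
    exact MonoidHom.eq_of_eqOn_dense closure_gens hcl
  · -- Bm ∘ A = id
    apply QuotientGroup.monoidHom_ext
    apply FreeGroup.ext_hom
    intro i
    change Bm (A (π (FreeGroup.of i))) = π (FreeGroup.of i)
    rw [hAπ, hBψ]
    fin_cases i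
    · change β (alpha (FreeGroup.of 0)) = π (FreeGroup.of 0)
      rw [ha0, hβ0]
    · change β (alpha (FreeGroup.of 1)) = π (FreeGroup.of 1)
      rw [ha1, hβ1]
    · change β (alpha (FreeGroup.of 2)) = π (FreeGroup.of 2)
      rw [ha2, hβ2]

end Pool.Agent.Helper189.DblQ
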