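import Mathlib
import Pool.Agent.Helper189.DblP
import Pool.Agent.Helper189.DblQ
import Pool.Agent.Helper189.DblN
import Pool.Agent.Helper189.DerFree

/-! Roots in the quotient of the double by the derived subgroup of the kernel. -/

namespace Pool.Agent.Helper189.DblT

open FreeGroup (of)
open Pool.Agent.Helper189.DblP

/-- The kernel of the projection to the infinite cyclic group. -/
def N : Subgroup P := (SemidirectProduct.inl : FreeGroup S →* P).range

theorem N_eq_ker : N = (SemidirectProduct.rightHom : P →* Multiplicative ℤ).ker :=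
  SemidirectProduct.range_inl_eq_ker_rightHom

instance N_normal : N.Normal := by
  rw [N_eq_ker]; infer_instance

/-- The kernel is free. -/
noncomputable def eN : FreeGroup S ≃* N :=
  MonoidHom.ofInjective (SemidirectProduct.inl_injective)

instance : IsFreeGroup N := IsFreeGroup.ofMulEquiv eN

theorem ab_torsionfree (x : Abelianization N) (n : ℕ) (hn : n ≠ 0) (h : x ^ n = 1) : x = 1 := by
  obtain ⟨g, rfl⟩ := QuotientGroup.mk_surjective x
  have h1 : g ^ n ∈ commutator N := (QuotientGroup.eq_one_iff _).mp h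
  exact (QuotientGroup.eq_one_iff _).mpr (DerFree.mem_commutator_of_pow_mem hn h1)

theorem quot_torsionfree (x : P ⧸ N) (n : ℕ) (hn : n ≠ 0) (h : x ^ n = 1) : x = 1 := by
  obtain ⟨g, rfl⟩ := QuotientGroup.mk_surjective x
  have h1 : g ^ n ∈ N := (QuotientGroup.eq_one_iff _).mp h
  rw [N_eq_ker, MonoidHom.mem_ker, map_pow] at h1
  apply (QuotientGroup.eq_one_iff _).mpr
  rw [N_eq_ker, MonoidHom.mem_ker]
  have h2 : n • Multiplicative.toAdd (SemidirectProduct.rightHom g) = 0 := by
    rw [← toAdd_pow, h1]; rfl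
  have h3 : Multiplicative.toAdd (SemidirectProduct.rightHom g) = 0 := by
    simpa [hn] using h2
  exact h3

/-- The exceptional element. -/
def e0 : FreeGroup S := of S.y0 * (of (S.z 0))⁻¹

theorem e0_notMem : e0 ∉ commutator (FreeGroup S) := by
  intro h
  let f : FreeGroup S →* Multiplicative ℤ := FreeGroup.lift (fun s => match s with
    | S.y0 => Multiplicative.ofAdd 1
    | _ => 1)
  have h1 : f e0 = 1 := Abelianization.commutator_subset_ker f h
  have h2 : f e0 = Multiplicative.ofAdd 1 := by simp [f, e0]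
  rw [h2] at h1
  exact absurd (congrArg Multiplicative.toAdd h1) (by simp)

theorem rec0 : (Abelianization.of (sig (sig e0)) : Abelianization (FreeGroup S)) =
    Abelianization.of (sig e0) * (Abelianization.of e0)⁻¹ := by
  have h1 : sig e0 = of S.y1 * (of (S.z 1))⁻¹ := by
    rw [e0, map_mul, map_inv, sig_of, sig_of, sig0, sig0, zero_add]
  have h2 : sig (sig e0) = sig0 S.y1 * (of (S.z 2))⁻¹ := by
    rw [h1, map_mul, map_inv, sig_of, sig_of, sig0, sig0]; norm_num
  rw [h2, h1, e0, sig0]
  simp only [map_mul, map_inv]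
  generalize (Abelianization.of (of (S.d 0)) : Abelianization (FreeGroup S)) = a
  generalize (Abelianization.of (of (S.d 1)) : Abelianization (FreeGroup S)) = b
  generalize (Abelianization.of (of (S.z 2)) : Abelianization (FreeGroup S)) = c
  generalize (Abelianization.of (of (S.z 1)) : Abelianization (FreeGroup S)) = d
  generalize (Abelianization.of (of (S.z 0)) : Abelianization (FreeGroup S)) = e
  generalize (Abelianization.of (of S.y0) : Abelianization (FreeGroup S)) = f
  generalize (Abelianization.of (of S.y1) : Abelianization (FreeGroup S)) = g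
  calc a * b * c * b⁻¹ * d⁻¹ * a⁻¹ * e * f⁻¹ * g * c⁻¹
      = (a * a⁻¹) * (b * b⁻¹) * (c * c⁻¹) * (g * d⁻¹ * (e * f⁻¹)) := by
        simp only [mul_comm, mul_left_comm, mul_assoc]
    _ = g * d⁻¹ * (f * e⁻¹)⁻¹ := by
        simp [mul_comm]

theorem rec1 (f g h : FreeGroup S)
    (hf : (Abelianization.of f : Abelianization (FreeGroup S)) =
      Abelianization.of g * (Abelianization.of h)⁻¹) :
    (Abelianization.of (sig f) : Abelianization (FreeGroup S)) =
    Abelianization.of (sig g) * (Abelianization.of (sig h))⁻¹ := by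
  have := congrArg (Abelianization.map sig.toMonoidHom) hf
  simpa using this

/-- The product of six consecutive translates. -/
def prod6 : FreeGroup S :=
  sig e0 * sig (sig e0) * sig (sig (sig e0)) * sig (sig (sig (sig e0))) *
    sig (sig (sig (sig (sig e0)))) * sig (sig (sig (sig (sig (sig e0)))))

theorem prod6_mem : prod6 ∈ commutator (FreeGroup S) := by
  rw [← Abelianization.ker_of, MonoidHom.mem_ker]
  have h2 := rec0
  have h3 := rec1 _ _ _ h2
  have h4 := rec1 _ _ _ h3
  have h5 := rec1 _ _ _ h4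
  have h6 := rec1 _ _ _ h5
  simp only [prod6, map_mul]
  rw [h6, h5, h4, h3, h2]
  generalize (Abelianization.of (sig e0) : Abelianization (FreeGroup S)) = b
  generalize (Abelianization.of e0 : Abelianization (FreeGroup S)) = a
  have e : b * (b * a⁻¹) * (b * a⁻¹ * b⁻¹) * (b * a⁻¹ * b⁻¹ * (b * a⁻¹)⁻¹) *
      (b * a⁻¹ * b⁻¹ * (b * a⁻¹)⁻¹ * (b * a⁻¹ * b⁻¹)⁻¹) *
      (b * a⁻¹ * b⁻¹ * (b * a⁻¹)⁻¹ * (b * a⁻¹ * b⁻¹)⁻¹ * (b * a⁻¹ * b⁻¹ * (b * a⁻¹)⁻¹)⁻¹) = 1 := by
    have : ∀ {A : Type} [CommGroup A] (a b : A),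
        b * (b * a⁻¹) * (b * a⁻¹ * b⁻¹) * (b * a⁻¹ * b⁻¹ * (b * a⁻¹)⁻¹) *
        (b * a⁻¹ * b⁻¹ * (b * a⁻¹)⁻¹ * (b * a⁻¹ * b⁻¹)⁻¹) *
        (b * a⁻¹ * b⁻¹ * (b * a⁻¹)⁻¹ * (b * a⁻¹ * b⁻¹)⁻¹ *
          (b * a⁻¹ * b⁻¹ * (b * a⁻¹)⁻¹)⁻¹) = 1 := by
      intro A _ a b
      have h : ∀ x y : Additive A, y + (y - x) + (y - x - y) + (y - x - y - (y - x)) +
          (y - x - y - (y - x) - (y - x - y)) +
          (y - x - y - (y - x) - (y - x - y) - (y - x - y - (y - x))) = 0 := by
        intro x y; abel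
      have := h (Additive.ofMul a) (Additive.ofMul b)
      simp only [sub_eq_add_neg] at this
      exact this
    exact this a b
  exact e

theorem px_pow (f : FreeGroup S) :
    (px * SemidirectProduct.inl f) ^ 6 = SemidirectProduct.inl
      (sig f * sig (sig f) * sig (sig (sig f)) * sig (sig (sig (sig f))) *
    sig (sig (sig (sig (sig f)))) * sig (sig (sig (sig (sig (sig f)))))) * px ^ 6 := by
  have h : ∀ g : FreeGroup S, px * SemidirectProduct.inl g = SemidirectProduct.inl (sig g) * px :=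
    px_mul
  have h' : ∀ (g : FreeGroup S) (w : P), px * (SemidirectProduct.inl g * w) =
      SemidirectProduct.inl (sig g) * (px * w) := by
    intro g w
    rw [← mul_assoc, h, mul_assoc]
  simp only [pow_succ, pow_zero, one_mul, map_mul, mul_assoc, h, h']

theorem map_inl_commutator : (commutator (FreeGroup S)).map
    (SemidirectProduct.inl : FreeGroup S →* P) = ⁅N, N⁆ := by
  rw [commutator_def, Subgroup.map_commutator, N, MonoidHom.range_eq_map]

theorem roots_eq : (QuotientGroup.mk px : P ⧸ ⁅N, N⁆) ^ 6 =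
    (QuotientGroup.mk (px * SemidirectProduct.inl e0) : P ⧸ ⁅N, N⁆) ^ 6 := by
  rw [← QuotientGroup.mk_pow, ← QuotientGroup.mk_pow, QuotientGroup.eq, px_pow]
  have h1 : (SemidirectProduct.inl prod6 : P) ∈ ⁅N, N⁆ := by
    rw [← map_inl_commutator]
    exact Subgroup.mem_map_of_mem _ prod6_mem
  rw [prod6] at h1
  generalize (SemidirectProduct.inl (sig e0 * sig (sig e0) * sig (sig (sig e0)) *
    sig (sig (sig (sig e0))) * sig (sig (sig (sig (sig e0)))) *
    sig (sig (sig (sig (sig (sig e0)))))) : P) = w at h1 ⊢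
  have h2 := Subgroup.Normal.conj_mem (inferInstance : (⁅N, N⁆).Normal) _ h1 ((px ^ 6)⁻¹)
  rw [inv_inv] at h2
  rw [← mul_assoc]
  exact h2

theorem roots_ne : (QuotientGroup.mk px : P ⧸ ⁅N, N⁆) ≠
    QuotientGroup.mk (px * SemidirectProduct.inl e0) := by
  intro h
  rw [QuotientGroup.eq, inv_mul_cancel_left, ← map_inl_commutator] at h
  obtain ⟨f, hf, hfe⟩ := h
  rw [SemidirectProduct.inl_injective hfe] at hf
  exact e0_notMem hf

theorem fg_P : Group.FG P := by
  rw [Group.fg_iff]
  exact ⟨{px, py, qx, qy}, closure_gens, by simp⟩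

end Pool.Agent.Helper189.DblT
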