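import Mathlib

/-! Free groups have trivial Frattini subgroup. -/

namespace Pool.Agent.Helper189.Frat

theorem isCoatom_of_prime_index {G : Type*} [Group G] {K : Subgroup G} (h : K.index.Prime) :
    IsCoatom K := by
  constructor
  · rintro rfl
    rw [Subgroup.index_top] at h
    exact Nat.not_prime_one h
  · intro M hM
    have h1 : K.relIndex M * M.index = K.index := Subgroup.relIndex_mul_index hM.le
    rw [← h1, Nat.prime_mul_iff] at h
    rcases h with ⟨_, h2⟩ | ⟨_, h2⟩
    · exact Subgroup.index_eq_one.mp h2
    · exact absurd (Subgroup.relIndex_eq_one.mp h2) (not_le_of_gt hM)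

variable {Y : Type*}

/-- Letter `i` of the list read as a partial map of `{0, ..., n}`: positive letters move `i + 1`
to `i`, negative letters move `i` to `i + 1`. -/
def Edge (L : List (Y × Bool)) (y : Y) (u v : ℕ) : Prop :=
  (u = v + 1 ∧ L[v]? = some (y, true)) ∨ (v = u + 1 ∧ L[u]? = some (y, false))

theorem reduced_adj {L : List (Y × Bool)} (hL : FreeGroup.IsReduced L) {i : ℕ} {y : Y} {b c : Bool}
    (h1 : L[i]? = some (y, b)) (h2 : L[i + 1]? = some (y, c)) : b = c := by
  induction L generalizing i with
  | nil => simp at h1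
  | cons p L ih =>
    cases i with
    | zero =>
      cases L with
      | nil => simp at h2
      | cons q L =>
        simp at h1 h2
        subst h1 h2
        exact (FreeGroup.isReduced_cons_cons.mp hL).1 rfl
    | succ i =>
      have hL' : FreeGroup.IsReduced L := by
        cases L with
        | nil => exact FreeGroup.IsReduced.nil
        | cons q L => exact (FreeGroup.isReduced_cons_cons.mp hL).2
      exact ih hL' (by simpa using h1) (by simpa using h2)

theorem edge_inj_left {L : List (Y × Bool)} (hL : FreeGroup.IsReduced L) {y : Y} {u v v' : ℕ}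
    (h : Edge L y u v) (h' : Edge L y u v') : v = v' := by
  rcases h with ⟨h1, h2⟩ | ⟨h1, h2⟩ <;> rcases h' with ⟨h3, h4⟩ | ⟨h3, h4⟩
  · omega
  · subst h1
    exact absurd (reduced_adj hL h2 h4) (by simp)
  · subst h3
    exact absurd (reduced_adj hL h4 h2) (by simp)
  · omega

theorem edge_inj_right {L : List (Y × Bool)} (hL : FreeGroup.IsReduced L) {y : Y} {u u' v : ℕ}
    (h : Edge L y u v) (h' : Edge L y u' v) : u = u' := by
  rcases h with ⟨h1, h2⟩ | ⟨h1, h2⟩ <;> rcases h' with ⟨h3, h4⟩ | ⟨h3, h4⟩
  · omega
  · subst h3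
    exact absurd (reduced_adj hL h4 h2) (by simp)
  · subst h1
    exact absurd (reduced_adj hL h2 h4) (by simp)
  · omega

theorem edge_lt {L : List (Y × Bool)} {y : Y} {u v : ℕ} (h : Edge L y u v) :
    u < L.length + 1 ∧ v < L.length + 1 := by
  rcases h with ⟨h1, h2⟩ | ⟨h1, h2⟩
  · have := (List.getElem?_eq_some_iff.mp h2).1
    omega
  · have := (List.getElem?_eq_some_iff.mp h2).1
    omega

/-- Completion of the partial maps to permutations. -/
theorem exists_perm {L : List (Y × Bool)} (hL : FreeGroup.IsReduced L) (y : Y) :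
    ∃ σ : Equiv.Perm (Fin (L.length + 1)), ∀ u v : Fin (L.length + 1),
      Edge L y u v → σ u = v := by
  classical
  let s : Finset (Fin (L.length + 1)) := Finset.univ.filter fun u => ∃ v : ℕ, Edge L y u v
  let f : Fin (L.length + 1) → Fin (L.length + 1) := fun u =>
    if h : ∃ v : ℕ, Edge L y u v then ⟨h.choose, (edge_lt h.choose_spec).2⟩ else u
  have hf : ∀ u v : Fin (L.length + 1), Edge L y u v → f u = v := by
    intro u v h
    have h1 : ∃ v : ℕ, Edge L y u v := ⟨v, h⟩
    simp only [f, dif_pos h1]
    exact Fin.ext (edge_inj_left hL h1.choose_spec h)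
  have hinj : Set.InjOn f s := by
    intro u hu u' hu' huu
    simp only [s, Finset.coe_filter, Finset.mem_univ, true_and, Set.mem_ofPred_eq] at hu hu'
    obtain ⟨v, hv⟩ := hu
    obtain ⟨v', hv'⟩ := hu'
    have e1 := hf u ⟨v, (edge_lt hv).2⟩ hv
    have e2 := hf u' ⟨v', (edge_lt hv').2⟩ hv'
    rw [e1, e2] at huu
    have e3 : v = v' := congrArg Fin.val huu
    subst e3
    exact Fin.ext (edge_inj_right hL hv hv')
  obtain ⟨g, hg⟩ := Finset.exists_equiv_extend_of_card_eq
    (t := (Finset.univ : Finset (Fin (L.length + 1)))) (by simp) (Finset.subset_univ _) hinj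
  let σ : Equiv.Perm (Fin (L.length + 1)) :=
    g.trans ⟨fun x => x.1, fun x => ⟨x, Finset.mem_univ x⟩, fun x => rfl, fun x => rfl⟩
  refine ⟨σ, fun u v h => ?_⟩
  have hu : u ∈ s := by simp only [s, Finset.mem_filter, Finset.mem_univ, true_and]; exact ⟨v, h⟩
  have h2 : σ u = f u := hg u hu
  rw [h2, hf u v h]

theorem isReduced_append_replicate {L : List (Y × Bool)} (hL : FreeGroup.IsReduced L)
    (hne : L ≠ []) (k : ℕ) :
    FreeGroup.IsReduced (L ++ List.replicate k (L.getLast hne)) := by
  induction L with
  | nil => exact absurd rfl hne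
  | cons p L ih =>
    cases L with
    | nil =>
      clear ih
      simp only [List.getLast_singleton, List.singleton_append]
      induction k with
      | zero => simp
      | succ k ihk =>
        rw [List.replicate_succ]
        exact FreeGroup.isReduced_cons_cons.mpr ⟨fun _ => rfl, ihk⟩
    | cons q L =>
      have h := FreeGroup.isReduced_cons_cons.mp hL
      have h2 := ih h.2 (by simp)
      simp only [List.cons_append] at h2 ⊢
      rw [List.getLast_cons (by simp)]
      exact FreeGroup.isReduced_cons_cons.mpr ⟨h.1, h2⟩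

/-- The action of the word: the prefix of length `m` moves the point `m` to `0`. -/
theorem prefix_apply {L : List (Y × Bool)} {σ : Y → Equiv.Perm (Fin (L.length + 1))}
    (hσ : ∀ (y : Y) (u v : Fin (L.length + 1)), Edge L y u v → σ y u = v)
    (m : ℕ) (hm : m < L.length + 1) :
    (FreeGroup.lift σ (FreeGroup.mk (L.take m))) ⟨m, hm⟩ = ⟨0, Nat.succ_pos _⟩ := by
  induction m with
  | zero =>
    simp only [List.take_zero]
    change (FreeGroup.lift σ 1) _ = _
    simp
  | succ m ih =>
    have hm' : m < L.length := by omega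
    have htake : L.take (m + 1) = L.take m ++ [L[m]] := by
      rw [List.take_concat_get' L m hm']
    rw [htake, ← FreeGroup.mul_mk, map_mul, Equiv.Perm.mul_apply]
    have hlast : (FreeGroup.lift σ (FreeGroup.mk [L[m]])) ⟨m + 1, hm⟩ = ⟨m, by omega⟩ := by
      rcases hLm : L[m] with ⟨y, b⟩
      cases b with
      | true =>
        have h1 : σ y ⟨m + 1, hm⟩ = ⟨m, by omega⟩ := by
          apply hσ
          left
          exact ⟨rfl, by rw [List.getElem?_eq_getElem hm', hLm]⟩
        have h2 : (FreeGroup.mk [(y, true)]) = FreeGroup.of y := rfl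
        rw [h2, FreeGroup.lift_apply_of, h1]
      | false =>
        have h1 : σ y ⟨m, by omega⟩ = ⟨m + 1, hm⟩ := by
          apply hσ
          right
          exact ⟨rfl, by rw [List.getElem?_eq_getElem hm', hLm]⟩
        have h2 : (FreeGroup.mk [(y, false)]) = (FreeGroup.of y)⁻¹ := rfl
        rw [h2, map_inv, FreeGroup.lift_apply_of, Equiv.Perm.inv_def, Equiv.symm_apply_eq, h1]
    rw [hlast]
    exact ih (by omega)

/-- For each nontrivial element of a free group there is a subgroup of prime index which does not
contain it. -/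
theorem exists_prime_index (w : FreeGroup Y) (hw : w ≠ 1) :
    ∃ K : Subgroup (FreeGroup Y), K.index.Prime ∧ w ∉ K := by
  classical
  have hne : w.toWord ≠ [] := by
    intro h
    exact hw (FreeGroup.toWord_eq_nil_iff.mp h)
  have hlen : 0 < w.toWord.length := List.length_pos_of_ne_nil hne
  obtain ⟨p, hp, hprime⟩ := Nat.exists_infinite_primes (w.toWord.length + 1)
  obtain ⟨k, hk⟩ := Nat.exists_eq_add_of_le hp
  let L : List (Y × Bool) := w.toWord ++ List.replicate k (w.toWord.getLast hne)
  have hL : FreeGroup.IsReduced L :=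
    isReduced_append_replicate FreeGroup.isReduced_toWord hne k
  have hLlen : L.length + 1 = p := by simp [L]; omega
  choose σ hσ using fun y => exists_perm hL y
  let Θ : FreeGroup Y →* Equiv.Perm (Fin (L.length + 1)) := FreeGroup.lift σ
  let _ : MulAction (FreeGroup Y) (Fin (L.length + 1)) := MulAction.compHom _ Θ
  have hsmul : ∀ (g : FreeGroup Y) (v : Fin (L.length + 1)), g • v = Θ g v := fun _ _ => rfl
  have hpre : ∀ m (hm : m < L.length + 1),
      (FreeGroup.mk (L.take m)) • (⟨m, hm⟩ : Fin (L.length + 1)) = ⟨0, Nat.succ_pos _⟩ := by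
    intro m hm
    rw [hsmul]
    exact prefix_apply (fun y => hσ y) m hm
  have htrans : MulAction.IsPretransitive (FreeGroup Y) (Fin (L.length + 1)) := by
    constructor
    intro u v
    refine ⟨(FreeGroup.mk (L.take v.1))⁻¹ * FreeGroup.mk (L.take u.1), ?_⟩
    rw [mul_smul, hpre u.1 u.2, inv_smul_eq_iff, hpre v.1 v.2]
  refine ⟨MulAction.stabilizer (FreeGroup Y) (⟨0, Nat.succ_pos _⟩ : Fin (L.length + 1)), ?_, ?_⟩
  · rw [MulAction.index_stabilizer_of_transitive, Nat.card_eq_fintype_card, Fintype.card_fin, hLlen]
    exact hprime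
  · intro hmem
    rw [MulAction.mem_stabilizer_iff] at hmem
    have h1 : w.toWord.length < L.length + 1 := by simp only [L, List.length_append]; omega
    have h2 := hpre w.toWord.length h1
    have h3 : L.take w.toWord.length = w.toWord := by simp [L]
    rw [h3, FreeGroup.mk_toWord] at h2
    have h4 : (⟨w.toWord.length, h1⟩ : Fin (L.length + 1)) = ⟨0, Nat.succ_pos _⟩ := by
      have : w • (⟨w.toWord.length, h1⟩ : Fin (L.length + 1)) = w • ⟨0, Nat.succ_pos _⟩ := by
        rw [h2, hmem]
      exact (MulAction.injective w) this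
    have h5 : w.toWord.length = 0 := congrArg Fin.val h4
    omega

theorem frattini_freeGroup : frattini (FreeGroup Y) = ⊥ := by
  rw [eq_bot_iff]
  intro w hw
  by_contra hne
  obtain ⟨K, hK, hwK⟩ := exists_prime_index w hne
  exact hwK (frattini_le_coatom (isCoatom_of_prime_index hK) hw)

theorem frattini_isFreeGroup (G : Type*) [Group G] [IsFreeGroup G] : frattini G = ⊥ := by
  rw [eq_bot_iff]
  have h := frattini_le_comap_frattini_of_surjective
    (φ := (IsFreeGroup.toFreeGroup G).toMonoidHom) (IsFreeGroup.toFreeGroup G).surjective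
  rw [frattini_freeGroup] at h
  intro x hx
  have h1 : IsFreeGroup.toFreeGroup G x = 1 := h hx
  rw [Subgroup.mem_bot]
  exact (IsFreeGroup.toFreeGroup G).injective (by rw [h1, map_one])

/-- An element of the Frattini subgroup dies under every homomorphism to a free group. -/
theorem map_frattini_eq_one {G : Type*} [Group G] {R : Type*} [Group R] [IsFreeGroup R]
    (φ : G →* R) {g : G} (hg : g ∈ frattini G) : φ g = 1 := by
  have h := frattini_le_comap_frattini_of_surjective
    (φ := φ.rangeRestrict) φ.rangeRestrict_surjective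
  rw [frattini_isFreeGroup φ.range] at h
  have h1 : φ.rangeRestrict g = 1 := h hg
  have h2 := congrArg Subtype.val h1
  simpa using h2

end Pool.Agent.Helper189.Frat
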