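import Mathlib

/-! Fibre products over superperfect quotients have the same lower central quotients as the
direct product. -/

namespace Pool.Agent.Helper189.Genus

open scoped commutatorElement

section Series

variable {F : Type*} [Group F]

/-- The relative lower central series `L, [L, F], [[L, F], F], ...`. -/
def Mn (L : Subgroup F) : ℕ → Subgroup F
  | 0 => L
  | n + 1 => ⁅Mn L n, ⊤⁆

theorem Mn_zero (L : Subgroup F) : Mn L 0 = L := rfl

theorem Mn_succ (L : Subgroup F) (n : ℕ) : Mn L (n + 1) = ⁅Mn L n, ⊤⁆ := rfl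

instance Mn_normal (L : Subgroup F) [hL : L.Normal] (n : ℕ) : (Mn L n).Normal := by
  induction n with
  | zero => exact hL
  | succ n ih => rw [Mn_succ]; infer_instance

theorem Mn_succ_le (L : Subgroup F) [L.Normal] (n : ℕ) : Mn L (n + 1) ≤ Mn L n := by
  rw [Mn_succ]; exact Subgroup.commutator_le_left _ _

theorem Mn_le (L : Subgroup F) [L.Normal] (n : ℕ) : Mn L n ≤ L := by
  induction n with
  | zero => exact le_rfl
  | succ n ih => exact (Mn_succ_le L n).trans ih

theorem sup_lcs_eq_top (L : Subgroup F) [L.Normal] (hperf : L ⊔ commutator F = ⊤) (n : ℕ) :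
    L ⊔ (⊤ : Subgroup F).lowerCentralSeries n = ⊤ := by
  induction n with
  | zero => simp
  | succ n ih =>
    have h1 : commutator F ≤ L ⊔ (⊤ : Subgroup F).lowerCentralSeries (n + 1) := by
      rw [commutator_def, Subgroup.commutator_le]
      intro a ha b _
      rw [← ih, Subgroup.mem_sup_of_normal_left] at ha
      obtain ⟨l, hl, c, hc, rfl⟩ := ha
      have e : ⁅l * c, b⁆ = (l * ⁅c, b⁆ * l⁻¹) * ⁅l, b⁆ := by
        simp only [commutatorElement_def]; group
      rw [e]
      refine mul_mem ?_ ?_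
      · refine (le_sup_right : _ ≤ L ⊔ (⊤ : Subgroup F).lowerCentralSeries (n + 1)) ?_
        refine Subgroup.Normal.conj_mem inferInstance _ ?_ l
        rw [Subgroup.lowerCentralSeries_succ]
        exact Subgroup.commutator_mem_commutator hc trivial
      · refine (le_sup_left : L ≤ _) ?_
        rw [commutatorElement_def]
        have : l * b * l⁻¹ * b⁻¹ = l * (b * l⁻¹ * b⁻¹) := by group
        rw [this]
        exact mul_mem hl (Subgroup.Normal.conj_mem inferInstance _ (inv_mem hl) b)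
    exact top_le_iff.mp (hperf.ge.trans (sup_le le_sup_left h1))

/-- The key property: the quotient by `L` is superperfect in the following form. -/
def Lifts (L : Subgroup F) [L.Normal] : Prop :=
  ∀ n, ∃ σ : F →* F ⧸ Mn L n, (∀ l ∈ L, σ l = 1) ∧
    ∀ f : F, ∃ l ∈ L, (f : F ⧸ Mn L n) = σ f * (l : F ⧸ Mn L n)

theorem inf_lcs_le (L : Subgroup F) [L.Normal] (hperf : L ⊔ commutator F = ⊤) (hl : Lifts L)
    (n : ℕ) : L ⊓ (⊤ : Subgroup F).lowerCentralSeries n ≤ Mn L n := by
  obtain ⟨σ, hσL, hσ⟩ := hl n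
  set q : F →* F ⧸ Mn L n := QuotientGroup.mk' (Mn L n) with hq
  set T : Subgroup (F ⧸ Mn L n) := σ.range with hT
  have hTT : ⁅T, T⁆ = T := by
    apply le_antisymm
    · have : ⁅T, T⁆ ≤ (commutator F).map σ := by
        rw [commutator_def, Subgroup.map_commutator, ← MonoidHom.range_eq_map]
      exact this.trans (Subgroup.map_le_range σ _)
    · have h1 : T = (L ⊔ commutator F).map σ := by rw [hperf, ← MonoidHom.range_eq_map]
      rw [Subgroup.map_sup] at h1
      have h2 : L.map σ = ⊥ := by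
        rw [Subgroup.map_eq_bot_iff]
        intro l hl
        exact hσL l hl
      rw [h2, bot_sup_eq] at h1
      calc T = (commutator F).map σ := h1
        _ = ⁅T, T⁆ := by
          rw [commutator_def, Subgroup.map_commutator, ← MonoidHom.range_eq_map]
        _ ≤ ⁅T, T⁆ := le_rfl
  have hmap : ∀ k, (Mn L (k + 1)).map q = ⁅(Mn L k).map q, ⊤⁆ := by
    intro k
    rw [Mn_succ, Subgroup.map_commutator, ← MonoidHom.range_eq_map, QuotientGroup.range_mk']
  have hbot : (Mn L n).map q = ⊥ := by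
    rw [Subgroup.map_eq_bot_iff, QuotientGroup.ker_mk']
  have hcentral : ∀ k, k ≤ n → ⁅(Mn L (n - k)).map q, T⁆ = ⊥ := by
    intro k
    induction k with
    | zero => intro _; rw [Nat.sub_zero, hbot, Subgroup.commutator_bot_left]
    | succ k ih =>
      intro hk
      have h1 := ih (by omega)
      have e : n - k = (n - (k + 1)) + 1 := by omega
      set N : Subgroup (F ⧸ Mn L n) := (Mn L (n - (k + 1))).map q with hN
      have h2 : ⁅N, T⁆ ≤ (Mn L (n - k)).map q := by
        rw [e, hmap]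
        exact Subgroup.commutator_mono le_rfl le_top
      have h3 : ⁅⁅N, T⁆, T⁆ = ⊥ := by
        rw [eq_bot_iff, ← h1]
        exact Subgroup.commutator_mono h2 le_rfl
      have h4 : ⁅⁅T, N⁆, T⁆ = ⊥ := by rw [Subgroup.commutator_comm T N]; exact h3
      have h5 : ⁅⁅T, T⁆, N⁆ = ⊥ := Subgroup.commutator_commutator_eq_bot_of_rotate h4 h3
      rw [hTT, Subgroup.commutator_comm] at h5
      exact h5
  have hLT : ⁅L.map q, T⁆ = ⊥ := by
    have := hcentral n le_rfl
    rwa [Nat.sub_self, Mn_zero] at this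
  have hcomm : ∀ l ∈ L, ∀ f, q l * σ f = σ f * q l := by
    intro l hl f
    rw [← commutatorElement_eq_one_iff_mul_comm, ← Subgroup.mem_bot, ← hLT]
    exact Subgroup.commutator_mem_commutator (Subgroup.mem_map_of_mem q hl) ⟨f, rfl⟩
  have hδL : ∀ f, (σ f)⁻¹ * q f ∈ L.map q := by
    intro f
    obtain ⟨l, hl, h⟩ := hσ f
    refine ⟨l, hl, ?_⟩
    have h' : q f = σ f * q l := h
    rw [h']; group
  let δ : F →* F ⧸ Mn L n :=
    { toFun := fun f => (σ f)⁻¹ * q f
      map_one' := by simp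
      map_mul' := by
        intro f g
        obtain ⟨l, hl, h⟩ := hδL f
        rw [map_mul, map_mul, mul_inv_rev]
        have h2 : (σ g)⁻¹ * q l = q l * (σ g)⁻¹ := by
          have := hcomm l hl g⁻¹
          rw [map_inv] at this
          exact this.symm
        calc (σ g)⁻¹ * (σ f)⁻¹ * (q f * q g) = (σ g)⁻¹ * ((σ f)⁻¹ * q f) * q g := by group
          _ = ((σ g)⁻¹ * q l) * q g := by rw [h]
          _ = q l * (σ g)⁻¹ * q g := by rw [h2]
          _ = (σ f)⁻¹ * q f * ((σ g)⁻¹ * q g) := by rw [h]; group }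
  have hδrange : δ.range ≤ L.map q := by
    rintro _ ⟨f, rfl⟩
    exact hδL f
  have hlcs : ∀ k, (L.map q).lowerCentralSeries k ≤ (Mn L k).map q := by
    intro k
    induction k with
    | zero => exact le_rfl
    | succ k ih =>
      rw [Subgroup.lowerCentralSeries_succ, hmap]
      exact Subgroup.commutator_mono ih le_top
  rintro x ⟨hxL, hxn⟩
  have h1 : δ x ∈ ((⊤ : Subgroup F).lowerCentralSeries n).map δ := Subgroup.mem_map_of_mem δ hxn
  rw [Subgroup.map_lowerCentralSeries, ← MonoidHom.range_eq_map] at h1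
  have h2 : δ x ∈ (Mn L n).map q := hlcs n (Subgroup.lowerCentralSeries_mono n hδrange h1)
  rw [hbot, Subgroup.mem_bot] at h2
  have h3 : (σ x)⁻¹ * q x = 1 := h2
  rw [hσL x hxL, inv_one, one_mul] at h3
  exact (QuotientGroup.eq_one_iff x).mp h3

end Series

section Fibre

variable {F : Type*} [Group F] (L W : Subgroup F) [L.Normal] [W.Normal] (hWL : W ≤ L)

/-- The map from `F / W` to `F / L`. -/
def alpha : F ⧸ W →* F ⧸ L := QuotientGroup.map W L (MonoidHom.id F) hWL

/-- The fibre product of `F / W` and `F` over `F / L`. -/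
def Fib : Subgroup ((F ⧸ W) × F) :=
  ((alpha L W hWL).comp (MonoidHom.fst _ _)).eqLocus
    ((QuotientGroup.mk' L).comp (MonoidHom.snd _ _))

theorem mem_Fib {a f : F} : ((a : F ⧸ W), f) ∈ Fib L W hWL ↔ (a : F ⧸ L) = (f : F ⧸ L) := Iff.rfl

/-- The diagonal embedding of `F`. -/
def diag : F →* Fib L W hWL :=
  ((QuotientGroup.mk' W).prod (MonoidHom.id F)).codRestrict _ (fun _ => rfl)

theorem Mn_mem_lcs (n : ℕ) : ∀ f ∈ Mn L n, ∃ h : ((1 : F ⧸ W), f) ∈ Fib L W hWL,
    (⟨((1 : F ⧸ W), f), h⟩ : Fib L W hWL) ∈ (⊤ : Subgroup (Fib L W hWL)).lowerCentralSeries n := by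
  induction n with
  | zero =>
    intro f hf
    refine ⟨?_, trivial⟩
    rw [show (1 : F ⧸ W) = ((1 : F) : F ⧸ W) from rfl, mem_Fib]
    exact ((QuotientGroup.eq_one_iff f).mpr hf).symm
  | succ n ih =>
    -- the preimage of the next term
    let j : F →* (F ⧸ W) × F := MonoidHom.inr _ _
    intro f hf
    have key : Mn L (n + 1) ≤
        (((⊤ : Subgroup (Fib L W hWL)).lowerCentralSeries (n + 1)).map
          (Fib L W hWL).subtype).comap j := by
      rw [Mn_succ, Subgroup.commutator_le]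
      intro a ha b _
      obtain ⟨h, hmem⟩ := ih a ha
      refine ⟨⁅(⟨((1 : F ⧸ W), a), h⟩ : Fib L W hWL), diag L W hWL b⁆, ?_, ?_⟩
      · rw [SetLike.mem_coe, Subgroup.lowerCentralSeries_succ]
        exact Subgroup.commutator_mem_commutator hmem trivial
      · rw [map_commutatorElement]
        ext
        · change ⁅(1 : F ⧸ W), (b : F ⧸ W)⁆ = 1
          exact commutatorElement_one_left _
        · rfl
    obtain ⟨⟨p, hp⟩, hp2, hp3⟩ := key hf
    have hp4 : p = ((1 : F ⧸ W), f) := hp3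
    subst hp4
    exact ⟨hp, hp2⟩

theorem comap_lcs (hinf : ∀ n, L ⊓ (⊤ : Subgroup F).lowerCentralSeries n ≤ Mn L n) (n : ℕ) :
    ((⊤ : Subgroup ((F ⧸ W) × F)).lowerCentralSeries n).comap (Fib L W hWL).subtype
      = (⊤ : Subgroup (Fib L W hWL)).lowerCentralSeries n := by
  apply le_antisymm
  · rintro ⟨⟨d, f⟩, hp⟩ hmem
    rw [Subgroup.mem_comap, Subgroup.top_lowerCentralSeries_prod] at hmem
    obtain ⟨hd, hf⟩ := hmem
    simp only [Subgroup.subtype_apply] at hd hf
    have h1 : (⊤ : Subgroup (F ⧸ W)).lowerCentralSeries n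
        = ((⊤ : Subgroup F).lowerCentralSeries n).map (QuotientGroup.mk' W) := by
      rw [Subgroup.map_lowerCentralSeries, ← MonoidHom.range_eq_map, QuotientGroup.range_mk']
    have hd' : d ∈ (⊤ : Subgroup (F ⧸ W)).lowerCentralSeries n := hd
    rw [h1] at hd'
    obtain ⟨u, hu, hud⟩ := hd'
    have hud' : (u : F ⧸ W) = d := hud
    subst hud'
    have hΔ : diag L W hWL u ∈ (⊤ : Subgroup (Fib L W hWL)).lowerCentralSeries n := by
      have h2 := Subgroup.mem_map_of_mem (diag L W hWL) hu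
      rw [Subgroup.map_lowerCentralSeries] at h2
      exact Subgroup.lowerCentralSeries_mono n le_top h2
    have h3 : f * u⁻¹ ∈ Mn L n := by
      apply hinf
      have hf' : f ∈ (⊤ : Subgroup F).lowerCentralSeries n := hf
      have hu' : u ∈ (⊤ : Subgroup F).lowerCentralSeries n := hu
      refine Subgroup.mem_inf.mpr ⟨?_, mul_mem hf' (inv_mem hu')⟩
      have h4 : (u : F ⧸ L) = (f : F ⧸ L) := (mem_Fib L W hWL).mp hp
      rw [← QuotientGroup.eq_one_iff, QuotientGroup.mk_mul, QuotientGroup.mk_inv, h4,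
        mul_inv_cancel]
    obtain ⟨h5, h6⟩ := Mn_mem_lcs L W hWL n _ h3
    have h7 : (⟨((u : F ⧸ W), f), hp⟩ : Fib L W hWL)
        = ⟨((1 : F ⧸ W), f * u⁻¹), h5⟩ * diag L W hWL u := by
      apply Subtype.ext
      ext
      · change (u : F ⧸ W) = 1 * (u : F ⧸ W)
        rw [one_mul]
      · change f = f * u⁻¹ * u
        group
    rw [h7]
    exact mul_mem h6 hΔ
  · intro x hx
    have h2 := Subgroup.mem_map_of_mem (Fib L W hWL).subtype hx
    rw [Subgroup.map_lowerCentralSeries] at h2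
    exact Subgroup.lowerCentralSeries_mono n le_top h2

theorem exists_fib (hsup : ∀ n, L ⊔ (⊤ : Subgroup F).lowerCentralSeries n = ⊤) (n : ℕ)
    (p : (F ⧸ W) × F) : ∃ g : Fib L W hWL,
      (g : (F ⧸ W) × F)⁻¹ * p ∈ (⊤ : Subgroup ((F ⧸ W) × F)).lowerCentralSeries n := by
  obtain ⟨d, f⟩ := p
  obtain ⟨a, rfl⟩ := QuotientGroup.mk_surjective d
  have ha : a ∈ L ⊔ (⊤ : Subgroup F).lowerCentralSeries n := by rw [hsup]; trivial
  have hf : f ∈ L ⊔ (⊤ : Subgroup F).lowerCentralSeries n := by rw [hsup]; trivial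
  rw [Subgroup.mem_sup_of_normal_left] at ha hf
  obtain ⟨l1, hl1, g1, hg1, rfl⟩ := ha
  obtain ⟨l2, hl2, g2, hg2, rfl⟩ := hf
  have hmem : ((l1 : F ⧸ W), l2) ∈ Fib L W hWL := by
    rw [mem_Fib, (QuotientGroup.eq_one_iff l1).mpr hl1, (QuotientGroup.eq_one_iff l2).mpr hl2]
  refine ⟨⟨_, hmem⟩, ?_⟩
  have e : ((⟨((l1 : F ⧸ W), l2), hmem⟩ : Fib L W hWL) : (F ⧸ W) × F)⁻¹ *
      (((l1 * g1 : F) : F ⧸ W), l2 * g2) = (((g1 : F) : F ⧸ W), g2) := by
    ext
    · change (l1 : F ⧸ W)⁻¹ * ((l1 * g1 : F) : F ⧸ W) = (g1 : F ⧸ W)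
      rw [QuotientGroup.mk_mul]; group
    · change l2⁻¹ * (l2 * g2) = g2
      group
  rw [e, Subgroup.top_lowerCentralSeries_prod]
  refine ⟨?_, hg2⟩
  have h2 := Subgroup.mem_map_of_mem (QuotientGroup.mk' W) hg1
  rw [Subgroup.map_lowerCentralSeries] at h2
  exact Subgroup.lowerCentralSeries_mono n le_top h2

/-- The fibre product and the direct product have isomorphic lower central quotients. -/
theorem nonempty_iso (hperf : L ⊔ commutator F = ⊤) (hl : Lifts L) (n : ℕ) :
    Nonempty ((Fib L W hWL) ⧸ (⊤ : Subgroup (Fib L W hWL)).lowerCentralSeries n ≃*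
      ((F ⧸ W) × F) ⧸ (⊤ : Subgroup ((F ⧸ W) × F)).lowerCentralSeries n) := by
  have h1 := comap_lcs L W hWL (inf_lcs_le L hperf hl) n
  let m : (Fib L W hWL) ⧸ (⊤ : Subgroup (Fib L W hWL)).lowerCentralSeries n →*
      ((F ⧸ W) × F) ⧸ (⊤ : Subgroup ((F ⧸ W) × F)).lowerCentralSeries n :=
    QuotientGroup.map _ _ (Fib L W hWL).subtype h1.ge
  refine ⟨MulEquiv.ofBijective m ⟨?_, ?_⟩⟩
  · rw [← MonoidHom.ker_eq_bot_iff, eq_bot_iff]
    intro x hx
    obtain ⟨y, rfl⟩ := QuotientGroup.mk_surjective x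
    have h2 : (((Fib L W hWL).subtype y : (F ⧸ W) × F) :
        ((F ⧸ W) × F) ⧸ (⊤ : Subgroup ((F ⧸ W) × F)).lowerCentralSeries n) = 1 := hx
    rw [QuotientGroup.eq_one_iff] at h2
    rw [Subgroup.mem_bot, QuotientGroup.eq_one_iff, ← h1]
    exact h2
  · intro x
    obtain ⟨p, rfl⟩ := QuotientGroup.mk_surjective x
    obtain ⟨g, hg⟩ := exists_fib L W hWL (sup_lcs_eq_top L hperf) n p
    refine ⟨(g : (Fib L W hWL) ⧸ (⊤ : Subgroup (Fib L W hWL)).lowerCentralSeries n), ?_⟩
    change (((g : (F ⧸ W) × F)) :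
        ((F ⧸ W) × F) ⧸ (⊤ : Subgroup ((F ⧸ W) × F)).lowerCentralSeries n) = p
    exact QuotientGroup.eq.mpr hg

end Fibre

end Pool.Agent.Helper189.Genus
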