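import Mathlib
import Pool.Agent.Helper189.FreeRep

/-! Residual torsion-free nilpotence from congruence representations. -/

namespace Pool.Agent.Helper189.Rtfn

open Matrix Polynomial
open scoped commutatorElement
open Pool.Agent.Helper189.Cong

variable {m : ℕ}

/-- The scalar matrix of the variable. -/
noncomputable def S (m : ℕ) : Matrix (Fin m) (Fin m) ℤ[X] := Matrix.scalar (Fin m) X

theorem S_comm (a : Matrix (Fin m) (Fin m) ℤ[X]) : S m * a = a * S m :=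
  (Matrix.scalar_commute X (fun _ => Commute.all _ _) a)

theorem S_pow_mul (k : ℕ) (a : Matrix (Fin m) (Fin m) ℤ[X]) :
    S m ^ k * a = (X ^ k : ℤ[X]) • a := by
  rw [S, ← map_pow]
  simp [Matrix.scalar_apply, Matrix.smul_eq_diagonal_mul]

theorem mem_cong_iff {k : ℕ} {u : (Matrix (Fin m) (Fin m) ℤ[X])ˣ} :
    u ∈ cong (S m) S_comm k ↔
      ∀ i j, (X ^ k : ℤ[X]) ∣ (u : Matrix (Fin m) (Fin m) ℤ[X]) i j
        - (1 : Matrix (Fin m) (Fin m) ℤ[X]) i j := by
  constructor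
  · rintro ⟨x, hx⟩ i j
    refine ⟨x i j, ?_⟩
    rw [hx, S_pow_mul]
    simp
  · intro h
    choose x hx using h
    refine ⟨Matrix.of x, ?_⟩
    rw [S_pow_mul]
    ext i j : 2
    have := hx i j
    simp only [Matrix.add_apply, Matrix.smul_apply, Matrix.of_apply, smul_eq_mul]
    rw [← this]
    ring

theorem pow_formula {i : ℕ} (hi : 1 ≤ i) (x : Matrix (Fin m) (Fin m) ℤ[X]) (n : ℕ) :
    ∃ y : Matrix (Fin m) (Fin m) ℤ[X], (1 + S m ^ i * x) ^ n
      = 1 + S m ^ i * ((n : Matrix (Fin m) (Fin m) ℤ[X]) * x) + S m ^ (i + 1) * y := by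
  induction n with
  | zero => exact ⟨0, by simp⟩
  | succ n ih =>
    obtain ⟨y, hy⟩ := ih
    obtain ⟨c, rfl⟩ := Nat.exists_eq_add_of_le hi
    refine ⟨y + S m ^ c * ((n : Matrix (Fin m) (Fin m) ℤ[X]) * x * x) + S m ^ (1 + c) * (y * x), ?_⟩
    rw [pow_succ, hy]
    have e1 : ∀ (k : ℕ) (a : Matrix (Fin m) (Fin m) ℤ[X]), a * S m ^ k = S m ^ k * a :=
      fun k a => (pow_comm' S_comm k a).symm
    have e2 : S m ^ (1 + c) * ((n : Matrix (Fin m) (Fin m) ℤ[X]) * x) * (S m ^ (1 + c) * x)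
        = S m ^ (1 + c + 1) * (S m ^ c * ((n : Matrix (Fin m) (Fin m) ℤ[X]) * x * x)) := by
      calc S m ^ (1 + c) * ((n : Matrix (Fin m) (Fin m) ℤ[X]) * x) * (S m ^ (1 + c) * x)
          = S m ^ (1 + c) * (((n : Matrix (Fin m) (Fin m) ℤ[X]) * x) * S m ^ (1 + c)) * x := by
            noncomm_ring
        _ = S m ^ (1 + c) * S m ^ (1 + c) * ((n : Matrix (Fin m) (Fin m) ℤ[X]) * x * x) := by
            rw [e1]; simp only [mul_assoc]
        _ = S m ^ (1 + c + 1) * S m ^ c * ((n : Matrix (Fin m) (Fin m) ℤ[X]) * x * x) := by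
            rw [← pow_add, ← pow_add]
            have : 1 + c + (1 + c) = 1 + c + 1 + c := by omega
            rw [this]
        _ = _ := by rw [mul_assoc]
    have e3 : S m ^ (1 + c + 1) * y * (S m ^ (1 + c) * x)
        = S m ^ (1 + c + 1) * (S m ^ (1 + c) * (y * x)) := by
      calc S m ^ (1 + c + 1) * y * (S m ^ (1 + c) * x)
          = S m ^ (1 + c + 1) * (y * S m ^ (1 + c)) * x := by simp only [mul_assoc]
        _ = _ := by rw [e1]; simp only [mul_assoc]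
    calc (1 + S m ^ (1 + c) * ((n : Matrix (Fin m) (Fin m) ℤ[X]) * x) + S m ^ (1 + c + 1) * y)
          * (1 + S m ^ (1 + c) * x)
        = 1 + S m ^ (1 + c) * ((n : Matrix (Fin m) (Fin m) ℤ[X]) * x) + S m ^ (1 + c + 1) * y
          + S m ^ (1 + c) * x
          + S m ^ (1 + c) * ((n : Matrix (Fin m) (Fin m) ℤ[X]) * x) * (S m ^ (1 + c) * x)
          + S m ^ (1 + c + 1) * y * (S m ^ (1 + c) * x) := by noncomm_ring
      _ = _ := by rw [e2, e3]; push_cast; noncomm_ring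

theorem dvd_of_natCast_mul {n : ℕ} (hn : n ≠ 0) {p : ℤ[X]} (h : X ∣ (n : ℤ[X]) * p) : X ∣ p := by
  rw [Polynomial.X_dvd_iff] at h ⊢
  rw [Polynomial.natCast_mul, Polynomial.coeff_smul] at h
  simpa [hn] using h

theorem torsion_step {i n : ℕ} (hi : 1 ≤ i) (hn : n ≠ 0) {u : (Matrix (Fin m) (Fin m) ℤ[X])ˣ}
    (h : u ∈ cong (S m) S_comm i) (h2 : u ^ n ∈ cong (S m) S_comm (i + 1)) :
    u ∈ cong (S m) S_comm (i + 1) := by
  obtain ⟨x, hx⟩ := h
  obtain ⟨z, hz⟩ := h2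
  obtain ⟨y, hy⟩ := pow_formula hi x n
  rw [Units.val_pow_eq_pow_val, hx, hy] at hz
  rw [mem_cong_iff]
  intro a b
  have h3 : S m ^ i * ((n : Matrix (Fin m) (Fin m) ℤ[X]) * x) = S m ^ (i + 1) * (z - y) := by
    have : S m ^ i * ((n : Matrix (Fin m) (Fin m) ℤ[X]) * x)
      = (1 + S m ^ i * ((n : Matrix (Fin m) (Fin m) ℤ[X]) * x) + S m ^ (i + 1) * y)
        - 1 - S m ^ (i + 1) * y := by noncomm_ring
    rw [this, hz]; noncomm_ring
  rw [S_pow_mul, S_pow_mul] at h3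
  have h4 := congrFun (congrFun h3 a) b
  have h5 : ((n : Matrix (Fin m) (Fin m) ℤ[X]) * x) a b = (n : ℤ[X]) * x a b := by
    rw [← nsmul_eq_mul, Matrix.smul_apply, nsmul_eq_mul]
  simp only [Matrix.smul_apply, smul_eq_mul, h5] at h4
  have h6 : (n : ℤ[X]) * x a b = X * (z - y) a b := by
    have hX : (X ^ i : ℤ[X]) ≠ 0 := pow_ne_zero _ Polynomial.X_ne_zero
    apply mul_left_cancel₀ hX
    rw [h4]; ring
  have h7 : X ∣ x a b := dvd_of_natCast_mul hn ⟨_, h6⟩
  obtain ⟨w, hw⟩ := h7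
  refine ⟨w, ?_⟩
  rw [hx, S_pow_mul]
  simp only [Matrix.add_apply, Matrix.smul_apply, smul_eq_mul, hw]
  ring

theorem torsion_free {k n : ℕ} (hn : n ≠ 0) {u : (Matrix (Fin m) (Fin m) ℤ[X])ˣ}
    (h : u ∈ cong (S m) S_comm 1) (h2 : u ^ n ∈ cong (S m) S_comm (k + 1)) :
    u ∈ cong (S m) S_comm (k + 1) := by
  induction k with
  | zero => exact h
  | succ k ih =>
    exact torsion_step (Nat.le_add_left 1 k) hn (ih (cong_antitone (Nat.le_succ _) h2)) h2

theorem eq_one_of_forall_mem {u : (Matrix (Fin m) (Fin m) ℤ[X])ˣ}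
    (h : ∀ k, u ∈ cong (S m) S_comm k) : u = 1 := by
  ext i j : 2
  have hz : (u : Matrix (Fin m) (Fin m) ℤ[X]) i j - (1 : Matrix (Fin m) (Fin m) ℤ[X]) i j = 0 := by
    ext n
    have := (Polynomial.X_pow_dvd_iff.mp (mem_cong_iff.mp (h (n + 1)) i j)) n (Nat.lt_succ_self n)
    simpa using this
  have := sub_eq_zero.mp hz
  rw [this]
  simp

/-- Residually torsion-free nilpotent groups. -/
def RTFN (G : Type*) [Group G] : Prop :=
  ∀ g : G, g ≠ 1 → ∃ N : Subgroup G, ∃ _ : N.Normal, g ∉ N ∧ Group.IsNilpotent (G ⧸ N) ∧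
    ∀ (x : G ⧸ N) (n : ℕ), n ≠ 0 → x ^ n = 1 → x = 1

/-- The witness for one element. -/
def Sep {G : Type*} [Group G] (g : G) : Prop :=
  ∃ N : Subgroup G, ∃ _ : N.Normal, g ∉ N ∧ Group.IsNilpotent (G ⧸ N) ∧
    ∀ (x : G ⧸ N) (n : ℕ), n ≠ 0 → x ^ n = 1 → x = 1

theorem sep_of_rep {G : Type*} [Group G] (f : G →* (Matrix (Fin m) (Fin m) ℤ[X])ˣ)
    (hf : ∀ g, f g ∈ cong (S m) S_comm 1) {g : G} (hg : f g ≠ 1) : Sep g := by
  have h : ∃ k, f g ∉ cong (S m) S_comm k := by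
    by_contra hcon
    push Not at hcon
    exact hg (eq_one_of_forall_mem hcon)
  obtain ⟨k, hk⟩ := h
  have hk' : f g ∉ cong (S m) S_comm (k + 1) := fun h => hk (cong_antitone (Nat.le_succ k) h)
  refine ⟨(cong (S m) S_comm (k + 1)).comap f, inferInstance, hk', ?_, ?_⟩
  · rw [Subgroup.nilpotent_iff_lowerCentralSeries]
    refine ⟨k, ?_⟩
    have h1 := Subgroup.map_lowerCentralSeries (⊤ : Subgroup G)
      (QuotientGroup.mk' ((cong (S m) S_comm (k + 1)).comap f)) k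
    rw [← MonoidHom.range_eq_map, QuotientGroup.range_mk'] at h1
    rw [← h1, Subgroup.map_eq_bot_iff, QuotientGroup.ker_mk']
    exact lcs_le f hf k
  · intro x n hn hx
    obtain ⟨y, rfl⟩ := QuotientGroup.mk_surjective x
    rw [← QuotientGroup.mk_pow, QuotientGroup.eq_one_iff, Subgroup.mem_comap, map_pow] at hx
    rw [QuotientGroup.eq_one_iff, Subgroup.mem_comap]
    exact torsion_free hn (hf y) hx

theorem Sep.comap {G H : Type*} [Group G] [Group H] (f : G →* H) {g : G} (h : Sep (f g)) :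
    Sep g := by
  obtain ⟨N, hN, hg, hnil, htf⟩ := h
  let q : G ⧸ N.comap f →* H ⧸ N := QuotientGroup.map _ _ f le_rfl
  have hq : Function.Injective q := by
    rw [← MonoidHom.ker_eq_bot_iff, eq_bot_iff]
    intro x hx
    obtain ⟨y, rfl⟩ := QuotientGroup.mk_surjective x
    rw [MonoidHom.mem_ker] at hx
    have h1 : ((f y : H) : H ⧸ N) = 1 := hx
    rw [QuotientGroup.eq_one_iff] at h1
    rw [Subgroup.mem_bot, QuotientGroup.eq_one_iff]
    exact h1
  refine ⟨N.comap f, inferInstance, hg, ?_, ?_⟩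
  · refine Subgroup.isNilpotent_of_ker_le_center q ?_
    rw [(MonoidHom.ker_eq_bot_iff q).mpr hq]
    exact bot_le
  · intro x n hn hx
    apply hq
    rw [map_one]
    exact htf _ n hn (by rw [← map_pow, hx, map_one])

end Pool.Agent.Helper189.Rtfn
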