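import Mathlib
import Pool.Agent.Helper189.Rtfn

/-! A congruence version of the Heisenberg group. -/

namespace Pool.Agent.Helper189.Heis

open scoped commutatorElement
open Matrix Polynomial
open Pool.Agent.Helper189 Rtfn Cong

abbrev Mat3 : Type := Matrix (Fin 3) (Fin 3) ℤ[X]

theorem single_sq {i j : Fin 3} (h : i ≠ j) (a b : ℤ[X]) :
    (Matrix.single i j a : Mat3) * Matrix.single i j b = 0 :=
  Matrix.single_mul_single_of_ne _ _ _ _ h.symm _

/-- Elementary matrix as a unit. -/
noncomputable def el (i j : Fin 3) (h : i ≠ j) (a : ℤ[X]) : Mat3ˣ where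
  val := 1 + Matrix.single i j a
  inv := 1 - Matrix.single i j a
  val_inv := by
    have := single_sq h a a
    calc (1 + Matrix.single i j a : Mat3) * (1 - Matrix.single i j a)
        = 1 - Matrix.single i j a * Matrix.single i j a := by noncomm_ring
      _ = 1 := by rw [this]; simp
  inv_val := by
    have := single_sq h a a
    calc (1 - Matrix.single i j a : Mat3) * (1 + Matrix.single i j a)
        = 1 - Matrix.single i j a * Matrix.single i j a := by noncomm_ring
      _ = 1 := by rw [this]; simp

theorem el_commute {i j k l : Fin 3} (hij : i ≠ j) (hkl : k ≠ l) (hjk : j ≠ k) (hil : i ≠ l)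
    (a b : ℤ[X]) : Commute (el i j hij a) (el k l hkl b) := by
  change el i j hij a * el k l hkl b = el k l hkl b * el i j hij a
  ext1
  simp only [el, Units.val_mul]
  have e1 : (Matrix.single i j a : Mat3) * Matrix.single k l b = 0 :=
    Matrix.single_mul_single_of_ne _ _ _ _ hjk _
  have e2 : (Matrix.single k l b : Mat3) * Matrix.single i j a = 0 :=
    Matrix.single_mul_single_of_ne _ _ _ _ hil.symm _
  calc (1 + Matrix.single i j a : Mat3) * (1 + Matrix.single k l b)
      = 1 + Matrix.single i j a + Matrix.single k l b
        + Matrix.single i j a * Matrix.single k l b := by noncomm_ring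
    _ = 1 + Matrix.single i j a + Matrix.single k l b
        + Matrix.single k l b * Matrix.single i j a := by rw [e1, e2]
    _ = _ := by noncomm_ring

/-- The first generator. -/
noncomputable def p : Mat3ˣ := el 0 1 (by decide) X
/-- The second generator. -/
noncomputable def q : Mat3ˣ := el 1 2 (by decide) X
/-- The central element. -/
noncomputable def c : Mat3ˣ := el 0 2 (by decide) (X * X)

theorem comm_pq : ⁅p, q⁆ = c := by
  have e1 : (Matrix.single 0 1 X : Mat3) * Matrix.single 1 2 X = Matrix.single 0 2 (X * X) := by
    rw [Matrix.single_mul_single_same]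
  have e2 : (Matrix.single 1 2 X : Mat3) * Matrix.single 0 1 X = 0 :=
    Matrix.single_mul_single_of_ne _ _ _ _ (by decide) _
  have e3 : (Matrix.single 0 2 (X * X) : Mat3) * Matrix.single 1 2 X = 0 :=
    Matrix.single_mul_single_of_ne _ _ _ _ (by decide) _
  have e4 : (Matrix.single 0 2 (X * X) : Mat3) * Matrix.single 0 1 X = 0 :=
    Matrix.single_mul_single_of_ne _ _ _ _ (by decide) _
  have key : p * q = c * (q * p) := by
    ext1
    simp only [p, q, c, el, Units.val_mul]
    calc (1 + Matrix.single 0 1 X : Mat3) * (1 + Matrix.single 1 2 X)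
        = 1 + Matrix.single 0 1 X + Matrix.single 1 2 X
          + Matrix.single 0 1 X * Matrix.single 1 2 X := by noncomm_ring
      _ = 1 + Matrix.single 0 1 X + Matrix.single 1 2 X + Matrix.single 0 2 (X * X) := by rw [e1]
      _ = 1 + Matrix.single 0 1 X + Matrix.single 1 2 X + Matrix.single 0 2 (X * X)
          + Matrix.single 1 2 X * Matrix.single 0 1 X
          + Matrix.single 0 2 (X * X) * Matrix.single 1 2 X
          + Matrix.single 0 2 (X * X) * Matrix.single 0 1 X
          + Matrix.single 0 2 (X * X) * (Matrix.single 1 2 X * Matrix.single 0 1 X) := by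
            rw [e2, e3, e4]; simp
      _ = _ := by noncomm_ring
  rw [commutatorElement_def, key]
  group

theorem commute_cp : Commute c p := el_commute (by decide) (by decide) (by decide) (by decide) _ _

theorem commute_cq : Commute c q := el_commute (by decide) (by decide) (by decide) (by decide) _ _

theorem el_pow (i j : Fin 3) (h : i ≠ j) (a : ℤ[X]) (n : ℕ) : el i j h a ^ n = el i j h (n * a) := by
  induction n with
  | zero => ext a b; simp [el]
  | succ n ih =>
    rw [pow_succ, ih]
    ext1
    simp only [el, Units.val_mul]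
    have e : (Matrix.single i j (n * a) : Mat3) * Matrix.single i j a = 0 := single_sq h _ _
    have e' : (Matrix.single i j (((n + 1 : ℕ) : ℤ[X]) * a) : Mat3)
        = Matrix.single i j (n * a) + Matrix.single i j a := by
      rw [← Matrix.single_add]; push_cast; congr 1; ring
    rw [e']
    calc (1 + Matrix.single i j (n * a) : Mat3) * (1 + Matrix.single i j a)
        = 1 + Matrix.single i j (n * a) + Matrix.single i j a
          + Matrix.single i j (n * a) * Matrix.single i j a := by noncomm_ring
      _ = _ := by rw [e]; abel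

theorem c_pow_ne_one {n : ℕ} (hn : n ≠ 0) : c ^ n ≠ 1 := by
  intro h
  rw [c, el_pow] at h
  have h1 := congrArg (fun u : Mat3ˣ => (u : Mat3) 0 2) h
  simp [el] at h1
  exact hn h1

theorem c_zpow_eq_one {n : ℤ} (h : c ^ n = 1) : n = 0 := by
  by_contra hn
  apply c_pow_ne_one (n := n.natAbs) (by omega)
  rcases Int.natAbs_eq n with h2 | h2
  · rw [← zpow_natCast, ← h2, h]
  · rw [← zpow_natCast]
    have : ((n.natAbs : ℕ) : ℤ) = -n := by omega
    rw [this, _root_.zpow_neg, h, inv_one]

theorem el_mem (i j : Fin 3) (h : i ≠ j) : el i j h X ∈ cong (S 3) S_comm 1 := by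
  rw [mem_cong_iff]
  intro a b
  simp only [el, Matrix.add_apply, pow_one, add_sub_cancel_left]
  rw [Matrix.single_apply]
  split_ifs
  · exact dvd_rfl
  · exact dvd_zero _

theorem p_mem : p ∈ cong (S 3) S_comm 1 := el_mem _ _ _
theorem q_mem : q ∈ cong (S 3) S_comm 1 := el_mem _ _ _

end Pool.Agent.Helper189.Heis
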