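import Mathlib

/-! The group with generators `X` and one relation `[a, b] = 1` between two of the generators is
residually free. -/

namespace Pool.Agent.Helper189.ResFree

open scoped commutatorElement
open Monoid

/-- Free abelian group of rank two, written multiplicatively. -/
abbrev A : Type := Multiplicative ℤ × Multiplicative ℤ

/-- The homomorphism `(m, n) ↦ u ^ m * v ^ n` for commuting `u`, `v`. -/
def two {G : Type*} [Group G] (u v : G) (h : Commute u v) : A →* G :=
  (zpowersHom G u).noncommCoprod (zpowersHom G v) (fun m n => by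
    simp only [zpowersHom_apply]
    exact (h.zpow_left _).zpow_right _)

theorem two_apply {G : Type*} [Group G] (u v : G) (h : Commute u v) (p : A) :
    two u v h p = u ^ (Multiplicative.toAdd p.1) * v ^ (Multiplicative.toAdd p.2) := by
  simp [two, MonoidHom.noncommCoprod_apply, zpowersHom_apply]

variable {X : Type*} [DecidableEq X]

/-- Map from the free group to the free product of copies of the free abelian group. -/
def theta (a b : X) : FreeGroup X →* CoprodI (fun _ : X => A) :=
  FreeGroup.lift fun x =>
    if x = b then CoprodI.of (M := fun _ : X => A) (i := a) (1, Multiplicative.ofAdd 1)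
    else CoprodI.of (M := fun _ : X => A) (i := x) (Multiplicative.ofAdd 1, 1)

/-- The normal closure of the commutator. -/
def S (a b : X) : Subgroup (FreeGroup X) :=
  Subgroup.normalClosure {⁅FreeGroup.of a, FreeGroup.of b⁆}

instance (a b : X) : (S a b).Normal := Subgroup.normalClosure_normal

theorem commute_mk (a b : X) :
    Commute ((FreeGroup.of a : FreeGroup X) : FreeGroup X ⧸ S a b)
      ((FreeGroup.of b : FreeGroup X) : FreeGroup X ⧸ S a b) := by
  rw [← commutatorElement_eq_one_iff_commute]
  have h : ⁅FreeGroup.of a, FreeGroup.of b⁆ ∈ S a b := Subgroup.subset_normalClosure rfl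
  exact (QuotientGroup.eq_one_iff _).mpr h

/-- The map back. -/
def rho (a b : X) : CoprodI (fun _ : X => A) →* FreeGroup X ⧸ S a b :=
  CoprodI.lift fun x =>
    if x = a then two _ _ (commute_mk a b)
    else two ((FreeGroup.of x : FreeGroup X) : FreeGroup X ⧸ S a b) 1 (Commute.one_right _)

theorem rho_theta {a b : X} (hab : a ≠ b) (f : FreeGroup X) :
    rho a b (theta a b f) = (f : FreeGroup X ⧸ S a b) := by
  have h : (rho a b).comp (theta a b) = QuotientGroup.mk' (S a b) := by
    apply FreeGroup.ext_hom
    intro x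
    rw [MonoidHom.comp_apply, theta, FreeGroup.lift_apply_of, QuotientGroup.mk'_apply]
    by_cases hx : x = b
    · rw [if_pos hx, rho, CoprodI.lift_of, if_pos rfl, two_apply, hx]
      simp
    · rw [if_neg hx, rho, CoprodI.lift_of]
      by_cases hxa : x = a
      · rw [if_pos hxa, two_apply, hxa]
        simp
      · rw [if_neg hxa, two_apply]
        simp
  exact DFunLike.congr_fun h f

theorem theta_ne_one {a b : X} (hab : a ≠ b) {f : FreeGroup X} (hf : f ∉ S a b) :
    theta a b f ≠ 1 := by
  intro h
  apply hf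
  rw [← QuotientGroup.eq_one_iff, ← rho_theta hab, h, map_one]

theorem theta_comm (a b : X) (hab : a ≠ b) :
    theta a b ⁅FreeGroup.of a, FreeGroup.of b⁆ = 1 := by
  rw [map_commutatorElement, theta, FreeGroup.lift_apply_of, FreeGroup.lift_apply_of, if_pos rfl,
    if_neg hab, ← map_commutatorElement]
  have : ⁅((Multiplicative.ofAdd 1, 1) : A), ((1, Multiplicative.ofAdd 1) : A)⁆ = 1 :=
    commutatorElement_eq_one_iff_mul_comm.mpr (mul_comm _ _)
  rw [this, map_one]

/-- The generator of the free group of rank one. -/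
abbrev u : FreeGroup Unit := FreeGroup.of ()

/-- The map `(m, n) ↦ m + N * n`. -/
def lam (N : ℤ) : A →* FreeGroup Unit := two u (u ^ N) ((Commute.refl u).zpow_right N)

theorem lam_apply (N : ℤ) (p : A) :
    lam N p = u ^ (Multiplicative.toAdd p.1 + N * Multiplicative.toAdd p.2) := by
  rw [lam, two_apply, ← zpow_mul, ← zpow_add]

theorem u_zpow_eq_one {n : ℤ} (h : u ^ n = 1) : n = 0 := by
  have h1 : (FreeGroup.lift (fun _ : Unit => Multiplicative.ofAdd (1 : ℤ))) (u ^ n) = 1 := by
    rw [h, map_one]
  rw [map_zpow, FreeGroup.lift_apply_of] at h1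
  have h2 := congrArg Multiplicative.toAdd h1
  simpa using h2

theorem exists_good (l : List A) (hl : ∀ p ∈ l, p ≠ 1) : ∃ N : ℤ, ∀ p ∈ l, lam N p ≠ 1 := by
  have key : ∃ N0 : ℤ, 0 ≤ N0 ∧ ∀ N : ℤ, N0 < N → ∀ p ∈ l, lam N p ≠ 1 := by
    induction l with
    | nil => exact ⟨0, le_rfl, fun N _ p hp => by simp at hp⟩
    | cons q l ih =>
      obtain ⟨N0, h0, hN0⟩ := ih (fun p hp => hl p (List.mem_cons_of_mem _ hp))
      refine ⟨max N0 |Multiplicative.toAdd q.1|, le_max_of_le_left h0, ?_⟩
      intro N hN p hp
      rw [List.mem_cons] at hp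
      rcases hp with rfl | hp
      · intro h
        rw [lam_apply] at h
        have h1 := u_zpow_eq_one h
        have h2 : |Multiplicative.toAdd p.1| < N := lt_of_le_of_lt (le_max_right _ _) hN
        have h3 : Multiplicative.toAdd p.2 = 0 := by
          by_contra hne
          have h4 : (1 : ℤ) ≤ |Multiplicative.toAdd p.2| := Int.one_le_abs hne
          have h5 : Multiplicative.toAdd p.1 = -(N * Multiplicative.toAdd p.2) := by linarith
          rw [h5, abs_neg, abs_mul] at h2
          have h6 : N ≤ |N| := le_abs_self N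
          nlinarith [abs_nonneg N]
        rw [h3, mul_zero, add_zero] at h1
        apply hl p (List.mem_cons_self)
        ext
        · exact h1
        · exact h3
      · exact hN0 N (lt_of_le_of_lt (le_max_left _ _) hN) p hp
  obtain ⟨N0, _, h⟩ := key
  exact ⟨N0 + 1, h (N0 + 1) (by omega)⟩

/-- The induced map of free products. -/
def Lam (N : ℤ) : CoprodI (fun _ : X => A) →* CoprodI (fun _ : X => FreeGroup Unit) :=
  CoprodI.lift fun x => (CoprodI.of (M := fun _ : X => FreeGroup Unit) (i := x)).comp (lam N)

theorem exists_Lam_ne_one {w : CoprodI (fun _ : X => A)} (hw : w ≠ 1) : ∃ N : ℤ, Lam N w ≠ 1 := by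
  let W : CoprodI.Word (fun _ : X => A) := CoprodI.Word.equiv w
  have hW : W.prod = w := CoprodI.Word.equiv.symm_apply_apply w
  have hne : W.toList ≠ [] := by
    intro h
    apply hw
    rw [← hW, CoprodI.Word.prod, h]
    simp
  obtain ⟨N, hN⟩ := exists_good (W.toList.map fun l => l.2) (by
    intro p hp
    rw [List.mem_map] at hp
    obtain ⟨l, hl, rfl⟩ := hp
    exact W.ne_one l hl)
  refine ⟨N, ?_⟩
  let W' : CoprodI.Word (fun _ : X => FreeGroup Unit) :=
    { toList := W.toList.map fun l => ⟨l.1, lam N l.2⟩
      ne_one := by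
        intro l hl
        rw [List.mem_map] at hl
        obtain ⟨l0, hl0, rfl⟩ := hl
        exact hN _ (List.mem_map.mpr ⟨l0, hl0, rfl⟩)
      chain_ne := by
        rw [List.isChain_map]
        exact W.chain_ne }
  have hprod : W'.prod = Lam N w := by
    rw [← hW, CoprodI.Word.prod, CoprodI.Word.prod, map_list_prod, List.map_map, List.map_map]
    congr 1
  rw [← hprod]
  intro h
  have h1 : W' = CoprodI.Word.empty := by
    have h2 : CoprodI.Word.equiv W'.prod = CoprodI.Word.equiv 1 := by rw [h]
    have h3 : CoprodI.Word.equiv W'.prod = W' := CoprodI.Word.equiv.apply_symm_apply W'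
    have h4 : CoprodI.Word.equiv (1 : CoprodI (fun _ : X => FreeGroup Unit)) = CoprodI.Word.empty := by
      change (1 : CoprodI (fun _ : X => FreeGroup Unit)) • CoprodI.Word.empty = _
      rw [one_smul]
    rw [← h3, h2, h4]
  have h2 : W'.toList = [] := by rw [h1]; rfl
  have h3 : W.toList.map (fun l => (⟨l.1, lam N l.2⟩ : (_ : X) × FreeGroup Unit)) = [] := h2
  exact hne (List.map_eq_nil_iff.mp h3)

theorem exists_hom {a b : X} (hab : a ≠ b) {f : FreeGroup X} (hf : f ∉ S a b) :
    ∃ φ : FreeGroup X →* FreeGroup X, φ ⁅FreeGroup.of a, FreeGroup.of b⁆ = 1 ∧ φ f ≠ 1 := by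
  obtain ⟨N, hN⟩ := exists_Lam_ne_one (theta_ne_one hab hf)
  refine ⟨(freeGroupEquivCoprodI.symm.toMonoidHom.comp (Lam N)).comp (theta a b), ?_, ?_⟩
  · simp only [MonoidHom.comp_apply, theta_comm a b hab, map_one]
  · intro h
    apply hN
    apply freeGroupEquivCoprodI.symm.injective
    rw [map_one]
    exact h

end Pool.Agent.Helper189.ResFree
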