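import Mathlib

/-! A superperfect group given by Steinberg relations, with a central commutator of infinite
order. -/

namespace Pool.Agent.Helper189.Stein

open scoped commutatorElement

/-- The index pairs of the root subgroups which are kept. -/
def V (i j : Fin 7) : Prop := i ≠ j ∧ i ≠ 6 ∧ j ≠ 0

instance : ∀ i j, Decidable (V i j) := fun i j => by unfold V; infer_instance

/-- The Steinberg relations for a family of elements of a group. -/
structure Rels {E : Type*} [Group E] (y : Fin 7 → Fin 7 → E) : Prop where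
  triv : ∀ i j, ¬ V i j → y i j = 1
  comm : ∀ i j k l, V i j → V k l → j ≠ k → i ≠ l → ⁅y i j, y k l⁆ = 1
  mul : ∀ i j l, V i j → V j l → i ≠ l → ⁅y i j, y j l⁆ = y i l

theorem exists_mid (i j k l : Fin 7) : ∃ m : Fin 7, m ≠ 0 ∧ m ≠ 6 ∧ m ≠ i ∧ m ≠ j ∧ m ≠ k ∧ m ≠ l := by
  have h : ({0, 6, i, j, k, l} : Finset (Fin 7)).card < (Finset.univ : Finset (Fin 7)).card := by
    refine lt_of_le_of_lt (Finset.card_le_six) ?_
    simp
  obtain ⟨m, _, hm⟩ := Finset.exists_mem_notMem_of_card_lt_card h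
  simp only [Finset.mem_insert, Finset.mem_singleton, not_or] at hm
  exact ⟨m, hm.1, hm.2.1, hm.2.2.1, hm.2.2.2.1, hm.2.2.2.2.1, hm.2.2.2.2.2⟩

section Central

variable {E : Type*} [Group E] {C : Subgroup E}

theorem comm_left_of_central (hC : C ≤ Subgroup.center E) {c : E} (hc : c ∈ C) (u v : E) :
    ⁅c * u, v⁆ = ⁅u, v⁆ := by
  have h := Subgroup.mem_center_iff.mp (hC hc)
  rw [commutatorElement_def, commutatorElement_def, mul_inv_rev]
  calc c * u * v * (u⁻¹ * c⁻¹) * v⁻¹ = c * (u * v * u⁻¹) * c⁻¹ * v⁻¹ := by group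
    _ = (u * v * u⁻¹) * c * c⁻¹ * v⁻¹ := by rw [h (u * v * u⁻¹)]
    _ = _ := by group

theorem comm_right_of_central (hC : C ≤ Subgroup.center E) {c : E} (hc : c ∈ C) (u v : E) :
    ⁅u, c * v⁆ = ⁅u, v⁆ := by
  have h := Subgroup.mem_center_iff.mp (hC hc)
  rw [commutatorElement_def, commutatorElement_def, mul_inv_rev]
  calc u * (c * v) * u⁻¹ * (v⁻¹ * c⁻¹) = (u * c) * (v * u⁻¹ * v⁻¹) * c⁻¹ := by group
    _ = (c * u) * (v * u⁻¹ * v⁻¹) * c⁻¹ := by rw [h u]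
    _ = c * (u * v * u⁻¹ * v⁻¹) * c⁻¹ := by group
    _ = (u * v * u⁻¹ * v⁻¹) * c * c⁻¹ := by rw [h (u * v * u⁻¹ * v⁻¹)]
    _ = _ := by group

/-- Commutators only depend on the classes modulo a central subgroup. -/
theorem comm_congr (hC : C ≤ Subgroup.center E) {u u' v v' : E} (hu : u * u'⁻¹ ∈ C)
    (hv : v * v'⁻¹ ∈ C) : ⁅u, v⁆ = ⁅u', v'⁆ := by
  have h1 : u = (u * u'⁻¹) * u' := by group
  have h2 : v = (v * v'⁻¹) * v' := by group
  rw [h1, h2, comm_left_of_central hC hu, comm_right_of_central hC hv]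

/-- If `u` and `v` commute with `w` modulo a central subgroup then their commutator commutes
with `w`. -/
theorem comm_comm_eq_one (hC : C ≤ Subgroup.center E) {u v w : E} (hu : ⁅u, w⁆ ∈ C)
    (hv : ⁅v, w⁆ ∈ C) : ⁅⁅u, v⁆, w⁆ = 1 := by
  have h1 : w * u * w⁻¹ = ⁅u, w⁆⁻¹ * u := by rw [commutatorElement_def]; group
  have h2 : w * v * w⁻¹ = ⁅v, w⁆⁻¹ * v := by rw [commutatorElement_def]; group
  have h3 : w * ⁅u, v⁆ * w⁻¹ = ⁅w * u * w⁻¹, w * v * w⁻¹⁆ := by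
    simp only [commutatorElement_def]; group
  rw [h1, h2, comm_left_of_central hC (inv_mem hu), comm_right_of_central hC (inv_mem hv)] at h3
  rw [commutatorElement_eq_one_iff_mul_comm]
  have h4 : w * ⁅u, v⁆ = ⁅u, v⁆ * w := mul_inv_eq_iff_eq_mul.mp h3
  exact h4.symm

end Central

/-- The group relation used to compare two commutators. -/
theorem triple {E : Type*} [Group E] {u v w q : E} (hq : ⁅v, w⁆ = q) (huw : ⁅u, w⁆ = 1)
    (hqv : ⁅q, v⁆ = 1) (hru : ⁅⁅u, q⁆, u⁆ = 1) (hrv : ⁅⁅u, q⁆, v⁆ = 1) (hrq : ⁅⁅u, q⁆, q⁆ = 1) :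
    ⁅⁅u, v⁆, w⁆ = ⁅u, q⁆ := by
  rw [commutatorElement_eq_one_iff_mul_comm] at huw hqv hru hrv hrq
  set r := ⁅u, q⁆ with hr
  have h1 : w * v * w⁻¹ = q⁻¹ * v := by
    rw [← hq, commutatorElement_def]; group
  have h2 : w * u * w⁻¹ = u := by rw [← huw]; group
  have h3 : w * ⁅u, v⁆ * w⁻¹ = ⁅u, q⁻¹ * v⁆ := by
    have : w * ⁅u, v⁆ * w⁻¹ = ⁅w * u * w⁻¹, w * v * w⁻¹⁆ := by
      simp only [commutatorElement_def]; group
    rw [this, h1, h2]
  have h4 : ⁅⁅u, v⁆, w⁆ = ⁅u, v⁆ * (w * ⁅u, v⁆ * w⁻¹)⁻¹ := by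
    rw [commutatorElement_def ⁅u, v⁆ w]; group
  rw [h4, h3, commutatorElement_def, commutatorElement_def]
  have h5 : u * q * u⁻¹ = r * q := by rw [hr, commutatorElement_def]; group
  have h6 : u⁻¹ * q * u = r⁻¹ * q := by
    have e1 : q = u⁻¹ * (r * q) * u := by rw [← h5]; group
    have e2 : u⁻¹ * (r * q) * u = r * (u⁻¹ * q * u) := by
      have e3 : u⁻¹ * r = r * u⁻¹ := by
        rw [inv_mul_eq_iff_eq_mul, ← mul_assoc, ← hru]; group
      calc u⁻¹ * (r * q) * u = (u⁻¹ * r) * q * u := by group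
        _ = (r * u⁻¹) * q * u := by rw [e3]
        _ = _ := by group
    rw [e2] at e1
    rw [eq_inv_mul_iff_mul_eq]
    exact e1.symm
  have h7 : u⁻¹ * q⁻¹ * u = q⁻¹ * r := by
    have : u⁻¹ * q⁻¹ * u = (u⁻¹ * q * u)⁻¹ := by group
    rw [this, h6]; group
  have h8 : v⁻¹ * q⁻¹ * v = q⁻¹ := by
    have : q⁻¹ * v = v * q⁻¹ := by
      rw [inv_mul_eq_iff_eq_mul, ← mul_assoc, hqv]; group
    rw [mul_assoc, this]; group
  have h9 : v⁻¹ * q = q * v⁻¹ := by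
    rw [inv_mul_eq_iff_eq_mul, ← mul_assoc, ← hqv]; group
  calc u * v * u⁻¹ * v⁻¹ * (u * (q⁻¹ * v) * u⁻¹ * (q⁻¹ * v)⁻¹)⁻¹
      = u * v * u⁻¹ * (v⁻¹ * q⁻¹ * v) * u * (v⁻¹ * q) * u⁻¹ := by group
    _ = u * v * (u⁻¹ * q⁻¹ * u) * q * v⁻¹ * u⁻¹ := by rw [h8, h9]; group
    _ = u * v * (q⁻¹ * (r * q)) * v⁻¹ * u⁻¹ := by rw [h7]; group
    _ = u * (v * r) * v⁻¹ * u⁻¹ := by rw [hrq]; group
    _ = (u * r) * u⁻¹ := by rw [← hrv]; group
    _ = r := by rw [← hru]; group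

/-- Central extensions of the Steinberg relations split. -/
theorem exists_lift {E : Type*} [Group E] {C : Subgroup E} (hC : C ≤ Subgroup.center E)
    (y : Fin 7 → Fin 7 → E)
    (h0 : ∀ i j, ¬ V i j → y i j ∈ C)
    (h1 : ∀ i j k l, V i j → V k l → j ≠ k → i ≠ l → ⁅y i j, y k l⁆ ∈ C)
    (h2 : ∀ i j l, V i j → V j l → i ≠ l → ⁅y i j, y j l⁆ * (y i l)⁻¹ ∈ C) :
    ∃ z : Fin 7 → Fin 7 → E, Rels z ∧ ∀ i j, z i j * (y i j)⁻¹ ∈ C := by
  -- commutation relations hold exactly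
  have hA : ∀ i j k l, V i j → V k l → j ≠ k → i ≠ l → ⁅y i j, y k l⁆ = 1 := by
    intro i j k l hij hkl hjk hil
    obtain ⟨m, hm0, hm6, hmi, hmj, hmk, hml⟩ := exists_mid i j k l
    have him : V i m := ⟨hmi.symm, hij.2.1, hm0⟩
    have hmj' : V m j := ⟨hmj, hm6, hij.2.2⟩
    have e : ⁅y i j, y k l⁆ = ⁅⁅y i m, y m j⁆, y k l⁆ := by
      apply comm_congr hC
      · have := inv_mem (h2 i m j him hmj' hij.1)
        simpa using this
      · simp
    rw [e]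
    exact comm_comm_eq_one hC (h1 i m k l him hkl hmk hil) (h1 m j k l hmj' hkl hjk hml)
  -- independence of the middle index
  have hB : ∀ i j m m', V i j → m ≠ 0 → m ≠ 6 → m ≠ i → m ≠ j → m' ≠ 0 → m' ≠ 6 → m' ≠ i →
      m' ≠ j → ⁅y i m, y m j⁆ = ⁅y i m', y m' j⁆ := by
    intro i j m m' hij hm0 hm6 hmi hmj hm0' hm6' hmi' hmj'
    by_cases hmm : m = m'
    · rw [hmm]
    have Vim : V i m := ⟨hmi.symm, hij.2.1, hm0⟩
    have Vmj : V m j := ⟨hmj, hm6, hij.2.2⟩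
    have Vim' : V i m' := ⟨hmi'.symm, hij.2.1, hm0'⟩
    have Vm'j : V m' j := ⟨hmj', hm6', hij.2.2⟩
    have Vm'm : V m' m := ⟨fun h => hmm h.symm, hm6', hm0⟩
    have e1 : ⁅y i m, y m j⁆ = ⁅⁅y i m', y m' m⁆, y m j⁆ := by
      apply comm_congr hC
      · have := inv_mem (h2 i m' m Vim' Vm'm hmi.symm)
        simpa using this
      · simp
    rw [e1]
    set u := y i m' with hu
    set v := y m' m with hv
    set w := y m j with hw
    have hqC : ⁅v, w⁆ * (y m' j)⁻¹ ∈ C := h2 m' m j Vm'm Vmj hmj'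
    have hrC : ⁅u, ⁅v, w⁆⁆ * (y i j)⁻¹ ∈ C := by
      have : ⁅u, ⁅v, w⁆⁆ = ⁅u, y m' j⁆ := comm_congr hC (by simp) hqC
      rw [this]
      exact h2 i m' j Vim' Vm'j hij.1
    have e2 : ⁅⁅u, v⁆, w⁆ = ⁅u, ⁅v, w⁆⁆ := by
      apply triple rfl
      · exact hA i m' m j Vim' Vmj (fun h => hmm h.symm) hij.1
      · rw [comm_congr hC hqC (show v * v⁻¹ ∈ C by simp)]
        exact hA m' j m' m Vm'j Vm'm hmj'.symm (fun h => hmm h.symm)
      · rw [comm_congr hC hrC (show u * u⁻¹ ∈ C by simp)]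
        exact hA i j i m' hij Vim' hij.1.symm hmi'.symm
      · rw [comm_congr hC hrC (show v * v⁻¹ ∈ C by simp)]
        exact hA i j m' m hij Vm'm hmj'.symm hmi.symm
      · rw [comm_congr hC hrC hqC]
        exact hA i j m' j hij Vm'j hmj'.symm hij.1
    rw [e2]
    exact comm_congr hC (by simp) hqC
  choose mid hmid using fun i j => exists_mid i j i j
  let z : Fin 7 → Fin 7 → E := fun i j => if V i j then ⁅y i (mid i j), y (mid i j) j⁆ else 1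
  have hzV : ∀ i j, V i j → z i j = ⁅y i (mid i j), y (mid i j) j⁆ := fun i j h => if_pos h
  have hzN : ∀ i j, ¬ V i j → z i j = 1 := fun i j h => if_neg h
  have hzC : ∀ i j, z i j * (y i j)⁻¹ ∈ C := by
    intro i j
    by_cases h : V i j
    · rw [hzV i j h]
      obtain ⟨hm0, hm6, hmi, hmj, -, -⟩ := hmid i j
      exact h2 i (mid i j) j ⟨hmi.symm, h.2.1, hm0⟩ ⟨hmj, hm6, h.2.2⟩ h.1
    · rw [hzN i j h, one_mul]
      exact inv_mem (h0 i j h)
  refine ⟨z, ⟨hzN, ?_, ?_⟩, hzC⟩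
  · intro i j k l hij hkl hjk hil
    rw [comm_congr hC (hzC i j) (hzC k l)]
    exact hA i j k l hij hkl hjk hil
  · intro i j l hij hjl hil
    rw [comm_congr hC (hzC i j) (hzC j l)]
    have hV : V i l := ⟨hil, hij.2.1, hjl.2.2⟩
    rw [hzV i l hV]
    obtain ⟨hm0, hm6, hmi, hmj, -, -⟩ := hmid i l
    exact hB i l j (mid i l) hV hij.2.2 hjl.2.1 hij.1.symm hjl.1 hm0 hm6 hmi hmj

end Pool.Agent.Helper189.Stein
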