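import Mathlib
import Pool.Agent.Helper189.Stein

/-! Elementary matrices satisfy the Steinberg relations. -/

namespace Pool.Agent.Helper189.SteinMat

open scoped commutatorElement
open Pool.Agent.Helper189.Stein Matrix

abbrev Mat : Type := Matrix (Fin 7) (Fin 7) ℤ

theorem single_sq {i j : Fin 7} (h : i ≠ j) (a b : ℤ) :
    (Matrix.single i j a : Mat) * Matrix.single i j b = 0 :=
  Matrix.single_mul_single_of_ne _ _ _ _ h.symm _

/-- Elementary matrix as a unit. -/
def el (i j : Fin 7) (h : i ≠ j) (a : ℤ) : Matˣ where
  val := 1 + Matrix.single i j a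
  inv := 1 - Matrix.single i j a
  val_inv := by
    have := single_sq h a a
    calc (1 + Matrix.single i j a : Mat) * (1 - Matrix.single i j a)
        = 1 - Matrix.single i j a * Matrix.single i j a := by noncomm_ring
      _ = 1 := by rw [this]; simp
  inv_val := by
    have := single_sq h a a
    calc (1 - Matrix.single i j a : Mat) * (1 + Matrix.single i j a)
        = 1 - Matrix.single i j a * Matrix.single i j a := by noncomm_ring
      _ = 1 := by rw [this]; simp

/-- The family of elementary matrices. -/
def M (i j : Fin 7) : Matˣ := if h : V i j then el i j h.1 1 else 1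

theorem M_rels : Rels M where
  triv i j h := dif_neg h
  comm i j k l hij hkl hjk hil := by
    rw [commutatorElement_eq_one_iff_mul_comm]
    ext1
    simp only [M, dif_pos hij, dif_pos hkl, el, Units.val_mul]
    have e1 : (Matrix.single i j (1 : ℤ) : Mat) * Matrix.single k l 1 = 0 :=
      Matrix.single_mul_single_of_ne _ _ _ _ hjk _
    have e2 : (Matrix.single k l (1 : ℤ) : Mat) * Matrix.single i j 1 = 0 :=
      Matrix.single_mul_single_of_ne _ _ _ _ hil.symm _
    calc (1 + Matrix.single i j (1 : ℤ) : Mat) * (1 + Matrix.single k l 1)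
        = 1 + Matrix.single i j 1 + Matrix.single k l 1
          + Matrix.single i j 1 * Matrix.single k l 1 := by noncomm_ring
      _ = 1 + Matrix.single i j 1 + Matrix.single k l 1
          + Matrix.single k l 1 * Matrix.single i j 1 := by rw [e1, e2]
      _ = _ := by noncomm_ring
  mul i j l hij hjl hil := by
    have hV : V i l := ⟨hil, hij.2.1, hjl.2.2⟩
    have e1 : (Matrix.single i j (1 : ℤ) : Mat) * Matrix.single j l 1 = Matrix.single i l 1 := by
      rw [Matrix.single_mul_single_same]; simp
    have e2 : (Matrix.single j l (1 : ℤ) : Mat) * Matrix.single i j 1 = 0 :=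
      Matrix.single_mul_single_of_ne _ _ _ _ hil.symm _
    have key : M i j * M j l = M i l * (M j l * M i j) := by
      ext1
      simp only [M, dif_pos hij, dif_pos hjl, dif_pos hV, el, Units.val_mul]
      have e3 : (Matrix.single i l (1 : ℤ) : Mat) * Matrix.single j l 1 = 0 :=
        Matrix.single_mul_single_of_ne _ _ _ _ hjl.1.symm _
      have e4 : (Matrix.single i l (1 : ℤ) : Mat) * Matrix.single i j 1 = 0 :=
        Matrix.single_mul_single_of_ne _ _ _ _ hil.symm _
      calc (1 + Matrix.single i j (1 : ℤ) : Mat) * (1 + Matrix.single j l 1)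
          = 1 + Matrix.single i j 1 + Matrix.single j l 1
            + Matrix.single i j 1 * Matrix.single j l 1 := by noncomm_ring
        _ = 1 + Matrix.single i j 1 + Matrix.single j l 1 + Matrix.single i l 1 := by rw [e1]
        _ = 1 + Matrix.single i j 1 + Matrix.single j l 1 + Matrix.single i l 1
            + Matrix.single j l 1 * Matrix.single i j 1
            + Matrix.single i l 1 * Matrix.single j l 1
            + Matrix.single i l 1 * Matrix.single i j 1
            + Matrix.single i l 1 * (Matrix.single j l 1 * Matrix.single i j 1) := by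
              rw [e2, e3, e4]; simp
        _ = _ := by noncomm_ring
    rw [commutatorElement_def, key]
    group

theorem el_pow (i j : Fin 7) (h : i ≠ j) (n : ℕ) : el i j h 1 ^ n = el i j h n := by
  induction n with
  | zero => ext a b; simp [el]
  | succ n ih =>
    rw [pow_succ, ih]
    ext1
    simp only [el, Units.val_mul]
    have e : (Matrix.single i j (n : ℤ) : Mat) * Matrix.single i j 1 = 0 := single_sq h _ _
    have e' : (Matrix.single i j ((n + 1 : ℕ) : ℤ) : Mat)
        = Matrix.single i j (n : ℤ) + Matrix.single i j 1 := by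
      rw [← Matrix.single_add]; push_cast; rfl
    rw [e']
    calc (1 + Matrix.single i j (n : ℤ) : Mat) * (1 + Matrix.single i j 1)
        = 1 + Matrix.single i j (n : ℤ) + Matrix.single i j 1
          + Matrix.single i j (n : ℤ) * Matrix.single i j 1 := by noncomm_ring
      _ = _ := by rw [e]; abel

theorem M_pow_ne_one {n : ℕ} (hn : n ≠ 0) : M 0 6 ^ n ≠ 1 := by
  intro h
  have hV : V 0 6 := by decide
  rw [M, dif_pos hV, el_pow] at h
  have h1 := congrArg (fun u : Matˣ => (u : Mat) 0 6) h
  simp [el] at h1
  exact hn h1

theorem M_zpow_eq_one {n : ℤ} (h : M 0 6 ^ n = 1) : n = 0 := by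
  by_contra hn
  apply M_pow_ne_one (n := n.natAbs) (by omega)
  rcases Int.natAbs_eq n with h2 | h2
  · rw [← zpow_natCast, ← h2, h]
  · rw [← zpow_natCast]
    have : ((n.natAbs : ℕ) : ℤ) = -n := by omega
    rw [this, _root_.zpow_neg, h, inv_one]

end Pool.Agent.Helper189.SteinMat
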