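import Mathlib
import Pool.Agent.Helper189.Genus
import Pool.Agent.Helper189.Stein
import Pool.Agent.Helper189.SteinMat
import Pool.Agent.Helper189.ResFree
import Pool.Agent.Helper189.Frat
import Pool.Agent.Helper189.Rtfn
import Pool.Agent.Helper189.Heis

/-! Two finitely generated residually torsion-free nilpotent groups of the same genus, one with
trivial and one with nontrivial Frattini subgroup. -/

namespace Pool.Agent.Helper189.FratMain

open scoped commutatorElement
open Pool.Agent.Helper189 Stein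

/-- Index type of the generators. -/
abbrev X : Type := Fin 7 × Fin 7

/-- The free group. -/
abbrev F : Type := FreeGroup X

/-- The generators. -/
def x (i j : Fin 7) : F := FreeGroup.of (i, j)

/-- The relators. -/
def rel : (Fin 7 × Fin 7) ⊕ ((Fin 7 × Fin 7 × Fin 7 × Fin 7) ⊕ (Fin 7 × Fin 7 × Fin 7)) → F
  | Sum.inl (i, j) => if V i j then 1 else x i j
  | Sum.inr (Sum.inl (i, j, k, l)) =>
      if V i j ∧ V k l ∧ j ≠ k ∧ i ≠ l then ⁅x i j, x k l⁆ else 1
  | Sum.inr (Sum.inr (i, j, l)) =>
      if V i j ∧ V j l ∧ i ≠ l then ⁅x i j, x j l⁆ * (x i l)⁻¹ else 1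

/-- The normal closure of the relators. -/
def L : Subgroup F := Subgroup.normalClosure (Set.range rel)

instance : L.Normal := Subgroup.normalClosure_normal

theorem rel_mem (r) : rel r ∈ L := Subgroup.subset_normalClosure ⟨r, rfl⟩

theorem triv_mem {i j : Fin 7} (h : ¬ V i j) : x i j ∈ L := by
  have := rel_mem (Sum.inl (i, j))
  simpa [rel, h] using this

theorem comm_mem {i j k l : Fin 7} (hij : V i j) (hkl : V k l) (hjk : j ≠ k) (hil : i ≠ l) :
    ⁅x i j, x k l⁆ ∈ L := by
  have := rel_mem (Sum.inr (Sum.inl (i, j, k, l)))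
  simpa [rel, hij, hkl, hjk, hil] using this

theorem mul_mem' {i j l : Fin 7} (hij : V i j) (hjl : V j l) (hil : i ≠ l) :
    ⁅x i j, x j l⁆ * (x i l)⁻¹ ∈ L := by
  have := rel_mem (Sum.inr (Sum.inr (i, j, l)))
  simpa [rel, hij, hjl, hil] using this

/-- A family satisfying the Steinberg relations kills `L`. -/
theorem L_le_ker {E : Type*} [Group E] {z : Fin 7 → Fin 7 → E} (hz : Rels z) :
    L ≤ (FreeGroup.lift (fun p : X => z p.1 p.2)).ker := by
  apply Subgroup.normalClosure_le_normal
  rintro _ ⟨r, rfl⟩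
  rw [SetLike.mem_coe, MonoidHom.mem_ker]
  rcases r with ⟨i, j⟩ | ⟨i, j, k, l⟩ | ⟨i, j, l⟩
  · simp only [rel]
    split_ifs with h
    · exact map_one _
    · simp only [x, FreeGroup.lift_apply_of]
      exact hz.triv i j h
  · simp only [rel]
    split_ifs with h
    · simp only [x, map_commutatorElement, FreeGroup.lift_apply_of]
      exact hz.comm i j k l h.1 h.2.1 h.2.2.1 h.2.2.2
    · exact map_one _
  · simp only [rel]
    split_ifs with h
    · simp only [x, map_commutatorElement, map_mul, map_inv, FreeGroup.lift_apply_of]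
      rw [hz.mul i j l h.1 h.2.1 h.2.2, mul_inv_cancel]
    · exact map_one _

/-- The quotient by `L` is perfect. -/
theorem perf : L ⊔ commutator F = ⊤ := by
  rw [eq_top_iff, ← FreeGroup.closure_range_of, Subgroup.closure_le]
  rintro _ ⟨⟨i, j⟩, rfl⟩
  rw [SetLike.mem_coe]
  by_cases h : V i j
  · obtain ⟨m, hm0, hm6, hmi, hmj, -, -⟩ := exists_mid i j i j
    have him : V i m := ⟨hmi.symm, h.2.1, hm0⟩
    have hmj' : V m j := ⟨hmj, hm6, h.2.2⟩
    have h1 := mul_mem' him hmj' h.1
    have h2 : ⁅x i m, x m j⁆ ∈ commutator F := by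
      rw [commutator_def]
      exact Subgroup.commutator_mem_commutator trivial trivial
    have h3 : FreeGroup.of (i, j) = (⁅x i m, x m j⁆ * (x i j)⁻¹)⁻¹ * ⁅x i m, x m j⁆ := by
      rw [x, mul_inv_rev, inv_inv]; group
      rfl
    rw [h3]
    exact mul_mem ((le_sup_left : L ≤ _) (inv_mem h1)) ((le_sup_right : commutator F ≤ _) h2)
  · exact (le_sup_left : L ≤ _) (triv_mem h)

/-- Superperfectness. -/
theorem lifts : Genus.Lifts L := by
  intro n
  induction n with
  | zero =>
    refine ⟨QuotientGroup.mk' _, ?_, ?_⟩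
    · intro l hl
      exact (QuotientGroup.eq_one_iff l).mpr hl
    · intro f
      exact ⟨1, one_mem _, by simp⟩
  | succ n ih =>
    obtain ⟨σ, hσL, hσ⟩ := ih
    -- the projection
    let E := F ⧸ Genus.Mn L (n + 1)
    let p : E →* F ⧸ Genus.Mn L n :=
      QuotientGroup.map _ _ (MonoidHom.id F) (Genus.Mn_succ_le L n)
    have hp : ∀ f : F, p (f : E) = (f : F ⧸ Genus.Mn L n) := fun f => rfl
    have hpsurj : Function.Surjective p := by
      intro y
      obtain ⟨f, rfl⟩ := QuotientGroup.mk_surjective y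
      exact ⟨(f : E), rfl⟩
    have hC : p.ker ≤ Subgroup.center E := by
      intro y hy
      obtain ⟨f, rfl⟩ := QuotientGroup.mk_surjective y
      have hf : f ∈ Genus.Mn L n := (QuotientGroup.eq_one_iff f).mp hy
      rw [Subgroup.mem_center_iff]
      intro w
      obtain ⟨g, rfl⟩ := QuotientGroup.mk_surjective w
      have h1 : ⁅f, g⁆ ∈ Genus.Mn L (n + 1) :=
        Subgroup.commutator_mem_commutator hf trivial
      have h2 : ((⁅f, g⁆ : F) : E) = 1 := (QuotientGroup.eq_one_iff _).mpr h1
      have h3 : ⁅(f : E), (g : E)⁆ = 1 := h2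
      exact (commutatorElement_eq_one_iff_mul_comm.mp h3).symm
    choose y hy using fun i j => hpsurj (σ (x i j))
    obtain ⟨z, hz, hzy⟩ := exists_lift hC y
      (by
        intro i j h
        rw [MonoidHom.mem_ker, hy]
        exact hσL _ (triv_mem h))
      (by
        intro i j k l hij hkl hjk hil
        rw [MonoidHom.mem_ker, map_commutatorElement, hy, hy, ← map_commutatorElement]
        exact hσL _ (comm_mem hij hkl hjk hil))
      (by
        intro i j l hij hjl hil
        rw [MonoidHom.mem_ker, map_mul, map_commutatorElement, map_inv, hy, hy, hy,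
          ← map_commutatorElement, ← map_inv, ← map_mul]
        exact hσL _ (mul_mem' hij hjl hil))
    let τ : F →* E := FreeGroup.lift (fun q : X => z q.1 q.2)
    have hτ : p.comp τ = σ := by
      apply FreeGroup.ext_hom
      rintro ⟨i, j⟩
      rw [MonoidHom.comp_apply, FreeGroup.lift_apply_of]
      have h1 := hzy i j
      rw [MonoidHom.mem_ker, map_mul, map_inv, hy, mul_inv_eq_one] at h1
      exact h1
    refine ⟨τ, fun l hl => L_le_ker hz hl, ?_⟩
    intro f
    obtain ⟨l, hl, h⟩ := hσ f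
    have h1 : p ((τ f)⁻¹ * (f : E) * ((l : F) : E)⁻¹) = 1 := by
      have h2 : p (τ f) = σ f := DFunLike.congr_fun hτ f
      rw [map_mul, map_mul, map_inv, map_inv, h2, hp, hp, h]; group
    obtain ⟨m, hm⟩ := QuotientGroup.mk_surjective ((τ f)⁻¹ * (f : E) * ((l : F) : E)⁻¹)
    rw [← hm] at h1
    have h3 : m ∈ Genus.Mn L n := (QuotientGroup.eq_one_iff m).mp h1
    refine ⟨m * l, mul_mem (Genus.Mn_le L n h3) hl, ?_⟩
    rw [QuotientGroup.mk_mul]
    have h4 : ((m : F) : E) = (τ f)⁻¹ * (f : E) * ((l : F) : E)⁻¹ := hm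
    rw [h4]; group

/-- The commutator which becomes central. -/
def s : F := ⁅x 0 1, x 1 6⁆

/-- Its normal closure. -/
def S : Subgroup F := Subgroup.normalClosure {s}

instance : S.Normal := Subgroup.normalClosure_normal

/-- The commutator of the normal closure with the whole group. -/
def W : Subgroup F := ⁅S, ⊤⁆

instance : W.Normal := by unfold W; infer_instance

theorem s_mem_S : s ∈ S := Subgroup.subset_normalClosure rfl

/-- If `s` maps into the center of the range, then `W` is killed. -/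
theorem W_le_ker {E : Type*} [Group E] (f : F →* E) (h : ∀ g, f s * f g = f g * f s) :
    W ≤ f.ker := by
  have h1 : S ≤ (Subgroup.center f.range).comap f.rangeRestrict := by
    apply Subgroup.normalClosure_le_normal
    rintro _ rfl
    rw [SetLike.mem_coe, Subgroup.mem_comap, Subgroup.mem_center_iff]
    rintro ⟨_, g, rfl⟩
    apply Subtype.ext
    exact (h g).symm
  rw [W, Subgroup.commutator_le]
  intro a ha g _
  have h2 := Subgroup.mem_center_iff.mp (h1 ha) (f.rangeRestrict g)
  rw [MonoidHom.mem_ker, map_commutatorElement, commutatorElement_eq_one_iff_mul_comm]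
  have h3 := congrArg Subtype.val h2
  exact h3.symm

theorem s_eq_mod : ((s : F) : F ⧸ L) = ((x 0 6 : F) : F ⧸ L) := by
  have h := mul_mem' (i := 0) (j := 1) (l := 6) (by decide) (by decide) (by decide)
  rw [← QuotientGroup.eq_one_iff, QuotientGroup.mk_mul, QuotientGroup.mk_inv,
    mul_inv_eq_one] at h
  exact h

theorem s_central (g : F) : ((s : F) : F ⧸ L) * (g : F ⧸ L) = (g : F ⧸ L) * ((s : F) : F ⧸ L) := by
  rw [s_eq_mod]
  have key : ∀ g : F, g ∈ (Subgroup.centralizer {((x 0 6 : F) : F ⧸ L)}).comap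
      (QuotientGroup.mk' L) := by
    intro g
    have : (Subgroup.centralizer {((x 0 6 : F) : F ⧸ L)}).comap (QuotientGroup.mk' L) = ⊤ := by
      rw [eq_top_iff, ← FreeGroup.closure_range_of, Subgroup.closure_le]
      rintro _ ⟨⟨k, l⟩, rfl⟩
      rw [SetLike.mem_coe, Subgroup.mem_comap, Subgroup.mem_centralizer_singleton_iff]
      by_cases h : V k l
      · have h1 := comm_mem (i := 0) (j := 6) (k := k) (l := l) (by decide) h (fun h6 => h.2.1 h6.symm)
          (fun h0 => h.2.2 h0.symm)
        have h2 : ((⁅x 0 6, x k l⁆ : F) : F ⧸ L) = 1 := (QuotientGroup.eq_one_iff _).mpr h1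
        have h3 : ⁅((x 0 6 : F) : F ⧸ L), ((x k l : F) : F ⧸ L)⁆ = 1 := h2
        exact (commutatorElement_eq_one_iff_mul_comm.mp h3).symm
      · have h1 : ((x k l : F) : F ⧸ L) = 1 := (QuotientGroup.eq_one_iff _).mpr (triv_mem h)
        change ((x k l : F) : F ⧸ L) * _ = _ * ((x k l : F) : F ⧸ L)
        rw [h1]; simp
    rw [this]; trivial
  have h := key g
  rw [Subgroup.mem_comap, Subgroup.mem_centralizer_singleton_iff] at h
  exact h.symm

theorem W_le_L : W ≤ L := by
  have h := W_le_ker (QuotientGroup.mk' L) s_central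
  rwa [QuotientGroup.ker_mk'] at h

theorem mem_S {f : F} (hf : f ∈ S) : ∃ k : ℤ, ((s ^ k : F) : F ⧸ W) = (f : F ⧸ W) := by
  have hcen : ((s : F) : F ⧸ W) ∈ Subgroup.center (F ⧸ W) := by
    rw [Subgroup.mem_center_iff]
    intro g
    obtain ⟨g, rfl⟩ := QuotientGroup.mk_surjective g
    have h1 : ⁅s, g⁆ ∈ W := Subgroup.commutator_mem_commutator s_mem_S trivial
    have h2 : ((⁅s, g⁆ : F) : F ⧸ W) = 1 := (QuotientGroup.eq_one_iff _).mpr h1
    have h3 : ⁅((s : F) : F ⧸ W), ((g : F) : F ⧸ W)⁆ = 1 := h2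
    exact (commutatorElement_eq_one_iff_mul_comm.mp h3).symm
  have hn : (Subgroup.zpowers ((s : F) : F ⧸ W)).Normal := by
    constructor
    intro n hn g
    have h1 : n ∈ Subgroup.center (F ⧸ W) :=
      (Subgroup.zpowers_le.mpr hcen) hn
    have h2 := Subgroup.mem_center_iff.mp h1 g
    rw [h2, mul_inv_cancel_right]
    exact hn
  have h : S ≤ (Subgroup.zpowers ((s : F) : F ⧸ W)).comap (QuotientGroup.mk' W) := by
    apply Subgroup.normalClosure_le_normal
    rintro _ rfl
    exact Subgroup.mem_zpowers _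
  obtain ⟨k, hk⟩ := Subgroup.mem_zpowers_iff.mp (h hf)
  exact ⟨k, hk⟩

theorem S_inf_L_le : S ⊓ L ≤ W := by
  intro f hf
  rw [Subgroup.mem_inf] at hf
  obtain ⟨hfS, hfL⟩ := hf
  obtain ⟨k, hk⟩ := mem_S hfS
  have h1 : (s ^ k)⁻¹ * f ∈ W := QuotientGroup.eq.mp hk
  have h2 : s ^ k ∈ L := by
    have h3 : s ^ k = f * ((s ^ k)⁻¹ * f)⁻¹ := by group
    rw [h3]
    exact mul_mem hfL (inv_mem (W_le_L h1))
  have h4 : (FreeGroup.lift (fun p : X => SteinMat.M p.1 p.2)) (s ^ k) = 1 :=
    L_le_ker SteinMat.M_rels h2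
  have h5 : (FreeGroup.lift (fun p : X => SteinMat.M p.1 p.2)) s = SteinMat.M 0 6 := by
    rw [s, x, x, map_commutatorElement, FreeGroup.lift_apply_of, FreeGroup.lift_apply_of]
    exact SteinMat.M_rels.mul 0 1 6 (by decide) (by decide) (by decide)
  rw [map_zpow, h5] at h4
  have h6 := SteinMat.M_zpow_eq_one h4
  rw [h6, zpow_zero, inv_one, one_mul] at h1
  exact h1

/-- The Heisenberg representation. -/
noncomputable def heis : F →* Heis.Mat3ˣ := FreeGroup.lift fun p : X =>
  if p = (0, 1) then Heis.p else if p = (1, 6) then Heis.q else 1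

theorem heis_s : heis s = Heis.c := by
  rw [s, x, x, map_commutatorElement, heis, FreeGroup.lift_apply_of, FreeGroup.lift_apply_of,
    if_pos rfl, if_neg (by decide), if_pos rfl]
  exact Heis.comm_pq

theorem heis_central (g : F) : heis s * heis g = heis g * heis s := by
  rw [heis_s]
  have key : (Subgroup.centralizer {Heis.c}).comap heis = ⊤ := by
    rw [eq_top_iff, ← FreeGroup.closure_range_of, Subgroup.closure_le]
    rintro _ ⟨k, rfl⟩
    rw [SetLike.mem_coe, Subgroup.mem_comap, Subgroup.mem_centralizer_singleton_iff, heis,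
      FreeGroup.lift_apply_of]
    split_ifs
    · exact Heis.commute_cp.symm
    · exact Heis.commute_cq.symm
    · simp
  have h : g ∈ (Subgroup.centralizer {Heis.c}).comap heis := by rw [key]; trivial
  rw [Subgroup.mem_comap, Subgroup.mem_centralizer_singleton_iff] at h
  exact h.symm

theorem heis_mem (g : F) : heis g ∈ Cong.cong (Rtfn.S 3) Rtfn.S_comm 1 := by
  have key : (Cong.cong (Rtfn.S 3) Rtfn.S_comm 1).comap heis = ⊤ := by
    rw [eq_top_iff, ← FreeGroup.closure_range_of, Subgroup.closure_le]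
    rintro _ ⟨k, rfl⟩
    rw [SetLike.mem_coe, Subgroup.mem_comap, heis, FreeGroup.lift_apply_of]
    split_ifs
    · exact Heis.p_mem
    · exact Heis.q_mem
    · exact one_mem _
  have h : g ∈ (Cong.cong (Rtfn.S 3) Rtfn.S_comm 1).comap heis := by rw [key]; trivial
  exact h

theorem s_zpow_mem_W {k : ℤ} (h : s ^ k ∈ W) : k = 0 := by
  have h1 : heis (s ^ k) = 1 := W_le_ker heis heis_central h
  rw [map_zpow, heis_s] at h1
  exact Heis.c_zpow_eq_one h1

end Pool.Agent.Helper189.FratMain
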