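import Mathlib
import Pool.Agent.Helper189.FratMain

/-! End of the construction: finite generation, residual properties, Frattini subgroups. -/

namespace Pool.Agent.Helper189.FratFinal

open scoped commutatorElement
open Pool.Agent.Helper189 FratMain Genus
open Pool.Agent.Helper189.Rtfn (Sep RTFN sep_of_rep)

/-- The fibre product. -/
abbrev G : Type := Fib L W W_le_L

/-- The direct product. -/
abbrev H : Type := (F ⧸ W) × F

theorem fg_H : Group.FG H := inferInstance

theorem one_rel_mem (r) : ((1 : F ⧸ W), rel r) ∈ Fib L W W_le_L := by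
  rw [show (1 : F ⧸ W) = ((1 : F) : F ⧸ W) from rfl, mem_Fib]
  exact ((QuotientGroup.eq_one_iff _).mpr (rel_mem r)).symm

theorem fg_G : Group.FG G := by
  let D : F →* G := diag L W W_le_L
  let K : Subgroup G := Subgroup.closure (Set.range (fun p : X => D (FreeGroup.of p)) ∪
    Set.range (fun r => (⟨((1 : F ⧸ W), rel r), one_rel_mem r⟩ : G)))
  have h1 : ∀ f : F, D f ∈ K := by
    have : K.comap D = ⊤ := by
      rw [eq_top_iff, ← FreeGroup.closure_range_of, Subgroup.closure_le]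
      rintro _ ⟨p, rfl⟩
      exact Subgroup.subset_closure (Or.inl ⟨p, rfl⟩)
    intro f
    have h : f ∈ K.comap D := by rw [this]; trivial
    exact h
  let J : Subgroup F := (K.map (Fib L W W_le_L).subtype).comap (MonoidHom.inr (F ⧸ W) F)
  have hJ : ∀ f, f ∈ J ↔ ∃ h : ((1 : F ⧸ W), f) ∈ Fib L W W_le_L, (⟨((1 : F ⧸ W), f), h⟩ : G) ∈ K := by
    intro f
    constructor
    · rintro ⟨⟨p, hp⟩, hp2, hp3⟩
      have hp4 : p = ((1 : F ⧸ W), f) := hp3
      subst hp4
      exact ⟨hp, hp2⟩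
    · rintro ⟨h, hK⟩
      exact ⟨_, hK, rfl⟩
  have hJn : J.Normal := by
    constructor
    intro f hf g
    obtain ⟨h, hK⟩ := (hJ f).mp hf
    have h2 : D g * ⟨((1 : F ⧸ W), f), h⟩ * (D g)⁻¹ ∈ K := mul_mem (mul_mem (h1 g) hK) (inv_mem (h1 g))
    refine ⟨_, h2, ?_⟩
    ext
    · change (g : F ⧸ W) * 1 * (g : F ⧸ W)⁻¹ = 1
      simp
    · rfl
  have hLJ : L ≤ J := by
    apply Subgroup.normalClosure_le_normal
    rintro _ ⟨r, rfl⟩
    rw [SetLike.mem_coe, hJ]
    exact ⟨one_rel_mem r, Subgroup.subset_closure (Or.inr ⟨r, rfl⟩)⟩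
  have hK : K = ⊤ := by
    rw [eq_top_iff]
    rintro ⟨⟨d, f⟩, hp⟩ _
    obtain ⟨a, rfl⟩ := QuotientGroup.mk_surjective d
    have h2 : (a : F ⧸ L) = (f : F ⧸ L) := (mem_Fib L W W_le_L).mp hp
    have h3 : f * a⁻¹ ∈ L := by
      rw [← QuotientGroup.eq_one_iff, QuotientGroup.mk_mul, QuotientGroup.mk_inv, h2, mul_inv_cancel]
    obtain ⟨h4, h5⟩ := (hJ _).mp (hLJ h3)
    have h6 : (⟨((a : F ⧸ W), f), hp⟩ : G) = ⟨((1 : F ⧸ W), f * a⁻¹), h4⟩ * D a := by
      apply Subtype.ext
      ext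
      · change (a : F ⧸ W) = 1 * (a : F ⧸ W)
        rw [one_mul]
      · change f = f * a⁻¹ * a
        group
    rw [h6]
    exact mul_mem h5 (h1 a)
  rw [Group.fg_iff]
  exact ⟨_, hK, (Set.finite_range _).union (Set.finite_range _)⟩

theorem sep_int {g : FreeGroup ℤ} (hg : g ≠ 1) : Sep g := by
  apply sep_of_rep (m := 2) (FreeRep.rep (Polynomial.X : Polynomial ℤ))
  · exact FreeRep.rep_mem
  · intro h
    exact hg (FreeRep.rep_X_injective (by rw [h, map_one]))

theorem sep_free {ι : Type*} [Countable ι] {g : FreeGroup ι} (hg : g ≠ 1) : Sep g := by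
  obtain ⟨f, hf⟩ := exists_injective_nat ι
  have hinj : Function.Injective (fun i => (f i : ℤ)) := fun a b hab => hf (by simpa using hab)
  apply Rtfn.Sep.comap (FreeGroup.map (fun i => (f i : ℤ)))
  apply sep_int
  intro h
  exact hg (FreeGroup.map_injective hinj (by rw [h, map_one]))

theorem exists_hom {f : F} (hf : f ∉ S) : ∃ φ : F →* F, φ s = 1 ∧ φ f ≠ 1 :=
  ResFree.exists_hom (a := ((0, 1) : X)) (b := ((1, 6) : X)) (by decide) hf

theorem W_le_ker_of_eq_one (φ : F →* F) (h : φ s = 1) : W ≤ φ.ker :=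
  W_le_ker φ (fun g => by rw [h]; simp)

theorem sep_D {d : F ⧸ W} (hd : d ≠ 1) : Sep d := by
  obtain ⟨a, rfl⟩ := QuotientGroup.mk_surjective d
  by_cases ha : a ∈ S
  · obtain ⟨k, hk⟩ := mem_S ha
    let h' : F ⧸ W →* Heis.Mat3ˣ := QuotientGroup.lift W heis
      (fun w hw => W_le_ker heis heis_central hw)
    apply sep_of_rep h'
    · intro g
      obtain ⟨g, rfl⟩ := QuotientGroup.mk_surjective g
      exact heis_mem g
    · intro h
      rw [← hk] at h
      have h1 : heis (s ^ k) = 1 := h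
      rw [map_zpow, heis_s] at h1
      have h2 := Heis.c_zpow_eq_one h1
      apply hd
      rw [← hk, h2, zpow_zero]
      rfl
  · obtain ⟨φ, hφs, hφa⟩ := exists_hom ha
    let φ' : F ⧸ W →* F := QuotientGroup.lift W φ (fun w hw => W_le_ker_of_eq_one φ hφs hw)
    apply Rtfn.Sep.comap φ'
    apply sep_free
    exact hφa

theorem rtfn_H : RTFN H := by
  rintro ⟨d, f⟩ hne
  by_cases hf : f = 1
  · have hd : d ≠ 1 := by
      rintro rfl
      exact hne (by rw [hf]; rfl)
    exact Rtfn.Sep.comap (MonoidHom.fst (F ⧸ W) F) (sep_D hd)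
  · exact Rtfn.Sep.comap (MonoidHom.snd (F ⧸ W) F) (sep_free hf)

theorem rtfn_G : RTFN G := by
  intro g hg
  have h := rtfn_H g.1 (fun h => hg (Subtype.ext h))
  exact Rtfn.Sep.comap (Fib L W W_le_L).subtype h

theorem frattini_G : frattini G = ⊥ := by
  rw [eq_bot_iff]
  rintro ⟨⟨d, f⟩, hp⟩ hg
  rw [Subgroup.mem_bot]
  obtain ⟨a, rfl⟩ := QuotientGroup.mk_surjective d
  have hf : f = 1 := Frat.map_frattini_eq_one
    ((MonoidHom.snd (F ⧸ W) F).comp (Fib L W W_le_L).subtype) hg
  subst hf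
  have haL : a ∈ L := by
    have h2 : (a : F ⧸ L) = ((1 : F) : F ⧸ L) := (mem_Fib L W W_le_L).mp hp
    exact (QuotientGroup.eq_one_iff a).mp h2
  have haS : a ∈ S := by
    by_contra hcon
    obtain ⟨φ, hφs, hφa⟩ := exists_hom hcon
    let φ' : F ⧸ W →* F := QuotientGroup.lift W φ (fun w hw => W_le_ker_of_eq_one φ hφs hw)
    have h3 := Frat.map_frattini_eq_one
      ((φ'.comp (MonoidHom.fst (F ⧸ W) F)).comp (Fib L W W_le_L).subtype) hg
    exact hφa h3
  have haW : a ∈ W := S_inf_L_le (Subgroup.mem_inf.mpr ⟨haS, haL⟩)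
  apply Subtype.ext
  ext
  · exact (QuotientGroup.eq_one_iff a).mpr haW
  · rfl

/-- Central elements of the commutator subgroup lie in the Frattini subgroup. -/
theorem mem_frattini {K : Type*} [Group K] {z : K} (hz : z ∈ Subgroup.center K)
    (hc : z ∈ commutator K) : z ∈ frattini K := by
  rw [frattini, Order.radical]
  simp only [Subgroup.mem_iInf]
  intro M hM
  by_contra hzM
  have htop : M ⊔ Subgroup.zpowers z = ⊤ := by
    apply hM.2
    refine lt_of_le_of_ne le_sup_left ?_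
    intro h
    apply hzM
    rw [h]
    exact (le_sup_right : Subgroup.zpowers z ≤ _) (Subgroup.mem_zpowers z)
  have hzn : (Subgroup.zpowers z).Normal := by
    constructor
    intro n hn g
    have h1 : n ∈ Subgroup.center K := (Subgroup.zpowers_le.mpr hz) hn
    have h2 := Subgroup.mem_center_iff.mp h1 g
    rw [h2, mul_inv_cancel_right]
    exact hn
  have hcM : commutator K ≤ M := by
    rw [commutator_def, Subgroup.commutator_le]
    intro a ha b hb
    rw [← htop, Subgroup.mem_sup_of_normal_right] at ha hb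
    obtain ⟨m, hm, w, hw, rfl⟩ := ha
    obtain ⟨m', hm', w', hw', rfl⟩ := hb
    have hw1 : w ∈ Subgroup.center K := (Subgroup.zpowers_le.mpr hz) hw
    have hw1' : w' ∈ Subgroup.center K := (Subgroup.zpowers_le.mpr hz) hw'
    have e : ⁅m * w, m' * w'⁆ = ⁅m, m'⁆ := by
      have e1 := Subgroup.mem_center_iff.mp hw1
      have e2 := Subgroup.mem_center_iff.mp hw1'
      rw [e1 m, e2 m', Stein.comm_left_of_central le_rfl hw1,
        Stein.comm_right_of_central le_rfl hw1']
    rw [e, commutatorElement_def]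
    exact mul_mem (mul_mem (mul_mem hm hm') (inv_mem hm)) (inv_mem hm')
  exact hzM (hcM hc)

theorem frattini_H : frattini H ≠ ⊥ := by
  intro h
  let z : H := (((s : F) : F ⧸ W), 1)
  have hz1 : z ∈ Subgroup.center H := by
    rw [Subgroup.mem_center_iff]
    rintro ⟨d, f⟩
    obtain ⟨g, rfl⟩ := QuotientGroup.mk_surjective d
    ext
    · change (g : F ⧸ W) * (s : F ⧸ W) = (s : F ⧸ W) * (g : F ⧸ W)
      have h1 : ⁅s, g⁆ ∈ W := Subgroup.commutator_mem_commutator s_mem_S trivial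
      have h2 : ((⁅s, g⁆ : F) : F ⧸ W) = 1 := (QuotientGroup.eq_one_iff _).mpr h1
      have h3 : ⁅((s : F) : F ⧸ W), ((g : F) : F ⧸ W)⁆ = 1 := h2
      exact (commutatorElement_eq_one_iff_mul_comm.mp h3).symm
    · change f * 1 = 1 * f
      simp
  have hz2 : z ∈ commutator H := by
    have e : z = ⁅((((x 0 1 : F)) : F ⧸ W), (1 : F)), ((((x 1 6 : F)) : F ⧸ W), (1 : F))⁆ := by
      ext
      · rfl
      · change (1 : F) = ⁅(1 : F), (1 : F)⁆
        simp
    rw [e, commutator_def]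
    exact Subgroup.commutator_mem_commutator trivial trivial
  have h1 := mem_frattini hz1 hz2
  rw [h, Subgroup.mem_bot] at h1
  have h2 : ((s : F) : F ⧸ W) = 1 := congrArg Prod.fst h1
  have h3 : s ^ (1 : ℤ) ∈ W := by
    rw [zpow_one]
    exact (QuotientGroup.eq_one_iff s).mp h2
  have := s_zpow_mem_W h3
  norm_num at this

theorem genus (n : ℕ) : Nonempty (G ⧸ (⊤ : Subgroup G).lowerCentralSeries n ≃*
    H ⧸ (⊤ : Subgroup H).lowerCentralSeries n) :=
  nonempty_iso L W W_le_L perf lifts n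

end Pool.Agent.Helper189.FratFinal
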