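import Mathlib
set_option autoImplicit false
open Metric Module Quaternion
open scoped Manifold ContDiff

namespace Pool.Agent.Helper189.UnitQuat

abbrev S3 : Type := sphere (0 : ℍ[ℝ]) 1

instance instFact : Fact (finrank ℝ ℍ[ℝ] = 3 + 1) := ⟨by rw [Quaternion.finrank_eq_four]⟩

noncomputable instance instCh : ChartedSpace (EuclideanSpace ℝ (Fin 3)) S3 := inferInstance
instance instMfd : IsManifold (𝓡 3) ω S3 := inferInstance

theorem coe_inv_eq (q : S3) : ((q⁻¹ : S3) : ℍ[ℝ]) = star (q : ℍ[ℝ]) := by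
  have h1 : ((q⁻¹ : S3) : ℍ[ℝ]) = (q : ℍ[ℝ])⁻¹ := rfl
  have h2 : ‖(q : ℍ[ℝ])‖ = 1 := by simp
  have h3 : Quaternion.normSq (q : ℍ[ℝ]) = 1 := by
    rw [Quaternion.normSq_eq_norm_mul_self, h2, one_mul]
  rw [h1, Quaternion.inv_def, h3, inv_one, one_smul]

instance instStarMod : StarModule ℝ ℍ[ℝ] := ⟨fun r a => by rw [Quaternion.star_smul]; simp⟩

instance instLie : LieGroup (𝓡 3) ω S3 where
  contMDiff_mul := by
    apply ContMDiff.codRestrict_sphere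
    let c : S3 → ℍ[ℝ] := (↑)
    have h₂ : ContMDiff (𝓘(ℝ, ℍ[ℝ]).prod 𝓘(ℝ, ℍ[ℝ])) 𝓘(ℝ, ℍ[ℝ]) ω
        fun z : ℍ[ℝ] × ℍ[ℝ] => z.fst * z.snd := by
      rw [contMDiff_iff]
      exact ⟨continuous_mul, fun x y => contDiff_mul.contDiffOn⟩
    suffices h₁ : ContMDiff _ _ _ (Prod.map c c) from
      h₂.comp h₁
    apply ContMDiff.prodMap <;> exact contMDiff_coe_sphere
  contMDiff_inv := by
    apply ContMDiff.codRestrict_sphere
    have h1 : (fun q : S3 => ((q⁻¹ : S3) : ℍ[ℝ])) = (starL' ℝ : ℍ[ℝ] ≃L[ℝ] ℍ[ℝ]) ∘ (fun q : S3 => (q : ℍ[ℝ])) := by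
      funext q
      exact coe_inv_eq q
    show ContMDiff _ _ _ (fun q : S3 => ((q⁻¹ : S3) : ℍ[ℝ]))
    rw [h1]
    exact (starL' ℝ : ℍ[ℝ] ≃L[ℝ] ℍ[ℝ]).contDiff.contMDiff.comp contMDiff_coe_sphere

instance : ConnectedSpace S3 := by
  have : IsConnected (sphere (0 : ℍ[ℝ]) 1) := by
    apply isConnected_sphere
    · rw [← finrank_eq_rank, Quaternion.finrank_eq_four]; norm_num
    · norm_num
  exact isConnected_iff_connectedSpace.mp this

instance : CompactSpace S3 := inferInstance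
instance : T2Space S3 := inferInstance
instance : IsTopologicalGroup S3 := inferInstance


theorem norm_ofC (z : ℂ) : ‖Quaternion.ofComplex z‖ = ‖z‖ := by
  have h1 : ‖Quaternion.ofComplex z‖ * ‖Quaternion.ofComplex z‖ = ‖z‖ * ‖z‖ := by
    rw [← Quaternion.normSq_eq_norm_mul_self, Quaternion.normSq_def', Complex.norm_mul_self_eq_normSq,
      Complex.normSq_apply]
    simp
    ring
  exact (mul_self_inj (norm_nonneg _) (norm_nonneg _)).mp h1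

/-- the standard maximal circle of `S^3` -/
noncomputable def iota : Circle →* S3 where
  toFun z := ⟨Quaternion.ofComplex (z : ℂ), by
    rw [mem_sphere_zero_iff_norm, norm_ofC, Circle.norm_coe]⟩
  map_one' := by
    apply Subtype.ext
    simp
  map_mul' x y := by
    apply Subtype.ext
    simp

theorem continuous_iota : Continuous iota := by
  refine Continuous.subtype_mk ?_ _
  have h : Continuous (Quaternion.ofComplex : ℂ → ℍ[ℝ]) :=
    (Quaternion.ofComplex.toLinearMap).continuous_of_finiteDimensional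
  exact h.comp continuous_subtype_val

theorem iota_injective : Function.Injective iota := by
  intro x y h
  have h1 := congrArg (fun q : S3 => (q : ℍ[ℝ])) h
  have h2 : Quaternion.ofComplex (x : ℂ) = Quaternion.ofComplex (y : ℂ) := h1
  apply Circle.ext
  apply Complex.ext
  · have := congrArg (fun q : ℍ[ℝ] => q.re) h2
    simpa using this
  · have := congrArg (fun q : ℍ[ℝ] => q.imI) h2
    simpa using this

theorem exists_conj_aux (q : ℍ[ℝ]) (hq : ‖q‖ = 1) :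
    ∃ (p : ℍ[ℝ]) (z : Circle), p ≠ 0 ∧ q * p = p * Quaternion.ofComplex (z : ℂ) := by
  set s : ℝ := Real.sqrt (q.imI ^ 2 + q.imJ ^ 2 + q.imK ^ 2) with hs
  have hs2 : s ^ 2 = q.imI ^ 2 + q.imJ ^ 2 + q.imK ^ 2 := Real.sq_sqrt (by positivity)
  have hn : q.re ^ 2 + q.imI ^ 2 + q.imJ ^ 2 + q.imK ^ 2 = 1 := by
    rw [← Quaternion.normSq_def', Quaternion.normSq_eq_norm_mul_self, hq, one_mul]
  have hz : ‖(⟨q.re, s⟩ : ℂ)‖ = 1 := by
    have h1 : ‖(⟨q.re, s⟩ : ℂ)‖ * ‖(⟨q.re, s⟩ : ℂ)‖ = 1 := by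
      rw [Complex.norm_mul_self_eq_normSq, Complex.normSq_mk]
      nlinarith
    nlinarith [norm_nonneg (⟨q.re, s⟩ : ℂ)]
  let z : Circle := ⟨⟨q.re, s⟩, by
    show (⟨q.re, s⟩ : ℂ) ∈ sphere (0 : ℂ) 1
    rw [mem_sphere_zero_iff_norm]; exact hz⟩
  have hzc : (z : ℂ) = ⟨q.re, s⟩ := rfl
  have zr : (Quaternion.ofComplex (z : ℂ)).re = q.re := rfl
  have zi : (Quaternion.ofComplex (z : ℂ)).imI = s := rfl
  have zj : (Quaternion.ofComplex (z : ℂ)).imJ = 0 := rfl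
  have zk : (Quaternion.ofComplex (z : ℂ)).imK = 0 := rfl
  by_cases h0 : q.imJ = 0 ∧ q.imK = 0 ∧ q.imI + s = 0
  · obtain ⟨hJ, hK, hI⟩ := h0
    have hs' : q.imI = - s := by linarith
    obtain ⟨p, p1, p2, p3, p4⟩ : ∃ p : ℍ[ℝ], p.re = 0 ∧ p.imI = 0 ∧ p.imJ = 1 ∧ p.imK = 0 :=
      ⟨⟨0, 0, 1, 0⟩, rfl, rfl, rfl, rfl⟩
    refine ⟨p, z, ?_, ?_⟩
    · intro h
      rw [h] at p3
      simp at p3
    · ext
      · rw [Quaternion.re_mul, Quaternion.re_mul, zr, zi, zj, zk, p1, p2, p3, p4, hJ, hK, hs']; ring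
      · rw [Quaternion.imI_mul, Quaternion.imI_mul, zr, zi, zj, zk, p1, p2, p3, p4, hJ, hK, hs']; ring
      · rw [Quaternion.imJ_mul, Quaternion.imJ_mul, zr, zi, zj, zk, p1, p2, p3, p4, hJ, hK, hs']; ring
      · rw [Quaternion.imK_mul, Quaternion.imK_mul, zr, zi, zj, zk, p1, p2, p3, p4, hJ, hK, hs']; ring
  · obtain ⟨p, p1, p2, p3, p4⟩ : ∃ p : ℍ[ℝ], p.re = 0 ∧ p.imI = q.imI + s ∧ p.imJ = q.imJ ∧
        p.imK = q.imK := ⟨⟨0, q.imI + s, q.imJ, q.imK⟩, rfl, rfl, rfl, rfl⟩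
    refine ⟨p, z, ?_, ?_⟩
    · intro h
      apply h0
      rw [h] at p2 p3 p4
      simp at p2 p3 p4
      exact ⟨p3.symm, p4.symm, p2.symm⟩
    · ext
      · rw [Quaternion.re_mul, Quaternion.re_mul, zr, zi, zj, zk, p1, p2, p3, p4]; nlinarith
      · rw [Quaternion.imI_mul, Quaternion.imI_mul, zr, zi, zj, zk, p1, p2, p3, p4]; ring
      · rw [Quaternion.imJ_mul, Quaternion.imJ_mul, zr, zi, zj, zk, p1, p2, p3, p4]; ring
      · rw [Quaternion.imK_mul, Quaternion.imK_mul, zr, zi, zj, zk, p1, p2, p3, p4]; ring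

theorem exists_conj (q : S3) : ∃ (p : S3) (z : Circle), q = p * iota z * p⁻¹ := by
  have hq : ‖(q : ℍ[ℝ])‖ = 1 := by simp
  obtain ⟨p, z, hp, h⟩ := exists_conj_aux q hq
  have hpn : ‖p‖ ≠ 0 := by simpa using hp
  let P : S3 := ⟨(‖p‖⁻¹ : ℝ) • p, by
    rw [mem_sphere_zero_iff_norm, norm_smul, norm_inv, norm_norm, inv_mul_cancel₀ hpn]⟩
  refine ⟨P, z, ?_⟩
  rw [eq_mul_inv_iff_mul_eq]
  apply Subtype.ext
  show (q : ℍ[ℝ]) * ((‖p‖⁻¹ : ℝ) • p) = ((‖p‖⁻¹ : ℝ) • p) * Quaternion.ofComplex (z : ℂ)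
  rw [mul_smul_comm, smul_mul_assoc, h]

theorem nonabelian : ∃ x y : S3, x * y ≠ y * x := by
  obtain ⟨a, a1, a2, a3, a4⟩ : ∃ p : ℍ[ℝ], p.re = 0 ∧ p.imI = 1 ∧ p.imJ = 0 ∧ p.imK = 0 :=
    ⟨⟨0, 1, 0, 0⟩, rfl, rfl, rfl, rfl⟩
  obtain ⟨b, b1, b2, b3, b4⟩ : ∃ p : ℍ[ℝ], p.re = 0 ∧ p.imI = 0 ∧ p.imJ = 1 ∧ p.imK = 0 :=
    ⟨⟨0, 0, 1, 0⟩, rfl, rfl, rfl, rfl⟩
  have key : ∀ p : ℍ[ℝ], p.re ^ 2 + p.imI ^ 2 + p.imJ ^ 2 + p.imK ^ 2 = 1 → ‖p‖ = 1 := by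
    intro p hp
    rw [← Quaternion.normSq_def', Quaternion.normSq_eq_norm_mul_self] at hp
    nlinarith [norm_nonneg p]
  refine ⟨⟨a, ?_⟩, ⟨b, ?_⟩, ?_⟩
  · rw [mem_sphere_zero_iff_norm]; apply key; rw [a1, a2, a3, a4]; norm_num
  · rw [mem_sphere_zero_iff_norm]; apply key; rw [b1, b2, b3, b4]; norm_num
  · intro h
    have h1 : a * b = b * a := congrArg Subtype.val h
    have h2 := congrArg (fun q : ℍ[ℝ] => q.imK) h1
    simp only [Quaternion.imK_mul, a1, a2, a3, a4, b1, b2, b3, b4] at h2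
    norm_num at h2

end Pool.Agent.Helper189.UnitQuat
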