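import Mathlib
import Pool.Agent.Helper771.CircS7
import Pool.Agent.Helper189.CharEq
import Pool.Agent.Helper189.UnitQuat

/-! `S^3 = SU(2)` is an amalgamation base for compact groups. -/

set_option autoImplicit false

namespace Pool.Agent.Helper189.UnitQuat

open Pool.Agent.Helper771.Circ Pool.Agent.Helper189.CharEq

theorem trace_conj {N : ℕ} {G : Type} [Group G] (ρ : G →* Matrix.unitaryGroup (Fin N) ℂ) (p q : G) :
    ((ρ (p * q * p⁻¹) : Matrix.unitaryGroup (Fin N) ℂ) : Matrix (Fin N) (Fin N) ℂ).trace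
      = ((ρ q : Matrix.unitaryGroup (Fin N) ℂ) : Matrix (Fin N) (Fin N) ℂ).trace := by
  have h1 : ((ρ (p * q * p⁻¹) : Matrix.unitaryGroup (Fin N) ℂ) : Matrix (Fin N) (Fin N) ℂ)
      = (ρ p : Matrix (Fin N) (Fin N) ℂ) * (ρ q : Matrix (Fin N) (Fin N) ℂ)
        * ((ρ p⁻¹ : Matrix.unitaryGroup (Fin N) ℂ) : Matrix (Fin N) (Fin N) ℂ) := by
    rw [map_mul, map_mul]; rfl
  have h2 : ((ρ p⁻¹ : Matrix.unitaryGroup (Fin N) ℂ) : Matrix (Fin N) (Fin N) ℂ)
      * (ρ p : Matrix (Fin N) (Fin N) ℂ) = 1 := by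
    have : ρ p⁻¹ * ρ p = 1 := by rw [← map_mul, inv_mul_cancel, map_one]
    exact congrArg (fun x : Matrix.unitaryGroup (Fin N) ℂ => (x : Matrix (Fin N) (Fin N) ℂ)) this
  rw [h1, Matrix.trace_mul_comm, ← Matrix.mul_assoc, h2, Matrix.one_mul]

theorem key3 (B C : Type) [Group B] [TopologicalSpace B] [IsTopologicalGroup B] [CompactSpace B]
    [T2Space B] [Group C] [TopologicalSpace C] [IsTopologicalGroup C] [CompactSpace C]
    [T2Space C] (f : S3 →* B) (g : S3 →* C) (hf : Continuous f)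
    (hfi : Function.Injective f) (hg : Continuous g) (hgi : Function.Injective g)
    (b : B) (hb : b ≠ 1) :
    ∃ (N : ℕ) (ρ : B →* Matrix.unitaryGroup (Fin N) ℂ) (σ : C →* Matrix.unitaryGroup (Fin N) ℂ),
      Continuous ρ ∧ Continuous σ ∧ (∀ a, ρ (f a) = σ (g a)) ∧ ρ b ≠ 1 := by
  obtain ⟨N, ρ, σ, hρ, hσ, heq, hne⟩ := key B C (f.comp iota) (g.comp iota)
    (hf.comp continuous_iota) (hfi.comp iota_injective) (hg.comp continuous_iota)
    (hgi.comp iota_injective) b hb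
  obtain ⟨w, hw⟩ := conj_of_char_eq (ρ.comp f) (σ.comp g) (hρ.comp hf) (hσ.comp hg) (by
    intro a
    obtain ⟨p, z, rfl⟩ := exists_conj a
    rw [trace_conj, trace_conj]
    have := heq z
    simp only [MonoidHom.comp_apply] at this ⊢
    rw [this])
  refine ⟨N, (MulAut.conj w).toMonoidHom.comp ρ, σ, ?_, hσ, ?_, ?_⟩
  · show Continuous (fun b => w * ρ b * w⁻¹)
    exact (continuous_const.mul hρ).mul continuous_const
  · intro a
    show w * ρ (f a) * w⁻¹ = σ (g a)
    exact (hw a).symm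
  · intro h
    apply hne
    have h1 : w * ρ b * w⁻¹ = 1 := h
    have : ρ b = w⁻¹ * (w * ρ b * w⁻¹) * w := by group
    rw [this, h1]; group

theorem s3_amalgamation (B C : Type) [Group B] [TopologicalSpace B] [IsTopologicalGroup B]
    [CompactSpace B] [T2Space B] [Group C] [TopologicalSpace C] [IsTopologicalGroup C]
    [CompactSpace C] [T2Space C] (f : S3 →* B) (g : S3 →* C) (hf : Continuous f)
    (hfi : Function.Injective f) (hg : Continuous g) (hgi : Function.Injective g) :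
    ∃ (D : Type) (_ : Group D) (_ : TopologicalSpace D),
      IsTopologicalGroup D ∧ CompactSpace D ∧ T2Space D ∧
      ∃ (φ : B →* D) (ψ : C →* D),
        Continuous φ ∧ Function.Injective φ ∧ Continuous ψ ∧ Function.Injective ψ ∧
        ∀ a : S3, φ (f a) = ψ (g a) := by
  choose N₁ ρ₁ σ₁ hρ₁ hσ₁ heq₁ hne₁ using
    fun b : {b : B // b ≠ 1} => key3 B C f g hf hfi hg hgi b.1 b.2
  choose N₂ σ₂ ρ₂ hσ₂ hρ₂ heq₂ hne₂ using
    fun c : {c : C // c ≠ 1} => key3 C B g f hg hgi hf hfi c.1 c.2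
  refine ⟨(∀ b : {b : B // b ≠ 1}, Matrix.unitaryGroup (Fin (N₁ b)) ℂ)
    × (∀ c : {c : C // c ≠ 1}, Matrix.unitaryGroup (Fin (N₂ c)) ℂ), inferInstance, inferInstance,
    inferInstance, inferInstance, inferInstance,
    (MonoidHom.prod (MonoidHom.pi ρ₁) (MonoidHom.pi ρ₂)),
    (MonoidHom.prod (MonoidHom.pi σ₁) (MonoidHom.pi σ₂)), ?_, ?_, ?_, ?_, ?_⟩
  · exact (continuous_pi hρ₁).prodMk (continuous_pi hρ₂)
  · rw [injective_iff_map_eq_one]
    intro b hb
    by_contra hne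
    have h1 := congrFun (congrArg Prod.fst hb) ⟨b, hne⟩
    exact hne₁ ⟨b, hne⟩ h1
  · exact (continuous_pi hσ₁).prodMk (continuous_pi hσ₂)
  · rw [injective_iff_map_eq_one]
    intro c hc
    by_contra hne
    have h1 := congrFun (congrArg Prod.snd hc) ⟨c, hne⟩
    exact hne₂ ⟨c, hne⟩ h1
  · intro z
    refine Prod.ext ?_ ?_
    · funext b
      exact heq₁ b z
    · funext c
      exact (heq₂ c z).symm

end Pool.Agent.Helper189.UnitQuat
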