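import Mathlib
import Pool.Agent.Helper771.CircS7
import Pool.Agent.Helper189.CharEq
import Pool.Agent.Helper189.S3Amalg

/-! Compact groups in which a circle subgroup meets every conjugacy class are amalgamation bases. -/

set_option autoImplicit false

namespace Pool.Agent.Helper189.RankOne

open Pool.Agent.Helper771.Circ Pool.Agent.Helper189.CharEq

theorem keyr (A : Type) [Group A] [TopologicalSpace A] [IsTopologicalGroup A] [CompactSpace A]
    [T2Space A] (j : Circle →* A) (hj : Continuous j) (hji : Function.Injective j)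
    (hconj : ∀ q : A, ∃ (p : A) (z : Circle), q = p * j z * p⁻¹)
    (B C : Type) [Group B] [TopologicalSpace B] [IsTopologicalGroup B] [CompactSpace B]
    [T2Space B] [Group C] [TopologicalSpace C] [IsTopologicalGroup C] [CompactSpace C]
    [T2Space C] (f : A →* B) (g : A →* C) (hf : Continuous f)
    (hfi : Function.Injective f) (hg : Continuous g) (hgi : Function.Injective g)
    (b : B) (hb : b ≠ 1) :
    ∃ (N : ℕ) (ρ : B →* Matrix.unitaryGroup (Fin N) ℂ) (σ : C →* Matrix.unitaryGroup (Fin N) ℂ),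
      Continuous ρ ∧ Continuous σ ∧ (∀ a, ρ (f a) = σ (g a)) ∧ ρ b ≠ 1 := by
  obtain ⟨N, ρ, σ, hρ, hσ, heq, hne⟩ := key B C (f.comp j) (g.comp j)
    (hf.comp hj) (hfi.comp hji) (hg.comp hj) (hgi.comp hji) b hb
  obtain ⟨w, hw⟩ := conj_of_char_eq (ρ.comp f) (σ.comp g) (hρ.comp hf) (hσ.comp hg) (by
    intro a
    obtain ⟨p, z, rfl⟩ := hconj a
    rw [UnitQuat.trace_conj, UnitQuat.trace_conj]
    have := heq z
    simp only [MonoidHom.comp_apply] at this ⊢
    rw [this])
  refine ⟨N, (MulAut.conj w).toMonoidHom.comp ρ, σ, ?_, hσ, ?_, ?_⟩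
  · show Continuous (fun b => w * ρ b * w⁻¹)
    exact (continuous_const.mul hρ).mul continuous_const
  · intro a
    show w * ρ (f a) * w⁻¹ = σ (g a)
    exact (hw a).symm
  · intro h
    apply hne
    have h1 : w * ρ b * w⁻¹ = 1 := h
    have : ρ b = w⁻¹ * (w * ρ b * w⁻¹) * w := by group
    rw [this, h1]; group

theorem base (A : Type) [Group A] [TopologicalSpace A] [IsTopologicalGroup A] [CompactSpace A]
    [T2Space A] (j : Circle →* A) (hj : Continuous j) (hji : Function.Injective j)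
    (hconj : ∀ q : A, ∃ (p : A) (z : Circle), q = p * j z * p⁻¹)
    (B C : Type) [Group B] [TopologicalSpace B] [IsTopologicalGroup B]
    [CompactSpace B] [T2Space B] [Group C] [TopologicalSpace C] [IsTopologicalGroup C]
    [CompactSpace C] [T2Space C] (f : A →* B) (g : A →* C) (hf : Continuous f)
    (hfi : Function.Injective f) (hg : Continuous g) (hgi : Function.Injective g) :
    ∃ (D : Type) (_ : Group D) (_ : TopologicalSpace D),
      IsTopologicalGroup D ∧ CompactSpace D ∧ T2Space D ∧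
      ∃ (φ : B →* D) (ψ : C →* D),
        Continuous φ ∧ Function.Injective φ ∧ Continuous ψ ∧ Function.Injective ψ ∧
        ∀ a : A, φ (f a) = ψ (g a) := by
  choose N₁ ρ₁ σ₁ hρ₁ hσ₁ heq₁ hne₁ using
    fun b : {b : B // b ≠ 1} => keyr A j hj hji hconj B C f g hf hfi hg hgi b.1 b.2
  choose N₂ σ₂ ρ₂ hσ₂ hρ₂ heq₂ hne₂ using
    fun c : {c : C // c ≠ 1} => keyr A j hj hji hconj C B g f hg hgi hf hfi c.1 c.2
  refine ⟨(∀ b : {b : B // b ≠ 1}, Matrix.unitaryGroup (Fin (N₁ b)) ℂ)
    × (∀ c : {c : C // c ≠ 1}, Matrix.unitaryGroup (Fin (N₂ c)) ℂ), inferInstance, inferInstance,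
    inferInstance, inferInstance, inferInstance,
    (MonoidHom.prod (MonoidHom.pi ρ₁) (MonoidHom.pi ρ₂)),
    (MonoidHom.prod (MonoidHom.pi σ₁) (MonoidHom.pi σ₂)), ?_, ?_, ?_, ?_, ?_⟩
  · exact (continuous_pi hρ₁).prodMk (continuous_pi hρ₂)
  · rw [injective_iff_map_eq_one]
    intro b hb
    by_contra hne
    have h1 := congrFun (congrArg Prod.fst hb) ⟨b, hne⟩
    exact hne₁ ⟨b, hne⟩ h1
  · exact (continuous_pi hσ₁).prodMk (continuous_pi hσ₂)
  · rw [injective_iff_map_eq_one]
    intro c hc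
    by_contra hne
    have h1 := congrFun (congrArg Prod.snd hc) ⟨c, hne⟩
    exact hne₂ ⟨c, hne⟩ h1
  · intro z
    refine Prod.ext ?_ ?_
    · funext b
      exact heq₁ b z
    · funext c
      exact (heq₂ c z).symm

end Pool.Agent.Helper189.RankOne
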