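import Mathlib

set_option autoImplicit false

namespace Pool.Agent.Helper189.Squares

open Finset

/-- sign of a bit -/
noncomputable def sg (z : ZMod 2) : ℝ := if z = 0 then 1 else -1

theorem zcases (z : ZMod 2) : z = 0 ∨ z = 1 := by
  revert z
  decide

theorem sg_zero : sg 0 = 1 := by simp [sg]

theorem sg_one : sg 1 = -1 := by simp [sg]

theorem sg_add (a b : ZMod 2) : sg (a + b) = sg a * sg b := by
  have h2 : (1 : ZMod 2) + 1 = 0 := by decide
  rcases zcases a with rfl | rfl <;> rcases zcases b with rfl | rfl <;>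
    simp [sg_zero, sg_one, h2]

theorem sg_abs (a : ZMod 2) : |sg a| = 1 := by
  rcases zcases a with rfl | rfl <;> simp [sg_zero, sg_one]

theorem sg_sum {ι : Type} [DecidableEq ι] (S : Finset ι) (f : ι → ZMod 2) :
    sg (∑ l ∈ S, f l) = ∏ l ∈ S, sg (f l) := by
  induction S using Finset.induction_on with
  | empty => simp [sg_zero]
  | insert a S ha ih => rw [sum_insert ha, prod_insert ha, sg_add, ih]

theorem ind_eq (a b : ZMod 2) : (if a = b then (1 : ℝ) else 0) = (1 + sg a * sg b) / 2 := by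
  have h : (0 : ZMod 2) ≠ 1 := by decide
  have h' : (1 : ZMod 2) ≠ 0 := by decide
  rcases zcases a with rfl | rfl <;> rcases zcases b with rfl | rfl <;>
    simp [sg_zero, sg_one, h, h']

/-- joint equidistribution of bits from character sums -/
theorem equi {Ω ι : Type} [Fintype Ω] [Fintype ι] [DecidableEq ι] (bit : Ω → ι → ZMod 2) (E : ℝ)
    (hE : 0 ≤ E) (h : ∀ S : Finset ι, S.Nonempty → |∑ ω, sg (∑ l ∈ S, bit ω l)| ≤ E)
    (w : ι → ZMod 2) :
    |((univ.filter fun ω => bit ω = w).card : ℝ) - (Fintype.card Ω : ℝ) / 2 ^ (Fintype.card ι)|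
      ≤ E := by
  classical
  have h1 : ∀ ω, (if bit ω = w then (1 : ℝ) else 0) =
      (1 / 2 ^ (Fintype.card ι)) * ∑ S ∈ (univ : Finset ι).powerset,
        (∏ l ∈ S, sg (w l)) * sg (∑ l ∈ S, bit ω l) := by
    intro ω
    have e1 : (if bit ω = w then (1 : ℝ) else 0) = ∏ l, (if bit ω l = w l then (1 : ℝ) else 0) := by
      by_cases hb : bit ω = w
      · rw [if_pos hb]
        symm
        apply prod_eq_one
        intro l _
        rw [if_pos (congrFun hb l)]
      · rw [if_neg hb]
        obtain ⟨l, hl⟩ := Function.ne_iff.1 hb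
        symm
        apply prod_eq_zero (mem_univ l)
        rw [if_neg hl]
    rw [e1]
    have e2 : ∏ l, (if bit ω l = w l then (1 : ℝ) else 0) =
        ∏ l, ((1 / 2) * (1 + sg (bit ω l) * sg (w l))) := by
      apply prod_congr rfl
      intro l _
      rw [ind_eq]
      ring
    rw [e2, prod_mul_distrib, prod_const, card_univ, prod_one_add, one_div_pow]
    congr 1
    apply sum_congr rfl
    intro S _
    rw [prod_mul_distrib, sg_sum, mul_comm]
  have h2 : ((univ.filter fun ω => bit ω = w).card : ℝ) =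
      (1 / 2 ^ (Fintype.card ι)) * ∑ S ∈ (univ : Finset ι).powerset,
        (∏ l ∈ S, sg (w l)) * ∑ ω, sg (∑ l ∈ S, bit ω l) := by
    rw [card_filter]
    push_cast
    rw [sum_congr rfl fun ω _ => h1 ω, ← mul_sum, sum_comm]
    congr 1
    apply sum_congr rfl
    intro S _
    rw [mul_sum]
  have hmem : (∅ : Finset ι) ∈ (univ : Finset ι).powerset := empty_mem_powerset _
  rw [h2, ← add_sum_erase _ _ hmem]
  have e0 : (∏ l ∈ (∅ : Finset ι), sg (w l)) * ∑ ω, sg (∑ l ∈ (∅ : Finset ι), bit ω l) =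
      (Fintype.card Ω : ℝ) := by
    simp [sg_zero]
  rw [e0, mul_add]
  have e1 : (1 / 2 ^ (Fintype.card ι)) * (Fintype.card Ω : ℝ) =
      (Fintype.card Ω : ℝ) / 2 ^ (Fintype.card ι) := by ring
  rw [e1, add_sub_cancel_left, abs_mul]
  have hp : (0 : ℝ) < 2 ^ (Fintype.card ι) := by positivity
  rw [abs_of_pos (by positivity : (0 : ℝ) < 1 / 2 ^ (Fintype.card ι))]
  have h3 : |∑ S ∈ (univ : Finset ι).powerset.erase ∅,
      (∏ l ∈ S, sg (w l)) * ∑ ω, sg (∑ l ∈ S, bit ω l)| ≤ 2 ^ (Fintype.card ι) * E := by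
    refine (abs_sum_le_sum_abs _ _).trans ?_
    have h4 : ∀ S ∈ (univ : Finset ι).powerset.erase ∅,
        |(∏ l ∈ S, sg (w l)) * ∑ ω, sg (∑ l ∈ S, bit ω l)| ≤ E := by
      intro S hS
      rw [abs_mul, abs_prod]
      have : ∏ l ∈ S, |sg (w l)| = 1 := prod_eq_one fun l _ => sg_abs _
      rw [this, one_mul]
      exact h S (nonempty_iff_ne_empty.2 (ne_of_mem_erase hS))
    refine (sum_le_card_nsmul _ _ E h4).trans ?_
    rw [nsmul_eq_mul]
    apply mul_le_mul_of_nonneg_right _ hE
    have h5 : ((univ : Finset ι).powerset.erase ∅).card ≤ 2 ^ (Fintype.card ι) := by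
      refine (card_erase_le).trans ?_
      rw [card_powerset, card_univ]
    exact_mod_cast h5
  calc 1 / 2 ^ (Fintype.card ι) * |∑ S ∈ (univ : Finset ι).powerset.erase ∅,
      (∏ l ∈ S, sg (w l)) * ∑ ω, sg (∑ l ∈ S, bit ω l)|
      ≤ 1 / 2 ^ (Fintype.card ι) * (2 ^ (Fintype.card ι) * E) :=
        mul_le_mul_of_nonneg_left h3 (by positivity)
    _ = E := by field_simp

/-- counting version for a set of patterns -/
theorem equi_set {Ω ι : Type} [Fintype Ω] [Fintype ι] [DecidableEq ι] (bit : Ω → ι → ZMod 2)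
    (E : ℝ) (hE : 0 ≤ E) (h : ∀ S : Finset ι, S.Nonempty → |∑ ω, sg (∑ l ∈ S, bit ω l)| ≤ E)
    (W : Finset (ι → ZMod 2)) :
    |((univ.filter fun ω => bit ω ∈ W).card : ℝ) -
      W.card * ((Fintype.card Ω : ℝ) / 2 ^ (Fintype.card ι))| ≤ W.card * E := by
  classical
  have h1 : ((univ.filter fun ω => bit ω ∈ W).card : ℝ) =
      ∑ w ∈ W, ((univ.filter fun ω => bit ω = w).card : ℝ) := by
    have := card_eq_sum_card_fiberwise (f := bit) (s := univ.filter fun ω => bit ω ∈ W) (t := W)
      (fun ω hω => (mem_filter.1 hω).2)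
    rw [this]
    push_cast
    apply sum_congr rfl
    intro w hw
    congr 2
    ext ω
    simp only [mem_filter, mem_univ, true_and]
    constructor
    · exact fun hh => hh.2
    · intro hh
      exact ⟨by rw [hh]; exact hw, hh⟩
  have h2 : (W.card : ℝ) * ((Fintype.card Ω : ℝ) / 2 ^ (Fintype.card ι)) =
      ∑ w ∈ W, ((Fintype.card Ω : ℝ) / 2 ^ (Fintype.card ι)) := by
    rw [sum_const, nsmul_eq_mul]
  rw [h1, h2, ← sum_sub_distrib]
  refine (abs_sum_le_sum_abs _ _).trans ?_
  refine (sum_le_card_nsmul _ _ E fun w _ => equi bit E hE h w).trans ?_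
  rw [nsmul_eq_mul]

section field

variable {F : Type} [Field F] [Fintype F] [DecidableEq F] [Algebra (ZMod 2) F]
  (lam : F →ₗ[ZMod 2] ZMod 2)

/-- linear character sum -/
theorem lin_sum (hlam : lam ≠ 0) (U : F) :
    ∑ p : F, sg (lam (p * U)) = if U = 0 then (Fintype.card F : ℝ) else 0 := by
  by_cases hU : U = 0
  · rw [if_pos hU, hU]
    simp [sg_zero]
  · rw [if_neg hU]
    obtain ⟨x, hx⟩ : ∃ x, lam x ≠ 0 := by
      by_contra hcon
      push Not at hcon
      exact hlam (LinearMap.ext hcon)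
    have hx1 : lam x = 1 := (zcases _).resolve_left hx
    have e1 : ∑ p : F, sg (lam (p * U)) = ∑ p : F, sg (lam ((p + x * U⁻¹) * U)) :=
      (Equiv.sum_comp (Equiv.addRight (x * U⁻¹)) fun p => sg (lam (p * U))).symm
    have e2 : ∀ p : F, sg (lam ((p + x * U⁻¹) * U)) = - sg (lam (p * U)) := by
      intro p
      rw [add_mul, mul_assoc, inv_mul_cancel₀ hU, mul_one, map_add, sg_add, hx1, sg_one]
      ring
    rw [sum_congr rfl fun p _ => e2 p, sum_neg_distrib] at e1
    linarith

/-- the quadratic character sum -/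
theorem quad_sum (hlam : lam ≠ 0) (u0 u1 v0 v1 w0 w1 d1 d2 : F) (hd : d1 ≠ 0 ∨ d2 ≠ 0)
    (hnt : (u0 + u1 ≠ 0 ∨ v0 + v1 ≠ 0 ∨ w0 + w1 ≠ 0) ∨ (u1 + w1 ≠ 0 ∨ v1 + w1 ≠ 0)) :
    |∑ ω : (F × F) × (F × F), sg (lam (u0 * (ω.1.1 * ω.1.2) + u1 * ((ω.1.1 + d1) * (ω.1.2 + d2)) +
      (v0 * (ω.2.1 * ω.2.2) + v1 * ((ω.2.1 + d1) * (ω.2.2 + d2))) +
      (w0 * ((ω.1.1 + ω.2.1) * (ω.1.2 + ω.2.2)) +
        w1 * ((ω.1.1 + ω.2.1 + d1) * (ω.1.2 + ω.2.2 + d2)))))| ≤ (Fintype.card F : ℝ) ^ 3 := by
  set U : F → F → F := fun q q' => (u0 + u1) * q + (w0 + w1) * (q + q') + (u1 + w1) * d2 with hU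
  set V : F → F → F := fun q q' => (v0 + v1) * q' + (w0 + w1) * (q + q') + (v1 + w1) * d2 with hV
  set R : F → F → F := fun q q' => d1 * (u1 * (q + d2) + v1 * (q' + d2) + w1 * (q + q' + d2))
    with hR
  have hsum : ∑ ω : (F × F) × (F × F), sg (lam (u0 * (ω.1.1 * ω.1.2) +
      u1 * ((ω.1.1 + d1) * (ω.1.2 + d2)) +
      (v0 * (ω.2.1 * ω.2.2) + v1 * ((ω.2.1 + d1) * (ω.2.2 + d2))) +
      (w0 * ((ω.1.1 + ω.2.1) * (ω.1.2 + ω.2.2)) +
        w1 * ((ω.1.1 + ω.2.1 + d1) * (ω.1.2 + ω.2.2 + d2))))) =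
      ∑ q : F, ∑ q' : F, sg (lam (R q q')) * ((if U q q' = 0 then (Fintype.card F : ℝ) else 0) *
        (if V q q' = 0 then (Fintype.card F : ℝ) else 0)) := by
    rw [Fintype.sum_prod_type]
    rw [Fintype.sum_prod_type]
    simp only [Fintype.sum_prod_type]
    rw [sum_comm]
    apply sum_congr rfl
    intro q _
    have e1 : ∀ p : F, ∑ p' : F, ∑ q' : F, sg (lam (u0 * (p * q) +
      u1 * ((p + d1) * (q + d2)) +
      (v0 * (p' * q') + v1 * ((p' + d1) * (q' + d2))) +
      (w0 * ((p + p') * (q + q')) +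
        w1 * ((p + p' + d1) * (q + q' + d2))))) =
      ∑ q' : F, ∑ p' : F, sg (lam (p * U q q')) * (sg (lam (p' * V q q')) *
        sg (lam (R q q'))) := by
      intro p
      rw [sum_comm]
      apply sum_congr rfl
      intro q' _
      apply sum_congr rfl
      intro p' _
      rw [← sg_add, ← sg_add, ← map_add, ← map_add]
      congr 2
      simp only [hU, hV, hR]
      ring
    rw [sum_congr rfl fun p _ => e1 p, sum_comm]
    apply sum_congr rfl
    intro q' _
    rw [← lin_sum lam hlam, ← lin_sum lam hlam, sum_mul_sum, mul_sum]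
    apply sum_congr rfl
    intro p _
    rw [mul_sum]
    apply sum_congr rfl
    intro p' _
    ring
  rw [hsum]
  have hcF : (0 : ℝ) ≤ (Fintype.card F : ℝ) := Nat.cast_nonneg _
  by_cases hq : u0 + u1 ≠ 0 ∨ v0 + v1 ≠ 0 ∨ w0 + w1 ≠ 0
  · -- quadratic case
    have hbound : ∀ q q' : F, |sg (lam (R q q')) *
        ((if U q q' = 0 then (Fintype.card F : ℝ) else 0) *
        (if V q q' = 0 then (Fintype.card F : ℝ) else 0))| ≤
        if U q q' = 0 ∧ V q q' = 0 then (Fintype.card F : ℝ) ^ 2 else 0 := by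
      intro q q'
      rw [abs_mul, sg_abs, one_mul]
      by_cases h1 : U q q' = 0 <;> by_cases h2 : V q q' = 0 <;> simp [h1, h2, pow_two]
    have hstep : |∑ q : F, ∑ q' : F, sg (lam (R q q')) *
        ((if U q q' = 0 then (Fintype.card F : ℝ) else 0) *
        (if V q q' = 0 then (Fintype.card F : ℝ) else 0))| ≤
        ∑ q : F, ∑ q' : F, if U q q' = 0 ∧ V q q' = 0 then (Fintype.card F : ℝ) ^ 2 else 0 := by
      refine (abs_sum_le_sum_abs _ _).trans (sum_le_sum fun q _ => ?_)
      exact (abs_sum_le_sum_abs _ _).trans (sum_le_sum fun q' _ => hbound q q')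
    refine hstep.trans ?_
    have hone : ∀ (P : F → Prop) [DecidablePred P], (∀ a b, P a → P b → a = b) →
        ∑ a : F, (if P a then (Fintype.card F : ℝ) ^ 2 else 0) ≤ (Fintype.card F : ℝ) ^ 2 := by
      intro P _ hP
      rw [← sum_filter, sum_const, nsmul_eq_mul]
      have : (univ.filter P).card ≤ 1 := card_le_one.2 fun a ha b hb =>
        hP a b (mem_filter.1 ha).2 (mem_filter.1 hb).2
      have h' : ((univ.filter P).card : ℝ) ≤ 1 := by exact_mod_cast this
      nlinarith [sq_nonneg (Fintype.card F : ℝ)]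
    have hfin : ∀ f : F → ℝ, (∀ a, f a ≤ (Fintype.card F : ℝ) ^ 2) →
        ∑ a, f a ≤ (Fintype.card F : ℝ) ^ 3 := by
      intro f hf
      refine (sum_le_card_nsmul _ _ _ fun a _ => hf a).trans ?_
      rw [nsmul_eq_mul, card_univ]
      exact le_of_eq (by ring)
    by_cases hG : w0 + w1 = 0
    · by_cases hA : u0 + u1 = 0
      · have hB : v0 + v1 ≠ 0 := by tauto
        apply hfin
        intro q
        apply hone (fun q' => U q q' = 0 ∧ V q q' = 0)
        rintro a b ⟨_, ha⟩ ⟨_, hb⟩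
        simp only [hV, hG] at ha hb
        have : (v0 + v1) * (a - b) = 0 := by linear_combination ha - hb
        exact sub_eq_zero.1 ((mul_eq_zero.1 this).resolve_left hB)
      · rw [sum_comm]
        apply hfin
        intro q'
        apply hone (fun q => U q q' = 0 ∧ V q q' = 0)
        rintro a b ⟨ha, _⟩ ⟨hb, _⟩
        simp only [hU, hG] at ha hb
        have : (u0 + u1) * (a - b) = 0 := by linear_combination ha - hb
        exact sub_eq_zero.1 ((mul_eq_zero.1 this).resolve_left hA)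
    · apply hfin
      intro q
      apply hone (fun q' => U q q' = 0 ∧ V q q' = 0)
      rintro a b ⟨ha, _⟩ ⟨hb, _⟩
      simp only [hU] at ha hb
      have : (w0 + w1) * (a - b) = 0 := by linear_combination ha - hb
      exact sub_eq_zero.1 ((mul_eq_zero.1 this).resolve_left hG)
  · -- linear case
    have hl := hnt.resolve_left hq
    push Not at hq
    obtain ⟨hA, hB, hG⟩ := hq
    have hzero : ∑ q : F, ∑ q' : F, sg (lam (R q q')) *
        ((if U q q' = 0 then (Fintype.card F : ℝ) else 0) *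
        (if V q q' = 0 then (Fintype.card F : ℝ) else 0)) = 0 := by
      by_cases hd2 : d2 = 0
      · have hd1 : d1 ≠ 0 := by tauto
        have e : ∀ q q', sg (lam (R q q')) *
            ((if U q q' = 0 then (Fintype.card F : ℝ) else 0) *
            (if V q q' = 0 then (Fintype.card F : ℝ) else 0)) =
            (Fintype.card F : ℝ) ^ 2 * (sg (lam (q * (d1 * (u1 + w1)))) *
              sg (lam (q' * (d1 * (v1 + w1))))) := by
          intro q q'
          have e1 : U q q' = 0 := by simp [hU, hA, hG, hd2]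
          have e2 : V q q' = 0 := by simp [hV, hB, hG, hd2]
          have e3 : R q q' = q * (d1 * (u1 + w1)) + q' * (d1 * (v1 + w1)) := by
            simp only [hR, hd2]
            ring
          rw [if_pos e1, if_pos e2, e3, map_add, sg_add]
          ring
        rw [sum_congr rfl fun q _ => sum_congr rfl fun q' _ => e q q']
        simp_rw [← mul_sum]
        rw [← sum_mul, lin_sum lam hlam, lin_sum lam hlam]
        rcases hl with hl | hl
        · rw [if_neg (mul_ne_zero hd1 hl)]
          ring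
        · rw [if_neg (mul_ne_zero hd1 hl)]
          ring
      · apply sum_eq_zero
        intro q _
        apply sum_eq_zero
        intro q' _
        rcases hl with hl | hl
        · have e1 : U q q' ≠ 0 := by
            simp only [hU, hA, hG, zero_mul, zero_add]
            exact mul_ne_zero hl hd2
          rw [if_neg e1]
          ring
        · have e1 : V q q' ≠ 0 := by
            simp only [hV, hB, hG, zero_mul, zero_add]
            exact mul_ne_zero hl hd2
          rw [if_neg e1]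
          ring
    rw [hzero, abs_zero]
    positivity

end field

end Pool.Agent.Helper189.Squares
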