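import Mathlib
import Pool.Agent.Helper189.SquaresA

set_option autoImplicit false

namespace Pool.Agent.Helper189.Squares

open Finset

/-- not all equal -/
def nae (a b c : ZMod 2) : Prop := ¬ (a = b ∧ b = c)

instance (a b c : ZMod 2) : Decidable (nae a b c) := by unfold nae; infer_instance

def PA (v : Fin 3 × Fin 2 → ZMod 2) : Prop := nae (v (0,0)) (v (1,0)) (v (2,0))

instance : DecidablePred PA := fun v => by unfold PA; infer_instance

def PQ (v : Fin 3 × Fin 2 → ZMod 2) : Prop :=
  nae (v (0,0)) (v (1,0)) (v (2,0)) ∧ nae (v (0,0)) (v (1,1)) (v (2,1)) ∧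
  nae (v (0,1)) (v (1,0)) (v (2,1)) ∧ nae (v (0,1)) (v (1,1)) (v (2,0))

instance : DecidablePred PQ := fun v => by unfold PQ; infer_instance

theorem card_PA : (univ.filter PA).card = 48 := by decide +kernel

theorem card_PQ : (univ.filter PQ).card = 18 := by decide +kernel

theorem card_pow (m : ℕ) (P : (Fin 3 × Fin 2 → ZMod 2) → Prop) [DecidablePred P] :
    (univ.filter fun w : Fin m × (Fin 3 × Fin 2) → ZMod 2 => ∀ t, P (fun k => w (t, k))).card =
      (univ.filter P).card ^ m := by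
  have h := Fintype.card_piFinset (fun _ : Fin m => univ.filter P)
  rw [prod_const, card_univ, Fintype.card_fin] at h
  rw [← h]
  apply card_equiv (Equiv.curry (Fin m) (Fin 3 × Fin 2) (ZMod 2))
  intro w
  rw [mem_filter, Fintype.mem_piFinset]
  simp only [mem_univ, true_and, mem_filter]
  rfl

section field

variable {F : Type} [Field F] [Fintype F] [DecidableEq F] [Algebra (ZMod 2) F]
  (lam : F →ₗ[ZMod 2] ZMod 2)

/-- the three coordinates `x, y, x + y` -/
def zz (i : Fin 3) (ω : (F × F) × (F × F)) : F × F := ![ω.1, ω.2, ω.1 + ω.2] i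

/-- shift by `d` or not -/
def sh (d : F × F) (e : Fin 2) (z : F × F) : F × F := ![z, z + d] e

/-- the bits -/
noncomputable def bt {m : ℕ} (a : Fin m × Fin 3 → F) (d : F × F) (ω : (F × F) × (F × F))
    (l : Fin m × (Fin 3 × Fin 2)) : ZMod 2 :=
  lam (a (l.1, l.2.1) * ((sh d l.2.2 (zz l.2.1 ω)).1 * (sh d l.2.2 (zz l.2.1 ω)).2))

theorem bt_sum {m : ℕ} (a : Fin m × Fin 3 → F) (d : F × F) (S : Finset (Fin m × (Fin 3 × Fin 2)))
    (al : Fin 3 × Fin 2 → F) (hal : ∀ k, al k = ∑ t, if (t, k) ∈ S then a (t, k.1) else 0)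
    (ω : (F × F) × (F × F)) :
    ∑ l ∈ S, bt lam a d ω l = lam (al (0,0) * (ω.1.1 * ω.1.2) +
      al (0,1) * ((ω.1.1 + d.1) * (ω.1.2 + d.2)) +
      (al (1,0) * (ω.2.1 * ω.2.2) + al (1,1) * ((ω.2.1 + d.1) * (ω.2.2 + d.2))) +
      (al (2,0) * ((ω.1.1 + ω.2.1) * (ω.1.2 + ω.2.2)) +
        al (2,1) * ((ω.1.1 + ω.2.1 + d.1) * (ω.1.2 + ω.2.2 + d.2)))) := by
  have h1 : ∑ l ∈ S, bt lam a d ω l = lam (∑ k : Fin 3 × Fin 2, al k *
      ((sh d k.2 (zz k.1 ω)).1 * (sh d k.2 (zz k.1 ω)).2)) := by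
    simp only [bt]
    rw [← map_sum]
    congr 1
    rw [← sum_ite_mem_eq S, Fintype.sum_prod_type, sum_comm]
    apply sum_congr rfl
    intro k _
    rw [hal, sum_mul]
    apply sum_congr rfl
    intro t _
    split_ifs
    · rfl
    · rw [zero_mul]
  rw [h1]
  congr 1
  rw [Fintype.sum_prod_type, Fin.sum_univ_three, Fin.sum_univ_two, Fin.sum_univ_two,
    Fin.sum_univ_two]
  simp [zz, sh]

theorem nontriv {m : ℕ} (a : Fin m × Fin 3 → F) (ha : LinearIndependent (ZMod 2) a)
    (S : Finset (Fin m × (Fin 3 × Fin 2))) (hS : S.Nonempty)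
    (al : Fin 3 × Fin 2 → F) (hal : ∀ k, al k = ∑ t, if (t, k) ∈ S then a (t, k.1) else 0) :
    (al (0,0) + al (0,1) ≠ 0 ∨ al (1,0) + al (1,1) ≠ 0 ∨ al (2,0) + al (2,1) ≠ 0) ∨
      (al (0,1) + al (2,1) ≠ 0 ∨ al (1,1) + al (2,1) ≠ 0) := by
  by_contra hcon
  push Not at hcon
  obtain ⟨⟨h0, h1, h2⟩, h3, h4⟩ := hcon
  let ch : Fin m → (Fin 3 × Fin 2) → ZMod 2 := fun t k => if (t, k) ∈ S then 1 else 0
  have hal2 : ∀ k, al k = ∑ t, ch t k • a (t, k.1) := by
    intro k
    rw [hal]
    apply sum_congr rfl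
    intro t _
    simp only [ch]
    split_ifs <;> simp
  have hind : ∀ c : Fin 3 → Fin m → ZMod 2, ∑ i, ∑ t, c i t • a (t, i) = 0 → ∀ i t, c i t = 0 := by
    intro c hc i t
    have := Fintype.linearIndependent_iff.1 ha (fun p => c p.2 p.1) (by
      rw [Fintype.sum_prod_type, sum_comm]
      exact hc) (t, i)
    exact this
  have k1 : ∀ t, ch t (0,1) = 0 ∧ ch t (2,1) = 0 := by
    intro t
    have h := hind (fun i t => if i = 0 then ch t (0,1) else if i = 2 then ch t (2,1) else 0) (by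
      rw [Fin.sum_univ_three]
      have e1 : (1 : Fin 3) ≠ 0 := by decide
      have e2 : (1 : Fin 3) ≠ 2 := by decide
      have e3 : (2 : Fin 3) ≠ 0 := by decide
      simp only [if_true, e1, e2, e3, if_false, zero_smul, sum_const_zero, add_zero]
      have := h3
      rw [hal2, hal2] at this
      exact this)
    refine ⟨?_, ?_⟩
    · have := h 0 t
      simpa using this
    · have := h 2 t
      simpa using this
  have k2 : ∀ t, ch t (1,1) = 0 := by
    intro t
    have h := hind (fun i t => if i = 1 then ch t (1,1) else if i = 2 then ch t (2,1) else 0) (by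
      rw [Fin.sum_univ_three]
      have e1 : (0 : Fin 3) ≠ 1 := by decide
      have e2 : (0 : Fin 3) ≠ 2 := by decide
      have e3 : (2 : Fin 3) ≠ 1 := by decide
      simp only [if_true, e1, e2, e3, if_false, zero_smul, sum_const_zero, zero_add]
      have := h4
      rw [hal2, hal2] at this
      exact this)
    have := h 1 t
    simpa using this
  have k3 : ∀ i : Fin 3, al (i,1) = 0 := by
    intro i
    rw [hal2]
    apply sum_eq_zero
    intro t _
    have : ch t (i,1) = 0 := by
      fin_cases i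
      · exact (k1 t).1
      · exact k2 t
      · exact (k1 t).2
    rw [this, zero_smul]
  have k4 : ∀ i : Fin 3, al (i,0) = 0 := by
    intro i
    fin_cases i
    · have := h0
      rw [k3 0, add_zero] at this
      exact this
    · have := h1
      rw [k3 1, add_zero] at this
      exact this
    · have := h2
      rw [k3 2, add_zero] at this
      exact this
  have k5 : ∀ (i : Fin 3) t, ch t (i,0) = 0 := by
    intro i t
    apply hind (fun i t => ch t (i,0))
    apply sum_eq_zero
    intro i _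
    have := k4 i
    rw [hal2] at this
    exact this
  obtain ⟨⟨t, i, e⟩, hl⟩ := hS
  have hone : ch t (i, e) = 1 := by simp only [ch]; rw [if_pos hl]
  have hzero : ch t (i, e) = 0 := by
    fin_cases e
    · exact k5 i t
    · fin_cases i
      · exact (k1 t).1
      · exact k2 t
      · exact (k1 t).2
  rw [hone] at hzero
  exact absurd hzero (by decide)

theorem char_bound (hlam : lam ≠ 0) {m : ℕ} (a : Fin m × Fin 3 → F)
    (ha : LinearIndependent (ZMod 2) a) (d : F × F) (hd : d ≠ 0)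
    (S : Finset (Fin m × (Fin 3 × Fin 2))) (hS : S.Nonempty) :
    |∑ ω : (F × F) × (F × F), sg (∑ l ∈ S, bt lam a d ω l)| ≤ (Fintype.card F : ℝ) ^ 3 := by
  obtain ⟨al, hal⟩ : ∃ al : Fin 3 × Fin 2 → F,
      ∀ k, al k = ∑ t, if (t, k) ∈ S then a (t, k.1) else 0 := ⟨_, fun k => rfl⟩
  rw [sum_congr rfl fun ω _ => by rw [bt_sum lam a d S al hal ω]]
  apply quad_sum lam hlam
  · by_contra hcon
    push Not at hcon
    exact hd (Prod.ext hcon.1 hcon.2)
  · exact nontriv a ha S hS al hal

/-- the set -/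
def InA {m : ℕ} (a : Fin m × Fin 3 → F) (x y : F × F) : Prop :=
  ∀ t, nae (lam (a (t, 0) * (x.1 * x.2))) (lam (a (t, 1) * (y.1 * y.2)))
    (lam (a (t, 2) * ((x + y).1 * (x + y).2)))

theorem char2 (z : F) : z + z = 0 := by
  have h : (1 : ZMod 2) + 1 = 0 := by decide
  have : (algebraMap (ZMod 2) F) (1 + 1) = 0 := by rw [h, map_zero]
  rw [map_add, map_one] at this
  calc z + z = z * (1 + 1) := by ring
    _ = 0 := by rw [this, mul_zero]

theorem inA_iff {m : ℕ} (a : Fin m × Fin 3 → F) (d : F × F) (x y : F × F) :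
    InA lam a x y ↔ ∀ t, PA (fun k => bt lam a d (x, y) (t, k)) := by
  simp [InA, PA, bt, sh, zz]

theorem sq_iff {m : ℕ} (a : Fin m × Fin 3 → F) (d : F × F) (x y : F × F) :
    (InA lam a x y ∧ InA lam a x (y + d) ∧ InA lam a (x + d) y ∧ InA lam a (x + d) (y + d)) ↔
      ∀ t, PQ (fun k => bt lam a d (x, y) (t, k)) := by
  have e1 : x + (y + d) = x + y + d := by abel
  have e2 : x + d + y = x + y + d := by abel
  have e3 : x + d + (y + d) = x + y := by
    have : d + d = 0 := Prod.ext (char2 d.1) (char2 d.2)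
    calc x + d + (y + d) = x + y + (d + d) := by abel
      _ = x + y := by rw [this, add_zero]
  constructor
  · rintro ⟨h1, h2, h3, h4⟩ t
    have k1 := h1 t
    have k2 := h2 t
    have k3 := h3 t
    have k4 := h4 t
    rw [e1] at k2
    rw [e2] at k3
    rw [e3] at k4
    exact ⟨k1, k2, k3, k4⟩
  · intro h
    refine ⟨fun t => (h t).1, fun t => ?_, fun t => ?_, fun t => ?_⟩
    · rw [e1]
      exact (h t).2.1
    · rw [e2]
      exact (h t).2.2.1
    · rw [e3]
      exact (h t).2.2.2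

end field

end Pool.Agent.Helper189.Squares
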