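import Mathlib
import Pool.Agent.Helper189.SquaresB

set_option autoImplicit false

namespace Pool.Agent.Helper189.Squares

open Finset

theorem count_general {F : Type} [Field F] [Fintype F] [DecidableEq F] [Algebra (ZMod 2) F]
    (lam : F →ₗ[ZMod 2] ZMod 2) (hlam : lam ≠ 0) {m : ℕ} (a : Fin m × Fin 3 → F)
    (ha : LinearIndependent (ZMod 2) a) (d : F × F) (hd : d ≠ 0)
    (P : (Fin 3 × Fin 2 → ZMod 2) → Prop) [DecidablePred P] (hF : 2 * 64 ^ m ≤ Fintype.card F) :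
    ((univ.filter P).card / 64 : ℝ) ^ m * (Fintype.card F : ℝ) ^ 4 / 2 ≤
      ((univ.filter fun ω : (F × F) × (F × F) =>
        ∀ t, P (fun k => bt lam a d ω (t, k))).card : ℝ) ∧
    ((univ.filter fun ω : (F × F) × (F × F) =>
        ∀ t, P (fun k => bt lam a d ω (t, k))).card : ℝ) ≤
      2 * ((univ.filter P).card / 64 : ℝ) ^ m * (Fintype.card F : ℝ) ^ 4 := by
  have hq0 : (0 : ℝ) ≤ (Fintype.card F : ℝ) := Nat.cast_nonneg _
  have h := equi_set (bt lam a d) ((Fintype.card F : ℝ) ^ 3) (by positivity)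
    (fun S hS => char_bound lam hlam a ha d hd S hS)
    (univ.filter fun w : Fin m × (Fin 3 × Fin 2) → ZMod 2 => ∀ t, P (fun k => w (t, k)))
  rw [card_pow] at h
  have e1 : (univ.filter fun ω : (F × F) × (F × F) => bt lam a d ω ∈
      univ.filter fun w : Fin m × (Fin 3 × Fin 2) → ZMod 2 => ∀ t, P (fun k => w (t, k))) =
      univ.filter fun ω : (F × F) × (F × F) => ∀ t, P (fun k => bt lam a d ω (t, k)) := by
    ext ω
    simp
  rw [e1] at h
  have e2 : (Fintype.card ((F × F) × (F × F)) : ℝ) = (Fintype.card F : ℝ) ^ 4 := by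
    rw [Fintype.card_prod, Fintype.card_prod]
    push_cast
    ring
  have e3 : (2 : ℝ) ^ (Fintype.card (Fin m × (Fin 3 × Fin 2))) = 64 ^ m := by
    rw [Fintype.card_prod, Fintype.card_prod, Fintype.card_fin, Fintype.card_fin, Fintype.card_fin,
      mul_comm, pow_mul]
    norm_num
  rw [e2, e3] at h
  push_cast at h
  set q : ℝ := (Fintype.card F : ℝ) with hq
  set c : ℝ := ((univ.filter P).card : ℝ) with hc
  have hc0 : 0 ≤ c := Nat.cast_nonneg _
  have hF' : 2 * (64 : ℝ) ^ m ≤ q := by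
    rw [hq]
    exact_mod_cast hF
  have h64 : (0 : ℝ) < 64 ^ m := by positivity
  have hq3 : q ^ 3 ≤ q ^ 4 / 64 ^ m / 2 := by
    rw [div_div, le_div_iff₀ (by positivity)]
    have : q ^ 4 = q ^ 3 * q := by ring
    rw [this, mul_comm (64 ^ m : ℝ) 2]
    exact mul_le_mul_of_nonneg_left hF' (by positivity)
  have hmul : c ^ m * q ^ 3 ≤ c ^ m * (q ^ 4 / 64 ^ m / 2) :=
    mul_le_mul_of_nonneg_left hq3 (by positivity)
  obtain ⟨h1, h2⟩ := abs_le.1 h
  have e4 : (c / 64) ^ m * q ^ 4 = c ^ m * (q ^ 4 / 64 ^ m) := by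
    rw [div_pow]
    ring
  have hpos : 0 ≤ c ^ m * (q ^ 4 / 64 ^ m) := by positivity
  constructor
  · rw [e4]
    linarith
  · have e5 : 2 * (c / 64) ^ m * q ^ 4 = 2 * (c ^ m * (q ^ 4 / 64 ^ m)) := by
      rw [← e4]
      ring
    rw [e5]
    linarith

/-- the number of squares with difference `d` in `A` -/
def Qd {n : ℕ} (A : Finset ((Fin n → ZMod 2) × (Fin n → ZMod 2))) (d : Fin n → ZMod 2) : ℕ :=
  (univ.filter fun p : (Fin n → ZMod 2) × (Fin n → ZMod 2) =>
    p ∈ A ∧ (p.1, p.2 + d) ∈ A ∧ (p.1 + d, p.2) ∈ A ∧ (p.1 + d, p.2 + d) ∈ A).card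

theorem construct (m s : ℕ) (hs : 6 * m + 1 ≤ s) :
    ∃ A : Finset ((Fin (2 * s) → ZMod 2) × (Fin (2 * s) → ZMod 2)),
      (3 / 4 : ℝ) ^ m * ((2 : ℝ) ^ (2 * s)) ^ 2 / 2 ≤ A.card ∧
      ∀ d, d ≠ 0 → (Qd A d : ℝ) ≤ 2 * (9 / 32) ^ m * ((2 : ℝ) ^ (2 * s)) ^ 2 := by
  classical
  have hs0 : s ≠ 0 := by omega
  have : Fact (Nat.Prime 2) := ⟨Nat.prime_two⟩
  let F := GaloisField 2 s
  have : Fintype F := Fintype.ofFinite F
  have hcard : Fintype.card F = 2 ^ s := by
    rw [← Nat.card_eq_fintype_card]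
    exact GaloisField.card 2 s hs0
  have hrank : Module.finrank (ZMod 2) F = s := GaloisField.finrank 2 hs0
  let b : Module.Basis (Fin s) (ZMod 2) F := Module.finBasisOfFinrankEq (ZMod 2) F hrank
  have hm3 : m * 3 ≤ s := by omega
  let a : Fin m × Fin 3 → F := fun p => b (Fin.castLE hm3 (finProdFinEquiv p))
  have ha : LinearIndependent (ZMod 2) a :=
    b.linearIndependent.comp _ ((Fin.castLE_injective hm3).comp finProdFinEquiv.injective)
  let lam : F →ₗ[ZMod 2] ZMod 2 := b.coord ⟨0, by omega⟩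
  have hlam : lam ≠ 0 := by
    intro h
    have h1 : lam (b ⟨0, by omega⟩) = 1 := by
      simp [lam]
    rw [h] at h1
    exact zero_ne_one h1
  have hFc : 2 * 64 ^ m ≤ Fintype.card F := by
    rw [hcard]
    calc 2 * 64 ^ m = 2 ^ (6 * m + 1) := by
          rw [pow_succ, pow_mul]
          norm_num
          ring
      _ ≤ 2 ^ s := Nat.pow_le_pow_right (by norm_num) hs
  have hfr : Module.finrank (ZMod 2) (Fin (2 * s) → ZMod 2) = Module.finrank (ZMod 2) (F × F) := by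
    rw [Module.finrank_fin_fun, Module.finrank_prod, hrank]
    ring
  let e : (Fin (2 * s) → ZMod 2) ≃ₗ[ZMod 2] F × F := LinearEquiv.ofFinrankEq _ _ hfr
  have hN : (Fintype.card F : ℝ) ^ 4 = ((2 : ℝ) ^ (2 * s)) ^ 2 := by
    rw [hcard]
    push_cast
    ring
  refine ⟨univ.filter fun p => InA lam a (e p.1) (e p.2), ?_, ?_⟩
  · have hd : ((1, 0) : F × F) ≠ 0 := by
      intro h
      exact one_ne_zero (congrArg Prod.fst h)
    have h := (count_general lam hlam a ha (1, 0) hd PA hFc).1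
    rw [card_PA, hN] at h
    have e1 : (univ.filter fun p : (Fin (2 * s) → ZMod 2) × (Fin (2 * s) → ZMod 2) =>
        InA lam a (e p.1) (e p.2)).card =
        (univ.filter fun ω : (F × F) × (F × F) =>
          ∀ t, PA (fun k => bt lam a (1, 0) ω (t, k))).card := by
      apply card_equiv (e.toEquiv.prodCongr e.toEquiv)
      rintro ⟨x, y⟩
      rw [mem_filter, mem_filter]
      simp only [mem_univ, true_and]
      exact inA_iff lam a (1, 0) (e x) (e y)
    rw [e1]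
    refine le_trans (le_of_eq ?_) h
    norm_num
  · intro d hd
    have hed : e d ≠ 0 := by
      intro h
      exact hd ((LinearEquiv.map_eq_zero_iff e).1 h)
    have h := (count_general lam hlam a ha (e d) hed PQ hFc).2
    rw [card_PQ, hN] at h
    have e1 : Qd (univ.filter fun p : (Fin (2 * s) → ZMod 2) × (Fin (2 * s) → ZMod 2) =>
        InA lam a (e p.1) (e p.2)) d =
        (univ.filter fun ω : (F × F) × (F × F) =>
          ∀ t, PQ (fun k => bt lam a (e d) ω (t, k))).card := by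
      unfold Qd
      apply card_equiv (e.toEquiv.prodCongr e.toEquiv)
      rintro ⟨x, y⟩
      rw [mem_filter, mem_filter]
      simp only [mem_univ, true_and, mem_filter, map_add]
      exact sq_iff lam a (e d) (e x) (e y)
    rw [e1]
    refine h.trans (le_of_eq ?_)
    norm_num

/-- `c` is a valid exponent for squares -/
def ValidExp (c : ℝ) : Prop :=
  ∃ K : ℝ, 0 < K ∧ ∀ α : ℝ, 0 < α → α < 1 → ∃ n₀ : ℕ, ∀ n : ℕ, n₀ ≤ n →
    ∀ A : Finset ((Fin n → ZMod 2) × (Fin n → ZMod 2)), α * ((2 : ℝ) ^ n) ^ 2 ≤ A.card →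
      ∃ d : Fin n → ZMod 2, d ≠ 0 ∧ K * α ^ c * ((2 : ℝ) ^ n) ^ 2 ≤ Qd A d

theorem valid_ge (c : ℝ) (h : ValidExp c) : Real.log (32 / 9) / Real.log (4 / 3) ≤ c := by
  obtain ⟨K, hK, h⟩ := h
  have hstep : ∀ m : ℕ, 1 ≤ m → K * ((3 / 4 : ℝ) ^ m / 2) ^ c ≤ 2 * (9 / 32) ^ m := by
    intro m hm
    have h34 : (0 : ℝ) < (3 / 4 : ℝ) ^ m := by positivity
    have h34' : (3 / 4 : ℝ) ^ m ≤ 1 := pow_le_one₀ (by norm_num) (by norm_num)
    obtain ⟨n₀, hn₀⟩ := h ((3 / 4 : ℝ) ^ m / 2) (by positivity) (by linarith)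
    obtain ⟨A, hA1, hA2⟩ := construct m (6 * m + 1 + n₀) (by omega)
    obtain ⟨d, hd, hQ⟩ := hn₀ (2 * (6 * m + 1 + n₀)) (by omega) A (by
      refine le_trans (le_of_eq ?_) hA1
      ring)
    have h1 := hQ.trans (hA2 d hd)
    have hpos : (0 : ℝ) < ((2 : ℝ) ^ (2 * (6 * m + 1 + n₀))) ^ 2 := by positivity
    exact le_of_mul_le_mul_right h1 hpos
  have hl43 : 0 < Real.log (4 / 3) := Real.log_pos (by norm_num)
  by_contra hcon
  push Not at hcon
  rw [lt_div_iff₀ hl43] at hcon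
  -- ratio
  have hr : (9 / 32 : ℝ) < (3 / 4 : ℝ) ^ c := by
    rw [Real.lt_rpow_iff_log_lt (by norm_num) (by norm_num)]
    have e1 : Real.log (9 / 32) = - Real.log (32 / 9) := by
      rw [← Real.log_inv]
      norm_num
    have e2 : Real.log (3 / 4) = - Real.log (4 / 3) := by
      rw [← Real.log_inv]
      norm_num
    rw [e1, e2]
    linarith
  have h34c : (0 : ℝ) < (3 / 4 : ℝ) ^ c := by positivity
  obtain ⟨ρ, hρ⟩ : ∃ ρ : ℝ, ρ = (9 / 32) / (3 / 4 : ℝ) ^ c := ⟨_, rfl⟩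
  have hρ0 : 0 ≤ ρ := by rw [hρ]; positivity
  have hρ1 : ρ < 1 := by
    rw [hρ, div_lt_one h34c]
    exact hr
  have hfin : ∀ m : ℕ, 1 ≤ m → K * (1 / 2 : ℝ) ^ c / 2 ≤ ρ ^ m := by
    intro m hm
    have h1 := hstep m hm
    have e1 : ((3 / 4 : ℝ) ^ m / 2) ^ c = ((3 / 4 : ℝ) ^ c) ^ m * (1 / 2 : ℝ) ^ c := by
      rw [div_eq_mul_one_div, Real.mul_rpow (by positivity) (by norm_num)]
      congr 1
      rw [← Real.rpow_natCast, ← Real.rpow_mul (by norm_num), ← Real.rpow_natCast,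
        ← Real.rpow_mul (by norm_num), mul_comm]
    rw [e1] at h1
    rw [hρ, div_pow, le_div_iff₀ (by positivity)]
    linarith
  have hK2 : 0 < K * (1 / 2 : ℝ) ^ c / 2 := by positivity
  obtain ⟨m, hm⟩ := exists_pow_lt_of_lt_one hK2 hρ1
  have h1 := hfin (m + 1) (by omega)
  have h2 : ρ ^ (m + 1) ≤ ρ ^ m := by
    rw [pow_succ]
    have : 0 ≤ ρ ^ m := by positivity
    nlinarith
  linarith

theorem num_bound : (4.4 : ℝ) < Real.log (32 / 9) / Real.log (4 / 3) := by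
  have hl43 : 0 < Real.log (4 / 3) := Real.log_pos (by norm_num)
  rw [lt_div_iff₀ hl43]
  have h1 : Real.log ((4 / 3 : ℝ) ^ 22) < Real.log ((32 / 9 : ℝ) ^ 5) := by
    apply Real.log_lt_log (by positivity)
    norm_num
  rw [Real.log_pow, Real.log_pow] at h1
  push_cast at h1
  linarith

end Pool.Agent.Helper189.Squares
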