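import Mathlib
import Pool.Agent.Helper189.DerFree

/-! A residually soluble non-free group with the derived quotients of a free group of rank two. -/

namespace Pool.Agent.Helper189.Towers

open scoped commutatorElement
open Pool.Agent.Helper189.DerFree

/-- The free group of rank two. -/
abbrev F : Type := FreeGroup (Fin 2)

/-- Its derived series. -/
abbrev D (n : ℕ) : Subgroup F := derivedSeries F n

theorem D_anti {m n : ℕ} (h : m ≤ n) : D n ≤ D m := derivedSeries_antitone F h

instance D_normal (n : ℕ) : (D n).Normal := derivedSeries_normal F n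

/-- Conjugation towers `β m ^ (β (m+1) ^ ( ... ))` with `k` entries. -/
def tower (β : ℕ → F) : ℕ → ℕ → F
  | _, 0 => 1
  | m, k + 1 => (tower β (m + 1) k)⁻¹ * β m * tower β (m + 1) k

theorem tower_zero (β : ℕ → F) (m : ℕ) : tower β m 0 = 1 := by simp [tower]

theorem tower_succ (β : ℕ → F) (m k : ℕ) :
    tower β m (k + 1) = (tower β (m + 1) k)⁻¹ * β m * tower β (m + 1) k := by
  rw [tower]

theorem tower_mem {β : ℕ → F} {a : ℕ} (m k : ℕ) (hβ : β m ∈ D a) : tower β m k ∈ D a := by
  cases k with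
  | zero => rw [tower_zero]; exact one_mem _
  | succ k =>
    rw [tower_succ]
    simpa using (D_normal a).conj_mem _ hβ (tower β (m + 1) k)⁻¹

/-- Congruence of conjugates. -/
theorem conj_congr {N : Subgroup F} [N.Normal] {u v : F} (b : F) (h : u⁻¹ * v ∈ N) :
    (u⁻¹ * b * u)⁻¹ * (v⁻¹ * b * v) ∈ N := by
  rw [← QuotientGroup.eq] at h ⊢
  simp only [QuotientGroup.mk_mul, QuotientGroup.mk_inv, h]

theorem tower_congr {β : ℕ → F} (hβ : ∀ m, β m ∈ D m) (k : ℕ) :
    ∀ m, (tower β m k)⁻¹ * tower β m (k + 1) ∈ D (m + k) := by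
  induction k with
  | zero =>
    intro m
    rw [tower_zero, inv_one, one_mul]
    exact tower_mem m 1 (hβ m)
  | succ k ih =>
    intro m
    rw [tower_succ β m (k + 1), tower_succ β m k]
    have h := ih (m + 1)
    have e : m + 1 + k = m + (k + 1) := by ring
    rw [e] at h
    exact conj_congr (β m) h

/-- The product of all the soluble quotients. -/
abbrev P : Type := ∀ n : ℕ, F ⧸ D n

/-- The diagonal map. -/
def diag : F →* P where
  toFun x := fun _ => (x : F ⧸ D _)
  map_one' := rfl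
  map_mul' _ _ := rfl

/-- The limit of the towers. -/
def z (β : ℕ → F) (m : ℕ) : P := fun n => (tower β m n : F ⧸ D n)

theorem z_rel {β : ℕ → F} (hβ : ∀ m, β m ∈ D m) (m : ℕ) :
    z β m = (z β (m + 1))⁻¹ * diag (β m) * z β (m + 1) := by
  funext n
  have h := tower_congr hβ n m
  have h' : (tower β m n)⁻¹ * tower β m (n + 1) ∈ D n := D_anti (Nat.le_add_left n m) h
  have e : (tower β m n : F ⧸ D n) = (tower β m (n + 1) : F ⧸ D n) := QuotientGroup.eq.mpr h'
  change (tower β m n : F ⧸ D n) = _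
  rw [e, tower_succ]
  rfl

/-- Generators of the group. -/
def gens : Set P := Set.range diag ∪ {p | ∃ β : ℕ → F, (∀ m, β m ∈ D m) ∧ ∃ m, p = z β m}

/-- The group. -/
def Gam : Subgroup P := Subgroup.closure gens

theorem diag_mem (x : F) : diag x ∈ Gam := Subgroup.subset_closure (Or.inl ⟨x, rfl⟩)

theorem z_mem {β : ℕ → F} (hβ : ∀ m, β m ∈ D m) (m : ℕ) : z β m ∈ Gam :=
  Subgroup.subset_closure (Or.inr ⟨β, hβ, m, rfl⟩)

/-- The map from the free group. -/
def psi : F →* Gam := diag.codRestrict Gam diag_mem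

theorem z_mem_derived {β : ℕ → F} (hβ : ∀ m, β m ∈ D m) (m : ℕ) :
    (⟨z β m, z_mem hβ m⟩ : Gam) ∈ derivedSeries Gam m := by
  have h1 : psi (β m) ∈ derivedSeries Gam m :=
    map_derivedSeries_le_derivedSeries psi m (Subgroup.mem_map_of_mem psi (hβ m))
  have h2 : (⟨z β m, z_mem hβ m⟩ : Gam) =
      (⟨z β (m + 1), z_mem hβ (m + 1)⟩ : Gam)⁻¹ * psi (β m) * ⟨z β (m + 1), z_mem hβ (m + 1)⟩ := by
    apply Subtype.ext
    exact z_rel hβ m
  rw [h2]
  simpa using (derivedSeries_normal Gam m).conj_mem _ h1 (⟨z β (m + 1), z_mem hβ (m + 1)⟩ : Gam)⁻¹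

/-- The subgroup `F * D^j`. -/
theorem z_mem_sup {β : ℕ → F} (hβ : ∀ m, β m ∈ D m) (j m : ℕ) :
    (⟨z β m, z_mem hβ m⟩ : Gam) ∈ psi.range ⊔ derivedSeries Gam j := by
  rcases le_total j m with h | h
  · exact (le_sup_right : derivedSeries Gam j ≤ _) (derivedSeries_antitone Gam h (z_mem_derived hβ m))
  · induction h using Nat.decreasingInduction with
    | self => exact (le_sup_right : derivedSeries Gam j ≤ _) (z_mem_derived hβ j)
    | of_succ m hm ih =>
      have h2 : (⟨z β m, z_mem hβ m⟩ : Gam) =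
          (⟨z β (m + 1), z_mem hβ (m + 1)⟩ : Gam)⁻¹ * psi (β m) *
            ⟨z β (m + 1), z_mem hβ (m + 1)⟩ := by
        apply Subtype.ext
        exact z_rel hβ m
      rw [h2]
      exact mul_mem (mul_mem (inv_mem ih) ((le_sup_left : psi.range ≤ _) ⟨β m, rfl⟩)) ih

theorem sup_eq_top (j : ℕ) : psi.range ⊔ derivedSeries Gam j = ⊤ := by
  rw [eq_top_iff]
  rintro ⟨p, hp⟩ _
  have key : ∀ p : P, ∀ hp : p ∈ Subgroup.closure gens,
      (⟨p, hp⟩ : Gam) ∈ psi.range ⊔ derivedSeries Gam j := by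
    intro p hp
    induction hp using Subgroup.closure_induction with
    | mem x hx =>
      rcases hx with ⟨y, rfl⟩ | ⟨β, hβ, m, rfl⟩
      · exact (le_sup_left : psi.range ≤ _) ⟨y, rfl⟩
      · exact z_mem_sup hβ j m
    | one => exact one_mem _
    | mul x y hx hy ihx ihy => exact mul_mem ihx ihy
    | inv x hx ihx => exact inv_mem ihx
  exact key p hp

theorem exists_preimage (j : ℕ) (γ : Gam) : ∃ x : F, (psi x)⁻¹ * γ ∈ derivedSeries Gam j := by
  have h : γ ∈ psi.range ⊔ derivedSeries Gam j := by rw [sup_eq_top]; trivial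
  have := derivedSeries_normal Gam j
  rw [Subgroup.mem_sup_of_normal_right] at h
  obtain ⟨y, ⟨x, rfl⟩, w, hw, rfl⟩ := h
  exact ⟨x, by simpa using hw⟩

/-- Projection to a component. -/
def proj (n : ℕ) : Gam →* F ⧸ D n := (Pi.evalMonoidHom (fun n => F ⧸ D n) n).comp Gam.subtype

theorem proj_psi (n : ℕ) (x : F) : proj n (psi x) = (x : F ⧸ D n) := rfl

theorem derivedSeries_quot (n : ℕ) : derivedSeries (F ⧸ D n) n = ⊥ := by
  rw [← map_derivedSeries_eq (f := QuotientGroup.mk' (D n)) (QuotientGroup.mk'_surjective _) n]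
  rw [Subgroup.map_eq_bot_iff, QuotientGroup.ker_mk']

theorem comap_psi (j : ℕ) : (derivedSeries Gam j).comap psi = derivedSeries F j := by
  apply le_antisymm
  · intro x hx
    have h1 : proj j (psi x) ∈ derivedSeries (F ⧸ D j) j :=
      map_derivedSeries_le_derivedSeries (proj j) j (Subgroup.mem_map_of_mem _ hx)
    rw [derivedSeries_quot, Subgroup.mem_bot, proj_psi] at h1
    exact (QuotientGroup.eq_one_iff x).mp h1
  · intro x hx
    exact map_derivedSeries_le_derivedSeries psi j (Subgroup.mem_map_of_mem psi hx)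

theorem residually_soluble (g : Gam) (hg : g ≠ 1) :
    ∃ (S : Type) (_ : Group S) (_ : Group.IsSolvable S) (f : Gam →* S), f g ≠ 1 := by
  have h : ∃ n, g.1 n ≠ 1 := by
    by_contra hcon
    push Not at hcon
    apply hg
    apply Subtype.ext
    funext n
    exact hcon n
  obtain ⟨n, hn⟩ := h
  exact ⟨F ⧸ D n, inferInstance, ⟨⟨n, derivedSeries_quot n⟩⟩, proj n, hn⟩

/-- A partial tower: the map `w ↦ β 0 ^ (β 1 ^ ( ... (β (k-1) ^ w)))` and a depth `N` such that it
is injective on `D N`. -/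
structure Stage where
  /-- the map -/
  T : F → F
  /-- the depth -/
  N : ℕ
  inj : Set.InjOn T (D N)
  congr : ∀ M u v, u⁻¹ * v ∈ D M → (T u)⁻¹ * T v ∈ D M

theorem inv_ne_self {b : F} (hb : b ≠ 1) : b ≠ b⁻¹ := by
  intro h
  apply hb
  have h1 : b ^ 2 = 1 := by rw [pow_two]; nth_rewrite 1 [h]; exact inv_mul_cancel b
  have h2 : (1 : F) ^ 2 = 1 := one_pow 2
  exact IsMulTorsionFree.pow_left_injective (M := F) two_ne_zero (h1.trans h2.symm)

theorem step (S : Stage) (e : P) : ∃ (b : F) (S' : Stage), b ∈ D S.N ∧ S.N < S'.N ∧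
    (∀ w, S'.T w = S.T (w⁻¹ * b * w)) ∧ (S.T b : F ⧸ D S'.N) ≠ e S'.N := by
  obtain ⟨b0, hb0, hne⟩ := exists_ne_one_mem S.N
  have h1 : S.T b0 ≠ S.T b0⁻¹ := fun h => inv_ne_self hne (S.inj hb0 (inv_mem hb0) h)
  have h2 : (S.T b0)⁻¹ * S.T b0⁻¹ ≠ 1 := by
    intro h; apply h1; rwa [inv_mul_eq_one] at h
  obtain ⟨M1, hM1⟩ := exists_notMem h2
  obtain ⟨M2, hM2⟩ := exists_notMem hne
  let N' := max (S.N + 1) (max M1 M2)
  have hN1 : S.N < N' := lt_of_lt_of_le (Nat.lt_succ_self _) (le_max_left _ _)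
  have hN2 : M1 ≤ N' := le_trans (le_max_left _ _) (le_max_right _ _)
  have hN3 : M2 ≤ N' := le_trans (le_max_right _ _) (le_max_right _ _)
  have hdiff : (S.T b0 : F ⧸ D N') ≠ (S.T b0⁻¹ : F ⧸ D N') := by
    intro h
    exact hM1 (D_anti hN2 (QuotientGroup.eq.mp h))
  have hb0' : b0 ∉ D N' := fun h => hM2 (D_anti hN3 h)
  have hchoice : ∃ b : F, b ∈ D S.N ∧ b ∉ D N' ∧ (S.T b : F ⧸ D N') ≠ e N' := by
    by_cases h : (S.T b0 : F ⧸ D N') = e N'
    · refine ⟨b0⁻¹, inv_mem hb0, fun h' => hb0' (by simpa using inv_mem h'), ?_⟩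
      intro h'
      exact hdiff (h.trans h'.symm)
    · exact ⟨b0, hb0, hb0', h⟩
  obtain ⟨b, hbN, hbN', hbe⟩ := hchoice
  refine ⟨b, ⟨fun w => S.T (w⁻¹ * b * w), N', ?_, ?_⟩, hbN, hN1, fun w => rfl, hbe⟩
  · intro u hu v hv huv
    have hu1 : u⁻¹ * b * u ∈ D S.N := by simpa using (D_normal S.N).conj_mem _ hbN u⁻¹
    have hv1 : v⁻¹ * b * v ∈ D S.N := by simpa using (D_normal S.N).conj_mem _ hbN v⁻¹
    have h3 : u⁻¹ * b * u = v⁻¹ * b * v := S.inj hu1 hv1 huv
    have h4 : Commute b (v * u⁻¹) := by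
      change b * (v * u⁻¹) = v * u⁻¹ * b
      have h5 : b * v = v * (u⁻¹ * b * u) := by rw [h3]; group
      rw [← mul_assoc, h5]; group
    have h6 : v * u⁻¹ = 1 := eq_one_of_commute N' hbN' (mul_mem hv (inv_mem hu)) h4
    exact (mul_inv_eq_one.mp h6).symm
  · intro M u v h
    exact S.congr M _ _ (conj_congr b h)

/-- The group is not countable. -/
theorem not_countable : ¬ Countable Gam := by
  intro hc
  obtain ⟨e, he⟩ := exists_surjective_nat Gam
  choose b S' hb hN hT hne using step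
  let S0 : Stage := ⟨id, 0, fun u _ v _ h => h, fun M u v h => h⟩
  let st : ℕ → Stage := fun k => Nat.rec S0 (fun k S => S' S (e k).1) k
  have st_succ : ∀ k, st (k + 1) = S' (st k) (e k).1 := fun k => rfl
  let β : ℕ → F := fun k => b (st k) (e k).1
  have hNk : ∀ k, k ≤ (st k).N := by
    intro k
    induction k with
    | zero => exact Nat.zero_le _
    | succ k ih => rw [st_succ]; exact Nat.succ_le_of_lt (lt_of_le_of_lt ih (hN _ _))
  have hβN : ∀ k, β k ∈ D (st k).N := fun k => hb _ _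
  have hβ : ∀ m, β m ∈ D m := fun m => D_anti (hNk m) (hβN m)
  have htower : ∀ k l, tower β 0 (k + l) = (st k).T (tower β k l) := by
    intro k
    induction k with
    | zero => intro l; rw [zero_add]; rfl
    | succ k ih =>
      intro l
      rw [st_succ, hT, Nat.add_right_comm k 1 l, add_assoc k l 1, ih (l + 1), tower_succ]
  obtain ⟨k, hk⟩ := he ⟨z β 0, z_mem hβ 0⟩
  have h1 : (e k).1 (st (k + 1)).N = z β 0 (st (k + 1)).N := by rw [hk]
  apply hne (st k) (e k).1
  rw [← st_succ, h1]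
  change ((st k).T (β k) : F ⧸ D (st (k + 1)).N) = (tower β 0 (st (k + 1)).N : F ⧸ D (st (k + 1)).N)
  obtain ⟨l, hl⟩ := Nat.exists_eq_add_of_le (hNk (k + 1))
  have h2 : tower β 0 (st (k + 1)).N = (st (k + 1)).T (tower β (k + 1) l) :=
    (congrArg (tower β 0) hl).trans (htower (k + 1) l)
  have h3 : (st k).T (β k) = (st (k + 1)).T 1 := by
    rw [st_succ, hT]; simp [β]
  rw [h2, h3]
  apply QuotientGroup.eq.mpr
  apply (st (k + 1)).congr
  rw [inv_one, one_mul]
  exact tower_mem _ _ (hβN (k + 1))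

/-- The group is not free. -/
theorem not_free : ¬ IsFreeGroup Gam := by
  intro hfree
  apply not_countable
  let Y := IsFreeGroup.Generators Gam
  let e : Gam ≃* FreeGroup Y := IsFreeGroup.toFreeGroup Gam
  have hsurj : Function.Surjective (fun x : F => (Abelianization.of (psi x) : Abelianization Gam)) := by
    intro q
    obtain ⟨γ, rfl⟩ := QuotientGroup.mk_surjective q
    obtain ⟨x, hx⟩ := exists_preimage 1 γ
    refine ⟨x, ?_⟩
    change Abelianization.of (psi x) = Abelianization.of γ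
    rw [derivedSeries_one, ← Abelianization.ker_of, MonoidHom.mem_ker, map_mul, map_inv,
      inv_mul_eq_one] at hx
    exact hx
  have hcab : Countable (Abelianization Gam) := hsurj.countable
  have hYinj : Function.Injective
      (fun y : Y => (Abelianization.of (e.symm (FreeGroup.of y)) : Abelianization Gam)) := by
    intro y y' h
    classical
    by_contra hyy
    let χ : Gam →* Multiplicative ℤ :=
      (FreeGroup.lift fun w : Y => if w = y then Multiplicative.ofAdd (1 : ℤ) else 1).comp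
        e.toMonoidHom
    have h1 : Abelianization.lift χ (Abelianization.of (e.symm (FreeGroup.of y)))
        = Abelianization.lift χ (Abelianization.of (e.symm (FreeGroup.of y'))) :=
      congrArg _ h
    rw [Abelianization.lift_apply_of, Abelianization.lift_apply_of] at h1
    have h2 : (y' = y) = False := by simpa using fun h => hyy h.symm
    simp [χ, h2] at h1
  have hYc : Countable Y := hYinj.countable
  exact Countable.of_equiv _ e.symm.toEquiv

end Pool.Agent.Helper189.Towers
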